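import Mathlib
import Pool.Agent.H621.Near.Lower

set_option autoImplicit false
set_option linter.unusedSectionVars false

/-!
# The numerators `c w` are equidistributed modulo divisors of moderate size

`c w` is the numerator of the periodic point of the `3x+1` map which belongs to the parity word `w`.
For a modulus `g` prime to `6` the number of the words `w` of length `2 n` with `n` letters `1` and
`g ∣ c w` is at least `binom(2n, n) / (2 g)` as soon as `n ≥ C (log g)²`, roughly.
-/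

namespace Pool.Agent.H621.Avg

open Pool.Agent.H872.Near (c W mem_W card_W c_append_false c_append_true)
open ZMod (stdAddChar)

theorem W_succ_succ (m a : ℕ) : W (m + 1) (a + 1) =
    (W m (a + 1)).image (fun w => w ++ [false]) ∪ (W m a).image (fun w => w ++ [true]) := by
  ext w
  simp only [Finset.mem_union, Finset.mem_image, mem_W]
  constructor
  · rintro ⟨h1, h2⟩
    have hne : w ≠ [] := by
      rintro rfl; simp at h1
    obtain ⟨v, b, rfl⟩ : ∃ v b, w = v ++ [b] :=
      ⟨w.dropLast, w.getLast hne, (List.dropLast_append_getLast hne).symm⟩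
    rw [List.length_append] at h1
    cases b
    · left
      refine ⟨v, ⟨by simpa using h1, ?_⟩, rfl⟩
      simpa [List.count_append] using h2
    · right
      refine ⟨v, ⟨by simpa using h1, ?_⟩, rfl⟩
      simpa [List.count_append] using h2
  · rintro (⟨v, ⟨h1, h2⟩, rfl⟩ | ⟨v, ⟨h1, h2⟩, rfl⟩)
    · simp [List.count_append, h1, h2]
    · simp [List.count_append, h1, h2]

theorem W_succ_zero (m : ℕ) : W (m + 1) 0 = (W m 0).image (fun w => w ++ [false]) := by
  ext w
  simp only [Finset.mem_image, mem_W]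
  constructor
  · rintro ⟨h1, h2⟩
    have hne : w ≠ [] := by
      rintro rfl; simp at h1
    obtain ⟨v, b, rfl⟩ : ∃ v b, w = v ++ [b] :=
      ⟨w.dropLast, w.getLast hne, (List.dropLast_append_getLast hne).symm⟩
    rw [List.length_append] at h1
    cases b
    · refine ⟨v, ⟨by simpa using h1, ?_⟩, rfl⟩
      simpa [List.count_append] using h2
    · simp [List.count_append] at h2
  · rintro ⟨v, ⟨h1, h2⟩, rfl⟩
    simp [List.count_append, h1, h2]

theorem append_inj (b : Bool) : Function.Injective (fun w : List Bool => w ++ [b]) :=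
  fun _ _ h => List.append_cancel_right h

theorem sum_W_succ_succ (m a : ℕ) (f : List Bool → ℂ) : ∑ w ∈ W (m + 1) (a + 1), f w =
    ∑ w ∈ W m (a + 1), f (w ++ [false]) + ∑ w ∈ W m a, f (w ++ [true]) := by
  rw [W_succ_succ, Finset.sum_union, Finset.sum_image (fun _ _ _ _ h => append_inj _ h),
    Finset.sum_image (fun _ _ _ _ h => append_inj _ h)]
  rw [Finset.disjoint_left]
  intro x hx hx'
  simp only [Finset.mem_image] at hx hx'
  obtain ⟨y, _, rfl⟩ := hx
  obtain ⟨z, _, hz⟩ := hx'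
  have := List.append_inj_right' hz rfl
  simp at this

theorem sum_W_succ_zero (m : ℕ) (f : List Bool → ℂ) : ∑ w ∈ W (m + 1) 0, f w =
    ∑ w ∈ W m 0, f (w ++ [false]) := by
  rw [W_succ_zero, Finset.sum_image (fun _ _ _ _ h => append_inj _ h)]

section
variable (g : ℕ) [NeZero g]

/-- the exponential sums -/
noncomputable def S : ℕ → ℤ → ZMod g → ℂ
  | 0, a, _ => if a = 0 then 1 else 0
  | m + 1, a, ξ => S m a ξ + stdAddChar (ξ * 2 ^ m) * S m (a - 1) (3 * ξ)

theorem S_neg (m : ℕ) : ∀ (a : ℤ) (ξ : ZMod g), a < 0 → S g m a ξ = 0 := by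
  induction m with
  | zero => intro a ξ ha; simp [S, ha.ne]
  | succ m ih =>
    intro a ξ ha
    simp only [S]
    rw [ih a ξ ha, ih (a - 1) _ (by omega)]
    simp

theorem S_eq (m : ℕ) : ∀ (a : ℕ) (ξ : ZMod g), S g m (a : ℤ) ξ =
    ∑ w ∈ W m a, stdAddChar (ξ * ((c w : ℤ) : ZMod g)) := by
  induction m with
  | zero =>
    intro a ξ
    cases a with
    | zero => simp [S, W, c]
    | succ a =>
      simp only [S, W, Finset.sum_empty]
      rw [if_neg (by push_cast; omega)]
  | succ m ih =>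
    intro a ξ
    cases a with
    | zero =>
      rw [sum_W_succ_zero]
      simp only [S, c_append_false]
      rw [ih 0 ξ, S_neg g m _ _ (by simp)]
      simp
    | succ a =>
      rw [sum_W_succ_succ]
      simp only [S, c_append_false, c_append_true]
      rw [ih (a + 1) ξ]
      congr 1
      have e : (((a + 1 : ℕ) : ℤ) - 1) = (a : ℤ) := by push_cast; ring
      rw [e, ih a (3 * ξ), Finset.mul_sum]
      apply Finset.sum_congr rfl
      intro w hw
      have hl := ((mem_W _ _ _).1 hw).1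
      rw [← AddChar.map_add_eq_mul]
      congr 1
      push_cast
      rw [hl]
      ring

/-- distance to the nearest multiple of `g` -/
def A (r : ZMod g) : ℕ := (r.valMinAbs).natAbs

theorem A_pos {r : ZMod g} (hr : r ≠ 0) : 1 ≤ A g r := by
  unfold A
  have : r.valMinAbs ≠ 0 := by
    intro h
    exact hr ((ZMod.valMinAbs_eq_zero r).1 h)
  omega

theorem A_le (r : ZMod g) : 2 * A g r ≤ g := by
  unfold A
  have := ZMod.natAbs_valMinAbs_le r
  omega

theorem trans {r r' : ZMod g} {o : ℕ} (ho : o ≤ 2) (h : 4 * r' = 3 ^ o * r)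
    (h1 : 32 * A g r < g) (h2 : 32 * A g r' < g) : 4 * A g r' = 3 ^ o * A g r := by
  unfold A at *
  set x := r.valMinAbs with hx
  set y := r'.valMinAbs with hy
  have hxr : ((x : ℤ) : ZMod g) = r := ZMod.coe_valMinAbs r
  have hyr : ((y : ℤ) : ZMod g) = r' := ZMod.coe_valMinAbs r'
  have hd : (g : ℤ) ∣ 4 * y - 3 ^ o * x := by
    rw [← ZMod.intCast_zmod_eq_zero_iff_dvd]
    push_cast
    rw [hxr, hyr, h, sub_self]
  have h9 : (3 : ℤ) ^ o ≤ 9 := by
    calc (3 : ℤ) ^ o ≤ 3 ^ 2 := pow_le_pow_right₀ (by norm_num) ho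
      _ = 9 := by norm_num
  have hp : (0 : ℤ) < 3 ^ o := by positivity
  have hax : (32 : ℤ) * |x| < g := by
    rw [Int.abs_eq_natAbs]; exact_mod_cast h1
  have hay : (32 : ℤ) * |y| < g := by
    rw [Int.abs_eq_natAbs]; exact_mod_cast h2
  have habs : |4 * y - 3 ^ o * x| < g := by
    have t1 := abs_sub (4 * y) (3 ^ o * x)
    rw [abs_mul, abs_mul, abs_of_pos hp, show |(4 : ℤ)| = 4 by norm_num] at t1
    have t2 : 3 ^ o * |x| ≤ 9 * |x| := mul_le_mul_of_nonneg_right h9 (abs_nonneg x)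
    have t3 := abs_nonneg x
    have t4 := abs_nonneg y
    linarith
  have h0 : 4 * y - 3 ^ o * x = 0 := Int.eq_zero_of_abs_lt_dvd hd habs
  have h0' : 4 * y = 3 ^ o * x := by linarith
  have := congrArg Int.natAbs h0'
  rw [Int.natAbs_mul, Int.natAbs_mul, Int.natAbs_pow] at this
  simpa using this

/-- the potential -/
noncomputable def h (r : ZMod g) : ℝ :=
  if g ≤ 32 * A g r then 1 else 1 + 1 / 4096 + 1 / 4096 * (Real.log (A g r) / Real.log g)

theorem log_A_nonneg (r : ZMod g) : 0 ≤ Real.log (A g r) := Real.log_natCast_nonneg _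

theorem h_ge (r : ZMod g) : 1 ≤ h g r := by
  unfold h
  split_ifs
  · exact le_refl _
  · have h1 : 0 ≤ Real.log (A g r) / Real.log g :=
      div_nonneg (log_A_nonneg g r) (Real.log_natCast_nonneg _)
    linarith

theorem h_le (hg : 5 ≤ g) (r : ZMod g) : h g r ≤ 1 + 1 / 2048 := by
  unfold h
  split_ifs
  · norm_num
  · have h0 : 0 < Real.log g := Real.log_pos (by exact_mod_cast (show 1 < g by omega))
    have h1 : Real.log (A g r) / Real.log g ≤ 1 := by
      rw [div_le_one h0]
      rcases Nat.eq_zero_or_pos (A g r) with h2 | h2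
      · rw [h2]; simp only [Nat.cast_zero, Real.log_zero]; exact h0.le
      · apply Real.log_le_log (by exact_mod_cast h2)
        have := A_le g r
        exact_mod_cast (show A g r ≤ g by omega)
    linarith

theorem h_trans (hg : 5 ≤ g) {r r' : ZMod g} {o : ℕ} (ho : o ≤ 2) (hr : r ≠ 0)
    (hrr : 4 * r' = 3 ^ o * r) (h1 : 32 * A g r < g) :
    h g r' ≤ 1 + 1 / 4096 + 1 / 4096 *
      ((Real.log (A g r) + o * Real.log 3 - Real.log 4) / Real.log g) := by
  have h0 : 0 < Real.log g := Real.log_pos (by exact_mod_cast (show 1 < g by omega))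
  have h3 : 0 < Real.log 3 := Real.log_pos (by norm_num)
  unfold h
  split_ifs with hl
  · have h4 : Real.log 4 ≤ Real.log g :=
      Real.log_le_log (by norm_num) (by exact_mod_cast (show 4 ≤ g by omega))
    have h5 : -1 ≤ (Real.log (A g r) + o * Real.log 3 - Real.log 4) / Real.log g := by
      rw [le_div_iff₀ h0]
      have := log_A_nonneg g r
      have : 0 ≤ (o : ℝ) * Real.log 3 := by positivity
      linarith
    linarith
  · have e := trans g ho hrr h1 (by omega)
    have hA := A_pos g hr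
    have hA' : 1 ≤ A g r' := by
      by_contra hcon
      have : A g r' = 0 := by omega
      rw [this] at e
      have : 0 < 3 ^ o * A g r := by positivity
      omega
    have e2 : (4 : ℝ) * A g r' = 3 ^ o * A g r := by exact_mod_cast e
    have e3 : Real.log 4 + Real.log (A g r') = o * Real.log 3 + Real.log (A g r) := by
      have hAr : (0 : ℝ) < A g r := by exact_mod_cast hA
      have hAr' : (0 : ℝ) < A g r' := by exact_mod_cast hA'
      rw [← Real.log_mul (by norm_num) hAr'.ne', e2, Real.log_mul (by positivity) hAr.ne',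
        Real.log_pow]
    have e4 : Real.log (A g r') = Real.log (A g r) + o * Real.log 3 - Real.log 4 := by linarith
    rw [e4]

theorem norm_psi (r : ZMod g) : ‖(stdAddChar r : ℂ)‖ = 1 := by
  rw [ZMod.stdAddChar_apply]
  exact Circle.norm_coe _

theorem one_add_psi_le (r : ZMod g) : ‖1 + (stdAddChar r : ℂ)‖ ≤ 2 := by
  refine (norm_add_le _ _).trans ?_
  rw [norm_psi, norm_one]
  norm_num

theorem one_add_psi_large (r : ZMod g) (hr : g ≤ 32 * A g r) :
    ‖1 + (stdAddChar r : ℂ)‖ ≤ 2 - 1 / 256 := by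
  set x := r.valMinAbs with hx
  have hg0 : (0 : ℝ) < g := by exact_mod_cast Nat.pos_of_ne_zero (NeZero.ne g)
  have hxr : ((x : ℤ) : ZMod g) = r := ZMod.coe_valMinAbs r
  set θ : ℝ := 2 * Real.pi * x / g with hθ
  have e1 : (stdAddChar r : ℂ) = Complex.exp (θ * Complex.I) := by
    rw [← hxr, ZMod.stdAddChar_coe]
    congr 1
    rw [hθ]
    push_cast
    ring
  have hAx : (A g r : ℝ) = |(x : ℝ)| := by
    unfold A
    rw [← hx, Nat.cast_natAbs]
    push_cast
    rfl
  have hlow : (g : ℝ) ≤ 32 * |(x : ℝ)| := by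
    rw [← hAx]; exact_mod_cast hr
  have hup : 2 * |(x : ℝ)| ≤ g := by
    rw [← hAx]; exact_mod_cast A_le g r
  have hθabs : |θ| = 2 * Real.pi * (|(x : ℝ)| / g) := by
    rw [hθ, abs_div, abs_mul, abs_of_pos Real.two_pi_pos, abs_of_pos hg0]
    ring
  have hq1 : |(x : ℝ)| / g ≤ 1 / 2 := by
    rw [div_le_iff₀ hg0]; linarith
  have hq2 : 1 / 32 ≤ |(x : ℝ)| / g := by
    rw [le_div_iff₀ hg0]; linarith
  have hcos : Real.cos θ ≤ 1 - 2 / Real.pi ^ 2 * θ ^ 2 := by
    apply Real.cos_le_one_sub_mul_cos_sq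
    rw [hθabs]
    have := Real.pi_pos
    nlinarith
  have hθ2 : 2 / Real.pi ^ 2 * θ ^ 2 = 8 * (|(x : ℝ)| / g) ^ 2 := by
    rw [← sq_abs θ, hθabs]
    have := Real.pi_ne_zero
    field_simp
    ring
  have hcos' : Real.cos θ ≤ 1 - 1 / 128 := by
    rw [hθ2] at hcos
    nlinarith
  have hsq : ‖1 + (stdAddChar r : ℂ)‖ ^ 2 = 2 + 2 * Real.cos θ := by
    rw [e1, ← Complex.normSq_eq_norm_sq, Complex.normSq_apply]
    simp only [Complex.add_re, Complex.one_re, Complex.exp_ofReal_mul_I_re, Complex.add_im,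
      Complex.one_im, Complex.exp_ofReal_mul_I_im, zero_add]
    have := Real.sin_sq_add_cos_sq θ
    nlinarith
  have hnn := norm_nonneg (1 + (stdAddChar r : ℂ))
  nlinarith

/-- the loss per two letters -/
noncomputable def del (g : ℕ) : ℝ := 1 / (32768 * Real.log g)

theorem log_four_thirds : (1 : ℝ) / 4 ≤ Real.log 4 - Real.log 3 := by
  rw [← Real.log_div (by norm_num) (by norm_num)]
  have h1 := Real.one_sub_inv_le_log_of_pos (show (0 : ℝ) < 4 / 3 by norm_num)
  norm_num at h1 ⊢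
  linarith

theorem log_five : (1 : ℝ) ≤ Real.log 5 := by
  rw [Real.le_log_iff_exp_le (by norm_num)]
  have := Real.exp_one_lt_d9
  linarith

theorem del_pos (hg : 5 ≤ g) : 0 < del g := by
  unfold del
  have h0 : 0 < Real.log g := Real.log_pos (by exact_mod_cast (show 1 < g by omega))
  positivity

theorem del_le (hg : 5 ≤ g) : del g ≤ 1 / 32768 := by
  unfold del
  have h1 : 1 ≤ Real.log g := log_five.trans
    (Real.log_le_log (by norm_num) (by exact_mod_cast hg))
  apply one_div_le_one_div_of_le (by norm_num)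
  linarith

theorem step (hg : 5 ≤ g) {r r0 r1 r2 : ZMod g} (hr : r ≠ 0) (h0 : 4 * r0 = r)
    (h1 : 4 * r1 = 3 * r) (h2 : 4 * r2 = 9 * r) :
    h g r0 + ‖1 + (stdAddChar r : ℂ)‖ * h g r1 + h g r2 ≤ 4 * (1 - del g) * h g r := by
  have hlog : 0 < Real.log g := Real.log_pos (by exact_mod_cast (show 1 < g by omega))
  have hd0 := del_pos g hg
  have hd1 := del_le g hg
  have hr1 := h_ge g r1
  have hr' := h_ge g r
  by_cases hl : g ≤ 32 * A g r
  · have b0 := h_le g hg r0
    have b1 := h_le g hg r1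
    have b2 := h_le g hg r2
    have c1 := one_add_psi_large g r hl
    have hnn := norm_nonneg (1 + (stdAddChar r : ℂ))
    have e1 : ‖1 + (stdAddChar r : ℂ)‖ * h g r1 ≤ (2 - 1 / 256) * (1 + 1 / 2048) := by
      apply mul_le_mul c1 b1 (by linarith) (by norm_num)
    nlinarith
  · have hl' : 32 * A g r < g := by omega
    have b0 := h_trans g hg (o := 0) (by norm_num) hr (by rw [h0]; ring) hl'
    have b1 := h_trans g hg (o := 1) (by norm_num) hr (by rw [h1]; ring) hl'
    have b2 := h_trans g hg (o := 2) (by norm_num) hr (by rw [h2]; norm_num) hl'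
    have c1 := one_add_psi_le g r
    have e1 : ‖1 + (stdAddChar r : ℂ)‖ * h g r1 ≤ 2 * h g r1 :=
      mul_le_mul_of_nonneg_right c1 (by linarith)
    have hhr : h g r = 1 + 1 / 4096 + 1 / 4096 * (Real.log (A g r) / Real.log g) := by
      unfold h
      rw [if_neg hl]
    have hup := h_le g hg r
    set X := Real.log (A g r) with hX
    set L := Real.log g with hL
    have e2 : h g r0 + 2 * h g r1 + h g r2 ≤
        4 * (1 + 1 / 4096 + 1 / 4096 * (X / L)) - 4 / 4096 * ((Real.log 4 - Real.log 3) / L) := by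
      have : 4 * (1 + 1 / 4096 + 1 / 4096 * (X / L)) - 4 / 4096 * ((Real.log 4 - Real.log 3) / L) =
        (1 + 1 / 4096 + 1 / 4096 * ((X + ((0 : ℕ) : ℝ) * Real.log 3 - Real.log 4) / L)) +
        2 * (1 + 1 / 4096 + 1 / 4096 * ((X + ((1 : ℕ) : ℝ) * Real.log 3 - Real.log 4) / L)) +
        (1 + 1 / 4096 + 1 / 4096 * ((X + ((2 : ℕ) : ℝ) * Real.log 3 - Real.log 4) / L)) := by
        push_cast
        field_simp
        ring
      rw [this]
      linarith
    have e3 : (1 / 4) / L ≤ (Real.log 4 - Real.log 3) / L :=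
      div_le_div_of_nonneg_right log_four_thirds hlog.le
    have e4 : (1 / 4) / L = 8192 * del g := by
      unfold del
      rw [← hL]
      field_simp
      norm_num
    rw [← hhr] at e2
    rw [e4] at e3
    nlinarith

theorem S_bound (hg : 5 ≤ g) (u : ZMod g) (hu : 4 * u = 1) (h3 : IsUnit (3 : ZMod g)) :
    ∀ (m : ℕ) (a : ℤ) (ξ : ZMod g), ξ ≠ 0 →
      ‖S g (2 * m) a ξ‖ ≤ (4 * (1 - del g)) ^ m * h g (ξ * 4 ^ m * u) := by
  intro m
  induction m with
  | zero =>
    intro a ξ _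
    simp only [Nat.mul_zero, S, pow_zero, one_mul]
    have := h_ge g (ξ * 1 * u)
    split_ifs
    · simpa using this
    · simp only [norm_zero]; linarith
  | succ m ih =>
    intro a ξ hξ
    have hd0 := del_pos g hg
    have hd1 := del_le g hg
    have e0 : 2 * (m + 1) = 2 * m + 1 + 1 := by ring
    rw [e0]
    simp only [S]
    set r : ZMod g := ξ * 4 ^ m with hr
    have p1 : (ξ * 2 ^ (2 * m) : ZMod g) = r := by
      rw [hr, pow_mul]; norm_num
    have p2 : (ξ * 2 ^ (2 * m + 1) : ZMod g) = r + r := by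
      rw [hr, pow_succ, pow_mul]; norm_num; ring
    have p3 : (3 * ξ * 2 ^ (2 * m) : ZMod g) = 3 * r := by
      rw [hr, pow_mul]; norm_num; ring
    have hu4 : IsUnit (4 : ZMod g) := IsUnit.of_mul_eq_one u hu
    have hr0 : r ≠ 0 := by
      intro hcon
      rw [hr] at hcon
      exact hξ (((hu4.pow m).mul_left_eq_zero).1 hcon)
    have h3ξ : 3 * ξ ≠ 0 := by
      intro hcon
      exact hξ ((h3.mul_right_eq_zero).1 hcon)
    have h9ξ : 3 * (3 * ξ) ≠ 0 := by
      intro hcon
      exact h3ξ ((h3.mul_right_eq_zero).1 hcon)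
    rw [p1, p2, p3]
    have i0 := ih a ξ hξ
    have i1 := ih (a - 1) (3 * ξ) h3ξ
    have i2 := ih (a - 1 - 1) (3 * (3 * ξ)) h9ξ
    have hst := step g hg (r := r) (r0 := ξ * 4 ^ m * u) (r1 := 3 * ξ * 4 ^ m * u)
      (r2 := 3 * (3 * ξ) * 4 ^ m * u) hr0
      (by rw [hr]; linear_combination (ξ * 4 ^ m) * hu)
      (by rw [hr]; linear_combination (3 * ξ * 4 ^ m) * hu)
      (by rw [hr]; linear_combination (9 * ξ * 4 ^ m) * hu)
    have hfin : (ξ * 4 ^ (m + 1) * u : ZMod g) = r := by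
      rw [hr, pow_succ]; linear_combination (ξ * 4 ^ m) * hu
    rw [hfin]
    set B : ℝ := (4 * (1 - del g)) ^ m with hB
    have hBpos : 0 < B := by
      rw [hB]; apply pow_pos; linarith
    have key : S g (2 * m) a ξ + stdAddChar r * S g (2 * m) (a - 1) (3 * ξ) +
        stdAddChar (r + r) * (S g (2 * m) (a - 1) (3 * ξ) +
          stdAddChar (3 * r) * S g (2 * m) (a - 1 - 1) (3 * (3 * ξ))) =
        S g (2 * m) a ξ + stdAddChar r * (1 + stdAddChar r) * S g (2 * m) (a - 1) (3 * ξ) +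
        stdAddChar (r + r) * stdAddChar (3 * r) * S g (2 * m) (a - 1 - 1) (3 * (3 * ξ)) := by
      rw [AddChar.map_add_eq_mul]
      ring
    rw [key]
    have n1 := norm_psi g r
    have n2 := norm_psi g (r + r)
    have n3 := norm_psi g (3 * r)
    have t1 : ‖S g (2 * m) a ξ + stdAddChar r * (1 + stdAddChar r) * S g (2 * m) (a - 1) (3 * ξ) +
        stdAddChar (r + r) * stdAddChar (3 * r) * S g (2 * m) (a - 1 - 1) (3 * (3 * ξ))‖ ≤
        ‖S g (2 * m) a ξ‖ + ‖1 + (stdAddChar r : ℂ)‖ * ‖S g (2 * m) (a - 1) (3 * ξ)‖ +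
        ‖S g (2 * m) (a - 1 - 1) (3 * (3 * ξ))‖ := by
      refine (norm_add_le _ _).trans (add_le_add ((norm_add_le _ _).trans
        (add_le_add le_rfl ?_)) ?_)
      · rw [norm_mul, norm_mul, n1, one_mul]
      · rw [norm_mul, norm_mul, n2, n3, one_mul, one_mul]
    refine t1.trans ?_
    have t2 : ‖1 + (stdAddChar r : ℂ)‖ * ‖S g (2 * m) (a - 1) (3 * ξ)‖ ≤
        ‖1 + (stdAddChar r : ℂ)‖ * (B * h g (3 * ξ * 4 ^ m * u)) :=
      mul_le_mul_of_nonneg_left i1 (norm_nonneg _)
    have t3 : B * (h g (ξ * 4 ^ m * u) + ‖1 + (stdAddChar r : ℂ)‖ * h g (3 * ξ * 4 ^ m * u) +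
        h g (3 * (3 * ξ) * 4 ^ m * u)) ≤ B * (4 * (1 - del g) * h g r) :=
      mul_le_mul_of_nonneg_left hst hBpos.le
    calc _ ≤ B * h g (ξ * 4 ^ m * u) + ‖1 + (stdAddChar r : ℂ)‖ * (B * h g (3 * ξ * 4 ^ m * u)) +
          B * h g (3 * (3 * ξ) * 4 ^ m * u) := by linarith
      _ = B * (h g (ξ * 4 ^ m * u) + ‖1 + (stdAddChar r : ℂ)‖ * h g (3 * ξ * 4 ^ m * u) +
          h g (3 * (3 * ξ) * 4 ^ m * u)) := by ring
      _ ≤ B * (4 * (1 - del g) * h g r) := t3
      _ = _ := by rw [hB, pow_succ]; ring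

/-- equidistribution: the number of the words with `g ∣ c w` -/
theorem equi (hg : 5 ≤ g) (h2 : Nat.Coprime g 2) (h3 : Nat.Coprime g 3) (n : ℕ) (hn : 1 ≤ n)
    (hsmall : 8 * (g : ℝ) * n * (1 - del g) ^ n ≤ 1) :
    (Nat.centralBinom n : ℝ) ≤
      2 * g * (((W (2 * n) n).filter fun w => (g : ℤ) ∣ c w).card : ℝ) := by
  have hu4 : IsUnit (4 : ZMod g) := by
    have : ((4 : ℕ) : ZMod g) = 4 := by norm_num
    rw [← this]
    apply (ZMod.isUnit_iff_coprime 4 g).2
    exact (Nat.Coprime.pow_left 2 h2.symm : Nat.Coprime (2 ^ 2) g)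
  have hu3 : IsUnit (3 : ZMod g) := by
    have : ((3 : ℕ) : ZMod g) = 3 := by norm_num
    rw [← this]
    exact (ZMod.isUnit_iff_coprime 3 g).2 h3.symm
  obtain ⟨u, hu⟩ := hu4.exists_right_inv
  have hd0 := del_pos g hg
  have hd1 := del_le g hg
  have hsum : ∑ ξ : ZMod g, S g (2 * n) (n : ℤ) ξ =
      (g : ℂ) * (((W (2 * n) n).filter fun w => (g : ℤ) ∣ c w).card : ℂ) := by
    calc ∑ ξ : ZMod g, S g (2 * n) (n : ℤ) ξ
        = ∑ ξ : ZMod g, ∑ w ∈ W (2 * n) n, stdAddChar (ξ * ((c w : ℤ) : ZMod g)) := by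
          apply Finset.sum_congr rfl
          intro ξ _
          exact S_eq g (2 * n) n ξ
      _ = ∑ w ∈ W (2 * n) n, ∑ ξ : ZMod g, stdAddChar (ξ * ((c w : ℤ) : ZMod g)) :=
          Finset.sum_comm
      _ = ∑ w ∈ W (2 * n) n, if (g : ℤ) ∣ c w then (g : ℂ) else 0 := by
          apply Finset.sum_congr rfl
          intro w _
          rw [AddChar.sum_mulShift _ (ZMod.isPrimitive_stdAddChar g)]
          by_cases hw : (g : ℤ) ∣ c w
          · rw [if_pos hw, if_pos ((ZMod.intCast_zmod_eq_zero_iff_dvd _ _).2 hw), ZMod.card]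
          · rw [if_neg hw, if_neg (fun hh => hw ((ZMod.intCast_zmod_eq_zero_iff_dvd _ _).1 hh))]
            simp
      _ = _ := by
          rw [← Finset.sum_filter, Finset.sum_const, nsmul_eq_mul]
          ring
  have h0 : S g (2 * n) (n : ℤ) 0 = (Nat.centralBinom n : ℂ) := by
    rw [S_eq]
    simp only [zero_mul, AddChar.map_zero_eq_one, Finset.sum_const, nsmul_eq_mul, mul_one]
    rw [card_W, Nat.centralBinom]
  have hsplit : ∑ ξ : ZMod g, S g (2 * n) (n : ℤ) ξ = (Nat.centralBinom n : ℂ) +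
      ∑ ξ ∈ Finset.univ.erase (0 : ZMod g), S g (2 * n) (n : ℤ) ξ := by
    rw [← h0]
    exact (Finset.add_sum_erase _ _ (Finset.mem_univ _)).symm
  have herr : ‖∑ ξ ∈ Finset.univ.erase (0 : ZMod g), S g (2 * n) (n : ℤ) ξ‖ ≤
      g * ((4 * (1 - del g)) ^ n * 2) := by
    refine (norm_sum_le _ _).trans ?_
    calc ∑ ξ ∈ Finset.univ.erase (0 : ZMod g), ‖S g (2 * n) (n : ℤ) ξ‖
        ≤ ∑ ξ ∈ Finset.univ.erase (0 : ZMod g), (4 * (1 - del g)) ^ n * 2 := by
          apply Finset.sum_le_sum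
          intro ξ hξ
          refine (S_bound g hg u hu hu3 n n ξ (Finset.ne_of_mem_erase hξ)).trans ?_
          apply mul_le_mul_of_nonneg_left
          · have := h_le g hg (ξ * 4 ^ n * u); linarith
          · apply pow_nonneg; linarith
      _ ≤ _ := by
          rw [Finset.sum_const, nsmul_eq_mul]
          apply mul_le_mul_of_nonneg_right
          · have : (Finset.univ.erase (0 : ZMod g)).card ≤ g := by
              refine (Finset.card_le_univ _).trans ?_
              rw [ZMod.card]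
            exact_mod_cast this
          · have : (0 : ℝ) ≤ (4 * (1 - del g)) ^ n := by apply pow_nonneg; linarith
            positivity
  have hcb : (4 : ℝ) ^ n ≤ 2 * n * Nat.centralBinom n := by
    exact_mod_cast Nat.four_pow_le_two_mul_self_mul_centralBinom n (by omega)
  have hgpos : (0 : ℝ) < g := by exact_mod_cast (show 0 < g by omega)
  have hnpos : (0 : ℝ) < n := by exact_mod_cast (show 0 < n by omega)
  have herr2 : (g : ℝ) * ((4 * (1 - del g)) ^ n * 2) ≤ (Nat.centralBinom n : ℝ) / 2 := by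
    rw [mul_pow]
    have h4 : (0 : ℝ) < 4 ^ n := by positivity
    have e1 : (g : ℝ) * (4 ^ n * (1 - del g) ^ n * 2) * (4 * n) =
        (8 * (g : ℝ) * n * (1 - del g) ^ n) * 4 ^ n := by ring
    have e2 : (g : ℝ) * (4 ^ n * (1 - del g) ^ n * 2) * (4 * n) ≤ 4 ^ n := by
      rw [e1]
      calc _ ≤ 1 * (4 : ℝ) ^ n := mul_le_mul_of_nonneg_right hsmall h4.le
        _ = 4 ^ n := one_mul _
    have e3 : (g : ℝ) * (4 ^ n * (1 - del g) ^ n * 2) * (4 * n) ≤
        (Nat.centralBinom n : ℝ) / 2 * (4 * n) := by linarith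
    exact le_of_mul_le_mul_right e3 (by positivity)
  have hkey : (Nat.centralBinom n : ℂ) =
      (g : ℂ) * (((W (2 * n) n).filter fun w => (g : ℤ) ∣ c w).card : ℂ) -
      ∑ ξ ∈ Finset.univ.erase (0 : ZMod g), S g (2 * n) (n : ℤ) ξ := by
    rw [← hsum, hsplit]; ring
  have hn1 : ‖(Nat.centralBinom n : ℂ)‖ ≤
      ‖(g : ℂ) * (((W (2 * n) n).filter fun w => (g : ℤ) ∣ c w).card : ℂ)‖ +
      ‖∑ ξ ∈ Finset.univ.erase (0 : ZMod g), S g (2 * n) (n : ℤ) ξ‖ := by
    rw [hkey]; exact norm_sub_le _ _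
  rw [norm_mul, Complex.norm_natCast, Complex.norm_natCast, Complex.norm_natCast] at hn1
  linarith

end

end Pool.Agent.H621.Avg
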