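import Mathlib
import Pool.Agent.H621.Avg.Equi
import Pool.Agent.H621.Osc.Cyc

set_option autoImplicit false

/-!
# From words to cycles of the `3x+k` maps, `k ≤ K`
-/

namespace Pool.Agent.H621.Avg

open Pool.Agent.H621.Osc (T T_odd T_even IsCycle cyc_eq dvd_of_parity)
open Pool.Agent.H872.Near (c W mem_W card_W c_append_false c_append_true c_parity rotate_mem k_odd
  k_pos c_inj c_pos c_nonneg orb mem_orb orb_iter per_iter)

/-- the cycles with at most `P` elements -/
def shortCycles (k : ℤ) (P : ℕ) : Set (Finset ℤ) := {Z | IsCycle k Z ∧ Z.card ≤ P}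

theorem periodic_finite (k : ℤ) (hk : k % 2 = 1) (N : ℕ) (hN : 1 ≤ N) :
    {x : ℤ | (T k)^[N] x = x}.Finite := by
  classical
  let f : ℤ → (Fin N → Bool) := fun x i => decide ((T k)^[(i : ℕ)] x % 2 = 1)
  have hinj : Set.InjOn f {x : ℤ | (T k)^[N] x = x} := by
    intro x hx y hy hxy
    have hpar : ∀ i : ℕ, (T k)^[i] x % 2 = (T k)^[i] y % 2 := by
      intro i
      have hx' : Function.IsPeriodicPt (T k) N x := hx
      have hy' : Function.IsPeriodicPt (T k) N y := hy
      rw [← hx'.iterate_mod_apply i, ← hy'.iterate_mod_apply i]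
      have hlt := Nat.mod_lt i (show 0 < N by omega)
      have h1 := congrFun hxy ⟨i % N, hlt⟩
      simp only [f, decide_eq_decide] at h1
      rcases Int.emod_two_eq_zero_or_one ((T k)^[i % N] x) with h | h <;>
      rcases Int.emod_two_eq_zero_or_one ((T k)^[i % N] y) with h' | h' <;>
      rw [h, h'] at h1 <;> rw [h, h'] <;> simp at h1
    by_contra hne
    have hd : ∀ n : ℕ, (2 : ℤ) ^ n ∣ x - y := fun n =>
      dvd_of_parity k hk n x y (fun i _ => hpar i)
    have h0 : x - y ≠ 0 := sub_ne_zero.2 hne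
    have h1 := Nat.le_of_dvd (Int.natAbs_pos.2 h0) (Int.natAbs_dvd_natAbs.2 (hd (x - y).natAbs))
    rw [Int.natAbs_pow] at h1
    have h2 : (x - y).natAbs < 2 ^ (x - y).natAbs := Nat.lt_two_pow_self
    have h3 : Int.natAbs 2 = 2 := rfl
    rw [h3] at h1
    omega
  exact Set.Finite.of_finite_image (Set.toFinite _) hinj

theorem shortCycles_finite (k : ℤ) (hk : k % 2 = 1) (P : ℕ) : (shortCycles k P).Finite := by
  classical
  have hfin := periodic_finite k hk P.factorial (Nat.factorial_pos P)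
  apply (hfin.toFinset.powerset.finite_toSet).subset
  rintro Z ⟨hZ, hP⟩
  rw [Finset.mem_coe, Finset.mem_powerset]
  intro z hz
  rw [Set.Finite.mem_toFinset]
  obtain ⟨h1, h2, _⟩ := cyc_eq hZ z hz
  have h3 : Function.IsPeriodicPt (T k) Z.card z := h2
  obtain ⟨q, hq⟩ := Nat.dvd_factorial (by omega) hP
  have h4 := h3.mul_const q
  rw [← hq] at h4
  exact h4

section
variable {n : ℕ}

theorem T_scale (hn : 1 ≤ n) (k : ℤ) (hk : k % 2 = 1) (w : List Bool) (hw : w ∈ W (2 * n) n)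
    (x : ℤ) (hx : (4 ^ n - 3 ^ n) * x = k * c w) :
    (4 ^ n - 3 ^ n) * T k x = k * c (w.rotate 1) := by
  have hD := k_odd hn
  have hT := Pool.Agent.H872.Near.T_c hn w hw
  have hpar : x % 2 = c w % 2 := by
    have h1 : ((4 ^ n - 3 ^ n) * x) % 2 = (k * c w) % 2 := by rw [hx]
    rw [Int.mul_emod, hD, Int.mul_emod k, hk] at h1
    omega
  rcases Int.emod_two_eq_zero_or_one x with h | h
  · have e1 := T_even (k := k) h
    have e2 := T_even (k := 4 ^ n - 3 ^ n) (x := c w) (by omega)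
    rw [hT] at e2
    have : 2 * ((4 ^ n - 3 ^ n) * T k x) = 2 * (k * c (w.rotate 1)) := by
      calc 2 * ((4 ^ n - 3 ^ n) * T k x) = (4 ^ n - 3 ^ n) * (2 * T k x) := by ring
        _ = (4 ^ n - 3 ^ n) * x := by rw [e1]
        _ = k * c w := hx
        _ = k * (2 * c (w.rotate 1)) := by rw [e2]
        _ = _ := by ring
    linarith
  · have e1 := T_odd (k := k) hk h
    have e2 := T_odd (k := 4 ^ n - 3 ^ n) (x := c w) hD (by omega)
    rw [hT] at e2
    have : 2 * ((4 ^ n - 3 ^ n) * T k x) = 2 * (k * c (w.rotate 1)) := by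
      calc 2 * ((4 ^ n - 3 ^ n) * T k x) = (4 ^ n - 3 ^ n) * (2 * T k x) := by ring
        _ = 3 * ((4 ^ n - 3 ^ n) * x) + (4 ^ n - 3 ^ n) * k := by rw [e1]; ring
        _ = k * (3 * c w + (4 ^ n - 3 ^ n)) := by rw [hx]; ring
        _ = k * (2 * c (w.rotate 1)) := by rw [e2]
        _ = _ := by ring
    linarith

theorem iter_scale (hn : 1 ≤ n) (k : ℤ) (hk : k % 2 = 1) (w : List Bool) (hw : w ∈ W (2 * n) n)
    (x : ℤ) (hx : (4 ^ n - 3 ^ n) * x = k * c w) (i : ℕ) :
    (4 ^ n - 3 ^ n) * (T k)^[i] x = k * c (w.rotate i) := by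
  induction i with
  | zero => simpa using hx
  | succ i ih =>
    rw [Function.iterate_succ_apply']
    have := T_scale hn k hk (w.rotate i) (rotate_mem _ _ _ _ hw) _ ih
    rwa [List.rotate_rotate] at this

/-- the words which give integral periodic points of `T k` -/
noncomputable def good (n : ℕ) (k : ℤ) : Finset (List Bool) :=
  (W (2 * n) n).filter fun w => ((4 : ℤ) ^ n - 3 ^ n) ∣ k * c w

theorem cycles_lower (hn : 1 ≤ n) (k : ℤ) (hk : k % 2 = 1) (P : ℕ) (hP : 2 * n ≤ P) :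
    (good n k).card ≤ 2 * n * (shortCycles k P).ncard := by
  classical
  have hD := k_pos (n := n) hn
  set D : ℤ := 4 ^ n - 3 ^ n with hDdef
  have hk0 : k ≠ 0 := by rintro rfl; simp at hk
  let pt : List Bool → ℤ := fun w => k * c w / D
  have hpt : ∀ w ∈ good n k, D * pt w = k * c w := by
    intro w hw
    exact Int.mul_ediv_cancel' (Finset.mem_filter.1 hw).2
  have hW : ∀ w ∈ good n k, w ∈ W (2 * n) n := fun w hw => (Finset.mem_filter.1 hw).1
  have hinj : Set.InjOn pt (good n k : Set (List Bool)) := by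
    intro w hw v hv h
    have h1 := hpt w hw
    have h2 := hpt v hv
    rw [h] at h1
    rw [h1] at h2
    have h3 : c w = c v := mul_left_cancel₀ hk0 h2
    exact c_inj hn (hW w hw) (hW v hv) h3
  have hper : ∀ w ∈ good n k, (T k)^[2 * n] (pt w) = pt w := by
    intro w hw
    have h1 := iter_scale hn k hk w (hW w hw) (pt w) (hpt w hw) (2 * n)
    have h2 : w.rotate (2 * n) = w := by
      have := ((mem_W _ _ _).1 (hW w hw)).1
      conv_lhs => rw [← this]
      rw [List.rotate_length]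
    rw [h2, ← hDdef, ← hpt w hw] at h1
    exact mul_left_cancel₀ hD.ne' h1
  have hfin := shortCycles_finite k hk P
  have hmem : ∀ w ∈ good n k, orb k (2 * n) (pt w) ∈ hfin.toFinset := by
    intro w hw
    rw [Set.Finite.mem_toFinset]
    refine ⟨⟨pt w, 2 * n, by omega, hper w hw, rfl⟩, ?_⟩
    refine le_trans ?_ hP
    refine Finset.card_image_le.trans ?_
    simp
  calc (good n k).card ≤ 2 * n * ((good n k).image fun w => orb k (2 * n) (pt w)).card := by
        apply Finset.card_le_mul_card_image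
        intro Z hZ
        obtain ⟨w0, hw0, rfl⟩ := Finset.mem_image.1 hZ
        have hsub : ((good n k).filter fun w => orb k (2 * n) (pt w) = orb k (2 * n) (pt w0)).image
            pt ⊆ orb k (2 * n) (pt w0) := by
          intro y hy
          obtain ⟨w, hw, rfl⟩ := Finset.mem_image.1 hy
          obtain ⟨hw1, hw2⟩ := Finset.mem_filter.1 hw
          rw [← hw2, mem_orb (by omega) (hper w hw1)]
          exact ⟨0, rfl⟩
        have hc := Finset.card_le_card hsub
        rw [Finset.card_image_of_injOn] at hc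
        · refine hc.trans ?_
          refine Finset.card_image_le.trans ?_
          simp
        · intro a ha b hb hab
          exact hinj (Finset.mem_filter.1 (Finset.mem_coe.1 ha)).1
            (Finset.mem_filter.1 (Finset.mem_coe.1 hb)).1 hab
    _ ≤ 2 * n * (shortCycles k P).ncard := by
        apply Nat.mul_le_mul_left
        rw [Set.ncard_eq_toFinset_card _ hfin]
        apply Finset.card_le_card
        intro Z hZ
        obtain ⟨w, hw, rfl⟩ := Finset.mem_image.1 hZ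
        exact hmem w hw

/-- the numbers `k ≤ K` prime to `6` -/
def ks (K : ℕ) : Finset ℕ := (Finset.Icc 1 K).filter fun k => k % 6 = 1 ∨ k % 6 = 5

theorem mod6 (n : ℕ) (hn : 1 ≤ n) : (4 ^ n - 3 ^ n) % 2 = 1 ∧ (4 ^ n - 3 ^ n) % 3 = 1 := by
  have h3 : 3 ^ n % 2 = 1 := by
    rw [Nat.pow_mod]; norm_num
  have h4 : 4 ^ n % 3 = 1 := by
    rw [Nat.pow_mod]; norm_num
  have h5 : 3 ^ n % 3 = 0 := Nat.mod_eq_zero_of_dvd (dvd_pow_self 3 (by omega))
  have h6 : 4 ^ n % 2 = 0 := Nat.mod_eq_zero_of_dvd ((by norm_num : 2 ∣ 4).trans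
    (dvd_pow_self 4 (by omega)))
  have h7 : 3 ^ n ≤ 4 ^ n := Nat.pow_le_pow_left (by norm_num) n
  omega

theorem count_k (hn : 1 ≤ n) (K : ℕ) (hK : 12 * 4 ^ n ≤ K) (w : List Bool) :
    (K : ℝ) / (12 * 4 ^ n) * (Nat.gcd (c w).natAbs (4 ^ n - 3 ^ n) : ℝ) ≤
      (((ks K).filter fun k : ℕ => ((4 : ℤ) ^ n - 3 ^ n) ∣ (k : ℤ) * c w).card : ℝ) := by
  classical
  have hlt : 3 ^ n < 4 ^ n := Nat.pow_lt_pow_left (by norm_num) (by omega)
  set D : ℕ := 4 ^ n - 3 ^ n with hD
  have hDpos : 0 < D := by omega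
  have hDle : D ≤ 4 ^ n := Nat.sub_le _ _
  obtain ⟨hm2, hm3⟩ := mod6 n hn
  rw [← hD] at hm2 hm3
  set g := Nat.gcd (c w).natAbs D with hg
  have hgpos : 0 < g := Nat.gcd_pos_of_pos_right _ hDpos
  obtain ⟨d, hd⟩ : g ∣ D := Nat.gcd_dvd_right _ _
  obtain ⟨q, hq⟩ : g ∣ (c w).natAbs := Nat.gcd_dvd_left _ _
  have hdpos : 0 < d := by
    rcases Nat.eq_zero_or_pos d with h | h
    · rw [h] at hd; omega
    · exact h
  have hd2 : d % 2 = 1 := by
    rcases Nat.mod_two_eq_zero_or_one d with h | h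
    · exfalso
      have : D % 2 = 0 := by rw [hd, Nat.mul_mod, h]; simp
      omega
    · exact h
  have hd3 : d % 3 ≠ 0 := by
    intro h
    have : D % 3 = 0 := by rw [hd, Nat.mul_mod, h]; simp
    omega
  have hDZ : ((4 : ℤ) ^ n - 3 ^ n) = (D : ℤ) := by
    rw [hD, Nat.cast_sub hlt.le]; push_cast; ring
  set M := K / (6 * d) with hM
  have hinj : Function.Injective (fun t : ℕ => d * (6 * t + 1)) := by
    intro a b hab
    have h1 := Nat.eq_of_mul_eq_mul_left hdpos hab
    omega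
  have hsub : (Finset.range M).image (fun t : ℕ => d * (6 * t + 1)) ⊆
      (ks K).filter fun k : ℕ => ((4 : ℤ) ^ n - 3 ^ n) ∣ (k : ℤ) * c w := by
    intro k hk
    obtain ⟨t, ht, rfl⟩ := Finset.mem_image.1 hk
    rw [Finset.mem_range] at ht
    rw [Finset.mem_filter]
    refine ⟨?_, ?_⟩
    · unfold ks
      rw [Finset.mem_filter, Finset.mem_Icc]
      refine ⟨⟨?_, ?_⟩, ?_⟩
      · have : 0 < d * (6 * t + 1) := by positivity
        omega
      · have h1 : M * (6 * d) ≤ K := Nat.div_mul_le_self K (6 * d)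
        have h2 : (t + 1) * (6 * d) ≤ M * (6 * d) := Nat.mul_le_mul_right _ ht
        have h3 : (t + 1) * (6 * d) = d * (6 * t + 1) + 5 * d := by ring
        omega
      · have h1 : d * (6 * t + 1) % 6 = d % 6 := by
          rw [show d * (6 * t + 1) = d + 6 * (d * t) by ring]
          omega
        omega
    · rw [hDZ]
      have h1 : (D : ℤ) = (g : ℤ) * d := by rw [hd]; push_cast; ring
      have h2 : (g : ℤ) ∣ c w := Int.natCast_dvd.2 ⟨q, hq⟩
      obtain ⟨e, he⟩ := h2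
      rw [h1, he]
      refine ⟨(6 * t + 1) * e, ?_⟩
      push_cast
      ring
  have hcard := Finset.card_le_card hsub
  rw [Finset.card_image_of_injective _ hinj, Finset.card_range] at hcard
  have hcardR : (M : ℝ) ≤
    (((ks K).filter fun k : ℕ => ((4 : ℤ) ^ n - 3 ^ n) ∣ (k : ℤ) * c w).card : ℝ) := by
    exact_mod_cast hcard
  refine le_trans ?_ hcardR
  have hMR : (K : ℝ) / (6 * d) - 1 ≤ M := by
    have h1 : (K : ℝ) / ((6 * d : ℕ) : ℝ) < (M : ℝ) + 1 := by
      rw [hM, ← Nat.floor_div_eq_div (K := ℝ)]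
      exact Nat.lt_floor_add_one _
    push_cast at h1
    linarith
  have hdR : (0 : ℝ) < d := by exact_mod_cast hdpos
  have hgR : (0 : ℝ) < g := by exact_mod_cast hgpos
  have hKR : (12 : ℝ) * 4 ^ n ≤ K := by exact_mod_cast hK
  have hgd : (g : ℝ) * d ≤ 4 ^ n := by
    have : g * d ≤ 4 ^ n := by rw [← hd]; exact hDle
    exact_mod_cast this
  have hg1 : (1 : ℝ) ≤ g := by exact_mod_cast hgpos
  have h4 : (0 : ℝ) < 4 ^ n := by positivity
  have hK0 : (0 : ℝ) ≤ K := Nat.cast_nonneg _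
  have e1 : (K : ℝ) / (12 * 4 ^ n) * g ≤ K / (12 * d) := by
    rw [div_mul_eq_mul_div, div_le_div_iff₀ (by positivity) (by positivity)]
    nlinarith
  have e2 : 1 ≤ (K : ℝ) / (12 * d) := by
    rw [le_div_iff₀ (by positivity)]
    nlinarith
  have e3 : (K : ℝ) / (6 * d) = 2 * (K / (12 * d)) := by
    field_simp; ring
  linarith

theorem sum_good (hn : 1 ≤ n) (K : ℕ) (hK : 12 * 4 ^ n ≤ K) :
    (K : ℝ) / (12 * 4 ^ n) * ∑ w ∈ W (2 * n) n, (Nat.gcd (c w).natAbs (4 ^ n - 3 ^ n) : ℝ) ≤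
      ∑ k ∈ ks K, ((good n (k : ℤ)).card : ℝ) := by
  classical
  rw [Finset.mul_sum]
  calc ∑ w ∈ W (2 * n) n, (K : ℝ) / (12 * 4 ^ n) *
        (Nat.gcd (c w).natAbs (4 ^ n - 3 ^ n) : ℝ)
      ≤ ∑ w ∈ W (2 * n) n,
        (((ks K).filter fun k : ℕ => ((4 : ℤ) ^ n - 3 ^ n) ∣ (k : ℤ) * c w).card : ℝ) :=
        Finset.sum_le_sum fun w _ => count_k hn K hK w
    _ = ∑ w ∈ W (2 * n) n, ∑ k ∈ ks K, (if ((4 : ℤ) ^ n - 3 ^ n) ∣ (k : ℤ) * c w then 1 else 0) := by
        apply Finset.sum_congr rfl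
        intro w _
        rw [Finset.card_filter]; push_cast; rfl
    _ = ∑ k ∈ ks K, ∑ w ∈ W (2 * n) n, (if ((4 : ℤ) ^ n - 3 ^ n) ∣ (k : ℤ) * c w then 1 else 0) :=
        Finset.sum_comm
    _ = _ := by
        apply Finset.sum_congr rfl
        intro k _
        unfold good
        rw [Finset.card_filter]; push_cast; rfl

/-- the greatest common divisors are large on average -/
theorem gcd_sum (hn : 1 ≤ n) (L : Finset ℕ) (hLp : ∀ l ∈ L, l.Prime) (hL5 : ∀ l ∈ L, 5 ≤ l)
    (hLd : ∀ l ∈ L, l ∣ 4 ^ n - 3 ^ n) (Λ : ℝ) (hΛ : ((∏ l ∈ L, l : ℕ) : ℝ) ≤ Real.exp Λ)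
    (hsmall : 8 * Real.exp Λ * n * (1 - 1 / (32768 * Λ)) ^ n ≤ 1) :
    (Nat.centralBinom n : ℝ) / 2 * (9 / 5) ^ L.card ≤
      ∑ w ∈ W (2 * n) n, (Nat.gcd (c w).natAbs (4 ^ n - 3 ^ n) : ℝ) := by
  classical
  have hlt : 3 ^ n < 4 ^ n := Nat.pow_lt_pow_left (by norm_num) (by omega)
  have hDpos : 0 < 4 ^ n - 3 ^ n := by omega
  -- the gcd of one word
  have h1 : ∀ w ∈ W (2 * n) n, ∑ S ∈ L.powerset,
      (if ((∏ l ∈ S, l : ℕ) : ℤ) ∣ c w then (∏ l ∈ S, ((l : ℝ) - 1)) else 0) ≤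
      (Nat.gcd (c w).natAbs (4 ^ n - 3 ^ n) : ℝ) := by
    intro w _
    set B := L.filter fun l : ℕ => (l : ℤ) ∣ c w with hB
    have hBL : B ⊆ L := Finset.filter_subset _ _
    have e1 : (∏ l ∈ B, l) ∣ Nat.gcd (c w).natAbs (4 ^ n - 3 ^ n) := by
      apply Finset.prod_primes_dvd
      · intro l hl; exact (hLp l (hBL hl)).prime
      · intro l hl
        apply Nat.dvd_gcd
        · exact Int.natCast_dvd.1 (Finset.mem_filter.1 hl).2
        · exact hLd l (hBL hl)
    have e2 : (∏ l ∈ B, l) ≤ Nat.gcd (c w).natAbs (4 ^ n - 3 ^ n) :=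
      Nat.le_of_dvd (Nat.gcd_pos_of_pos_right _ hDpos) e1
    have e3 : ((∏ l ∈ B, l : ℕ) : ℝ) ≤ (Nat.gcd (c w).natAbs (4 ^ n - 3 ^ n) : ℝ) := by
      exact_mod_cast e2
    refine le_trans ?_ e3
    have e4 : ((∏ l ∈ B, l : ℕ) : ℝ) = ∑ S ∈ B.powerset, ∏ l ∈ S, ((l : ℝ) - 1) := by
      rw [← Finset.prod_one_add]
      push_cast
      apply Finset.prod_congr rfl
      intro l _
      ring
    rw [e4, ← Finset.sum_filter]
    apply Finset.sum_le_sum_of_subset_of_nonneg
    · intro S hS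
      obtain ⟨hS1, hS2⟩ := Finset.mem_filter.1 hS
      rw [Finset.mem_powerset] at hS1 ⊢
      intro l hl
      rw [hB, Finset.mem_filter]
      refine ⟨hS1 hl, ?_⟩
      refine dvd_trans ?_ hS2
      exact_mod_cast Finset.dvd_prod_of_mem (fun l : ℕ => l) hl
    · intro S hS _
      rw [Finset.mem_powerset] at hS
      apply Finset.prod_nonneg
      intro l hl
      have : (5 : ℝ) ≤ l := by exact_mod_cast hL5 l (hBL (hS hl))
      linarith
  have h2 : ∀ S ∈ L.powerset, (∏ l ∈ S, (((l : ℝ) - 1) / l)) * ((Nat.centralBinom n : ℝ) / 2) ≤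
      (∏ l ∈ S, ((l : ℝ) - 1)) *
      (((W (2 * n) n).filter fun w => ((∏ l ∈ S, l : ℕ) : ℤ) ∣ c w).card : ℝ) := by
    intro S hS
    rw [Finset.mem_powerset] at hS
    set g : ℕ := ∏ l ∈ S, l with hg
    have hgpos : 0 < g := Finset.prod_pos fun l hl => (hLp l (hS hl)).pos
    have hgR : (0 : ℝ) < g := by exact_mod_cast hgpos
    have hcount : (Nat.centralBinom n : ℝ) ≤
        2 * g * (((W (2 * n) n).filter fun w => (g : ℤ) ∣ c w).card : ℝ) := by
      rcases S.eq_empty_or_nonempty with hSe | hSe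
      · have hg1 : g = 1 := by rw [hg, hSe]; simp
        rw [hg1]
        simp only [Nat.cast_one, one_dvd, Finset.filter_true]
        rw [card_W, Nat.centralBinom]
        have : (0 : ℝ) ≤ ((2 * n).choose n : ℝ) := Nat.cast_nonneg _
        linarith
      · obtain ⟨l0, hl0⟩ := hSe
        have hg5 : 5 ≤ g := by
          have h5 := hL5 l0 (hS hl0)
          have := Nat.le_of_dvd hgpos (Finset.dvd_prod_of_mem (fun l : ℕ => l) hl0)
          omega
        have : NeZero g := ⟨by omega⟩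
        have hc2 : Nat.Coprime g 2 := by
          rw [hg]
          apply Nat.Coprime.prod_left
          intro l hl
          have h5 := hL5 l (hS hl)
          rw [Nat.coprime_primes (hLp l (hS hl)) Nat.prime_two]
          omega
        have hc3 : Nat.Coprime g 3 := by
          rw [hg]
          apply Nat.Coprime.prod_left
          intro l hl
          have h5 := hL5 l (hS hl)
          rw [Nat.coprime_primes (hLp l (hS hl)) Nat.prime_three]
          omega
        apply equi g hg5 hc2 hc3 n hn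
        have hgle : (g : ℝ) ≤ Real.exp Λ := by
          refine le_trans ?_ hΛ
          have hdvd : g ∣ ∏ l ∈ L, l := Finset.prod_dvd_prod_of_subset _ _ _ hS
          have := Nat.le_of_dvd (Finset.prod_pos fun l hl => (hLp l hl).pos) hdvd
          exact_mod_cast this
        have hlogg : Real.log g ≤ Λ := by
          rw [Real.log_le_iff_le_exp hgR]; exact hgle
        have hlog1 : 1 ≤ Real.log g := log_five.trans
          (Real.log_le_log (by norm_num) (by exact_mod_cast hg5))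
        have hdl : 1 / (32768 * Λ) ≤ del g := by
          unfold del
          apply one_div_le_one_div_of_le (by linarith)
          linarith
        have hd1 := del_le g hg5
        have hpow : (1 - del g) ^ n ≤ (1 - 1 / (32768 * Λ)) ^ n := by
          apply pow_le_pow_left₀ (by linarith)
          linarith
        have hnn : (0 : ℝ) ≤ (1 - del g) ^ n := by apply pow_nonneg; linarith
        calc 8 * (g : ℝ) * n * (1 - del g) ^ n
            ≤ 8 * Real.exp Λ * n * (1 - 1 / (32768 * Λ)) ^ n := by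
              apply mul_le_mul _ hpow hnn (by positivity)
              apply mul_le_mul_of_nonneg_right _ (Nat.cast_nonneg _)
              linarith
          _ ≤ 1 := hsmall
    have hfac : (∏ l ∈ S, (((l : ℝ) - 1) / l)) = (∏ l ∈ S, ((l : ℝ) - 1)) / g := by
      rw [Finset.prod_div_distrib, hg]
      push_cast
      rfl
    have hnn : 0 ≤ ∏ l ∈ S, ((l : ℝ) - 1) := by
      apply Finset.prod_nonneg
      intro l hl
      have : (5 : ℝ) ≤ l := by exact_mod_cast hL5 l (hS hl)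
      linarith
    rw [hfac, div_mul_eq_mul_div, div_le_iff₀ hgR, mul_assoc]
    apply mul_le_mul_of_nonneg_left _ hnn
    linarith
  have h3 : (9 / 5 : ℝ) ^ L.card ≤ ∏ l ∈ L, (1 + ((l : ℝ) - 1) / l) := by
    rw [← Finset.prod_const]
    apply Finset.prod_le_prod
    · intro _ _; norm_num
    · intro l hl
      have h5 : (5 : ℝ) ≤ l := by exact_mod_cast hL5 l hl
      have : (4 : ℝ) / 5 ≤ ((l : ℝ) - 1) / l := by
        rw [le_div_iff₀ (by linarith)]; linarith
      linarith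
  calc (Nat.centralBinom n : ℝ) / 2 * (9 / 5) ^ L.card
      ≤ (Nat.centralBinom n : ℝ) / 2 * ∏ l ∈ L, (1 + ((l : ℝ) - 1) / l) :=
        mul_le_mul_of_nonneg_left h3 (by positivity)
    _ = ∑ S ∈ L.powerset, (∏ l ∈ S, (((l : ℝ) - 1) / l)) * ((Nat.centralBinom n : ℝ) / 2) := by
        rw [Finset.prod_one_add, Finset.mul_sum]
        apply Finset.sum_congr rfl
        intro S _
        ring
    _ ≤ ∑ S ∈ L.powerset, (∏ l ∈ S, ((l : ℝ) - 1)) *
        (((W (2 * n) n).filter fun w => ((∏ l ∈ S, l : ℕ) : ℤ) ∣ c w).card : ℝ) :=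
        Finset.sum_le_sum h2
    _ = ∑ S ∈ L.powerset, ∑ w ∈ W (2 * n) n,
        (if ((∏ l ∈ S, l : ℕ) : ℤ) ∣ c w then (∏ l ∈ S, ((l : ℝ) - 1)) else 0) := by
        apply Finset.sum_congr rfl
        intro S _
        rw [← Finset.sum_filter, Finset.sum_const, nsmul_eq_mul]
        ring
    _ = ∑ w ∈ W (2 * n) n, ∑ S ∈ L.powerset,
        (if ((∏ l ∈ S, l : ℕ) : ℤ) ∣ c w then (∏ l ∈ S, ((l : ℝ) - 1)) else 0) :=
        Finset.sum_comm
    _ ≤ _ := Finset.sum_le_sum h1

/-- the average number of cycles -/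
theorem average (hn : 1 ≤ n) (K P : ℕ) (hK : 12 * 4 ^ n ≤ K) (hP : 2 * n ≤ P)
    (L : Finset ℕ) (hLp : ∀ l ∈ L, l.Prime) (hL5 : ∀ l ∈ L, 5 ≤ l)
    (hLd : ∀ l ∈ L, l ∣ 4 ^ n - 3 ^ n) (Λ : ℝ) (hΛ : ((∏ l ∈ L, l : ℕ) : ℝ) ≤ Real.exp Λ)
    (hsmall : 8 * Real.exp Λ * n * (1 - 1 / (32768 * Λ)) ^ n ≤ 1) :
    (K : ℝ) * (9 / 5) ^ L.card / (96 * (n : ℝ) ^ 2) ≤
      ∑ k ∈ ks K, ((shortCycles (k : ℤ) P).ncard : ℝ) := by
  have hnR : (0 : ℝ) < n := by exact_mod_cast (show 0 < n by omega)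
  have h1 := gcd_sum hn L hLp hL5 hLd Λ hΛ hsmall
  have h2 := sum_good hn K hK
  have h3 : ∑ k ∈ ks K, ((good n (k : ℤ)).card : ℝ) ≤
      ∑ k ∈ ks K, (2 * n) * ((shortCycles (k : ℤ) P).ncard : ℝ) := by
    apply Finset.sum_le_sum
    intro k hk
    have hk2 : (k : ℤ) % 2 = 1 := by
      unfold ks at hk
      rw [Finset.mem_filter] at hk
      omega
    exact_mod_cast cycles_lower hn (k : ℤ) hk2 P hP
  rw [← Finset.mul_sum] at h3
  have hcb : (4 : ℝ) ^ n ≤ 2 * n * Nat.centralBinom n := by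
    exact_mod_cast Nat.four_pow_le_two_mul_self_mul_centralBinom n (by omega)
  set Tot := ∑ k ∈ ks K, ((shortCycles (k : ℤ) P).ncard : ℝ) with hS
  have h4 : (0 : ℝ) < 4 ^ n := by positivity
  have h5 : (K : ℝ) / (12 * 4 ^ n) * ((Nat.centralBinom n : ℝ) / 2 * (9 / 5) ^ L.card) ≤
      2 * n * Tot := by
    refine le_trans (mul_le_mul_of_nonneg_left h1 (by positivity)) (h2.trans h3)
  rw [div_le_iff₀ (by positivity)]
  have h6 : (K : ℝ) * (9 / 5) ^ L.card ≤
      (K : ℝ) / (12 * 4 ^ n) * ((Nat.centralBinom n : ℝ) / 2 * (9 / 5) ^ L.card) * (48 * n) := by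
    have e : (K : ℝ) / (12 * 4 ^ n) * ((Nat.centralBinom n : ℝ) / 2 * (9 / 5) ^ L.card) * (48 * n) =
        (K : ℝ) * (9 / 5) ^ L.card * ((2 * n * Nat.centralBinom n) / 4 ^ n) := by
      field_simp
      ring
    rw [e]
    apply le_mul_of_one_le_right (by positivity)
    rw [le_div_iff₀ h4]
    linarith
  refine h6.trans ?_
  have h7 := mul_le_mul_of_nonneg_right h5 (show (0 : ℝ) ≤ 48 * n by positivity)
  refine h7.trans (le_of_eq ?_)
  ring

end

end Pool.Agent.H621.Avg
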