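import Mathlib

set_option autoImplicit false

/-!
# Primitive prime divisors of `4^d - 3^d`

Only the `d` whose prime factors are large compared with their number are needed.
-/

namespace Pool.Agent.H621.Avg

/-- the number `4^d - 3^d` -/
def D (d : ℕ) : ℕ := 4 ^ d - 3 ^ d

theorem D_lower (d : ℕ) (hd : 1 ≤ d) : 4 ^ (d - 1) ≤ D d := by
  unfold D
  obtain ⟨e, rfl⟩ : ∃ e, d = e + 1 := ⟨d - 1, by omega⟩
  have h1 : 3 ^ e ≤ 4 ^ e := Nat.pow_le_pow_left (by norm_num) e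
  rw [Nat.add_sub_cancel, pow_succ, pow_succ]
  omega

theorem D_le (d : ℕ) : D d ≤ 4 ^ d := Nat.sub_le _ _

theorem D_pos (d : ℕ) (hd : 1 ≤ d) : 0 < D d :=
  lt_of_lt_of_le (by positivity) (D_lower d hd)

theorem D_not_two_three (d : ℕ) (hd : 1 ≤ d) : ¬ 2 ∣ D d ∧ ¬ 3 ∣ D d := by
  have h3 : 3 ^ d % 2 = 1 := by
    rw [Nat.pow_mod]; norm_num
  have h4 : 4 ^ d % 3 = 1 := by
    rw [Nat.pow_mod]; norm_num
  have h5 : 3 ^ d % 3 = 0 := Nat.mod_eq_zero_of_dvd (dvd_pow_self 3 (by omega))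
  have h6 : 4 ^ d % 2 = 0 := Nat.mod_eq_zero_of_dvd ((by norm_num : 2 ∣ 4).trans
    (dvd_pow_self 4 (by omega)))
  have h7 : 3 ^ d ≤ 4 ^ d := Nat.pow_le_pow_left (by norm_num) d
  unfold D
  omega

theorem D_dvd {d e : ℕ} (h : d ∣ e) : D d ∣ D e := by
  obtain ⟨f, rfl⟩ := h
  unfold D
  rw [pow_mul, pow_mul]
  exact Nat.sub_dvd_pow_sub_pow _ _ f

/-- a primitive prime divisor exists if the primes dividing `d` are large compared with their
number -/
theorem exists_prim (d Q r : ℕ) (hr : 1 ≤ r) (hQ : d.primeFactors ⊆ Q.primeFactors) (hQ0 : Q ≠ 0)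
    (hcard : d.primeFactors.card ≤ r) (hbig : ∀ q ∈ d.primeFactors, 2 * r ≤ q)
    (hd : 2 * Q + 4 ≤ d) :
    ∃ l : ℕ, l.Prime ∧ l ∣ D d ∧ ∀ q ∈ d.primeFactors, ¬ l ∣ D (d / q) := by
  by_contra hcon
  push Not at hcon
  have hd1 : 1 ≤ d := by omega
  have hDd := D_pos d hd1
  have hq1 : ∀ q ∈ d.primeFactors, q.Prime ∧ q ∣ d ∧ 1 ≤ d / q := by
    intro q hq
    have hp := Nat.prime_of_mem_primeFactors hq
    have hdv := Nat.dvd_of_mem_primeFactors hq
    exact ⟨hp, hdv, Nat.div_pos (Nat.le_of_dvd (by omega) hdv) hp.pos⟩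
  set R : ℕ := ∏ q ∈ d.primeFactors, (q * D (d / q)) with hR
  have hRpos : 0 < R := by
    apply Finset.prod_pos
    intro q hq
    obtain ⟨hp, hdv, h1⟩ := hq1 q hq
    exact Nat.mul_pos hp.pos (D_pos _ h1)
  have hdvd : D d ∣ R := by
    rw [← Nat.factorization_prime_le_iff_dvd hDd.ne' hRpos.ne']
    intro l hl
    by_cases hld : l ∣ D d
    · obtain ⟨q, hq, hlq⟩ := hcon l hl hld
      obtain ⟨hp, hdv, h1⟩ := hq1 q hq
      have hDq := D_pos (d / q) h1
      have hl2 : l ≠ 2 := by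
        rintro rfl
        exact (D_not_two_three d hd1).1 hld
      have hodd : Odd l := hl.odd_of_ne_two hl2
      have : Fact l.Prime := ⟨hl⟩
      have hlt : 3 ^ (d / q) < 4 ^ (d / q) := Nat.pow_lt_pow_left (by norm_num) (by omega)
      have h4 : ¬ l ∣ 4 ^ (d / q) := by
        intro h
        have h2 : l ∣ 4 := hl.dvd_of_dvd_pow h
        have h3 : l ∣ 2 ^ 2 := h2
        have h5 := (Nat.prime_dvd_prime_iff_eq hl Nat.prime_two).1 (hl.dvd_of_dvd_pow h3)
        exact hl2 h5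
      have hlte := padicValNat.pow_sub_pow (p := l) hodd hlt hlq h4 (n := q) hp.ne_zero
      have e1 : (4 ^ (d / q)) ^ q - (3 ^ (d / q)) ^ q = D d := by
        rw [← pow_mul, ← pow_mul, Nat.div_mul_cancel hdv]; rfl
      rw [e1] at hlte
      have e2 : (D d).factorization l = (q * D (d / q)).factorization l := by
        rw [Nat.factorization_def _ hl, Nat.factorization_def _ hl, hlte,
          padicValNat.mul hp.ne_zero hDq.ne']
        unfold D
        ring
      rw [e2]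
      have hdR : q * D (d / q) ∣ R := Finset.dvd_prod_of_mem (fun q => q * D (d / q)) hq
      have hmul : q * D (d / q) ≠ 0 := (Nat.mul_pos hp.pos hDq).ne'
      exact (Nat.factorization_le_iff_dvd hmul hRpos.ne').2 hdR l
    · rw [Nat.factorization_eq_zero_of_not_dvd hld]
      exact Nat.zero_le _
  have hle := Nat.le_of_dvd hRpos hdvd
  -- size of `R`
  have hR1 : R ≤ Q * 4 ^ (∑ q ∈ d.primeFactors, d / q) := by
    rw [hR, Finset.prod_mul_distrib, ← Finset.prod_pow_eq_pow_sum]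
    apply Nat.mul_le_mul
    · have h1 : ∏ q ∈ d.primeFactors, q ∣ ∏ q ∈ Q.primeFactors, q :=
        Finset.prod_dvd_prod_of_subset _ _ _ hQ
      exact Nat.le_of_dvd (Nat.pos_of_ne_zero hQ0) (h1.trans (Nat.prod_primeFactors_dvd Q))
    · apply Finset.prod_le_prod'
      intro q _
      exact D_le _
  have hsum : 2 * ∑ q ∈ d.primeFactors, d / q ≤ d := by
    have h1 : ∑ q ∈ d.primeFactors, d / q ≤ ∑ _q ∈ d.primeFactors, d / (2 * r) := by
      apply Finset.sum_le_sum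
      intro q hq
      exact Nat.div_le_div_left (hbig q hq) (by omega)
    rw [Finset.sum_const, smul_eq_mul] at h1
    have h2 : d.primeFactors.card * (d / (2 * r)) ≤ r * (d / (2 * r)) :=
      Nat.mul_le_mul_right _ hcard
    have h3 : (2 * r) * (d / (2 * r)) ≤ d := Nat.mul_div_le d (2 * r)
    have h4 : 2 * (r * (d / (2 * r))) = (2 * r) * (d / (2 * r)) := by ring
    omega
  have hlow := D_lower d hd1
  set s := ∑ q ∈ d.primeFactors, d / q with hs
  have h5 : 4 ^ (d - 1) ≤ Q * 4 ^ s := hlow.trans (hle.trans hR1)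
  have h6 : Q < 4 ^ (Q + 1) := by
    have h7 : Q + 1 < 4 ^ (Q + 1) := Nat.lt_pow_self (by norm_num)
    omega
  have h8 : Q * 4 ^ s < 4 ^ (Q + 1) * 4 ^ s := Nat.mul_lt_mul_of_pos_right h6 (by positivity)
  rw [← pow_add] at h8
  have h9 : 4 ^ (d - 1) < 4 ^ (Q + 1 + s) := lt_of_le_of_lt h5 h8
  have h10 := (Nat.pow_lt_pow_iff_right (by norm_num : 1 < 4)).1 h9
  omega

/-- the order of `4 / 3` modulo a primitive prime divisor -/
theorem prim_unique (l d e : ℕ) (hl : l.Prime) (hd : 1 ≤ d) (he : 1 ≤ e) (h1 : l ∣ D d)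
    (h2 : ∀ q ∈ d.primeFactors, ¬ l ∣ D (d / q)) (h3 : l ∣ D e)
    (h4 : ∀ q ∈ e.primeFactors, ¬ l ∣ D (e / q)) : d = e := by
  have : Fact l.Prime := ⟨hl⟩
  have h3' : (3 : ZMod l) ≠ 0 := by
    intro h
    have : ((3 : ℕ) : ZMod l) = 0 := by exact_mod_cast h
    rw [ZMod.natCast_eq_zero_iff] at this
    have := (Nat.prime_dvd_prime_iff_eq hl Nat.prime_three).1 this
    rw [this] at h1
    exact (D_not_two_three d hd).2 h1
  have key : ∀ m : ℕ, l ∣ D m ↔ ((4 : ZMod l) / 3) ^ m = 1 := by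
    intro m
    have hle : 3 ^ m ≤ 4 ^ m := Nat.pow_le_pow_left (by norm_num) m
    rw [← ZMod.natCast_eq_zero_iff]
    unfold D
    rw [Nat.cast_sub hle, sub_eq_zero, div_pow, div_eq_one_iff_eq (pow_ne_zero _ h3')]
    push_cast
    rfl
  have ord : ∀ m : ℕ, 1 ≤ m → l ∣ D m → (∀ q ∈ m.primeFactors, ¬ l ∣ D (m / q)) →
      orderOf ((4 : ZMod l) / 3) = m := by
    intro m hm hlm hq
    apply orderOf_eq_of_pow_and_pow_div_prime (by omega) ((key m).1 hlm)
    intro q hqp hqm hcon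
    exact hq q (Nat.mem_primeFactors.2 ⟨hqp, hqm, by omega⟩) ((key _).2 hcon)
  rw [← ord d hd h1 h2, ← ord e he h3 h4]

/-- many primes dividing `4^m - 3^m`, `m = Q^s` -/
theorem many_primes (r Q s : ℕ) (hr : 1 ≤ r) (hQ0 : Q ≠ 0) (hQr : Q.primeFactors.card = r)
    (hbig : ∀ q ∈ Q.primeFactors, 2 * r ≤ q) (hs : 1 ≤ s) :
    ∃ L : Finset ℕ, (∀ l ∈ L, l.Prime) ∧ (∀ l ∈ L, 5 ≤ l) ∧ (∀ l ∈ L, l ∣ D (Q ^ s)) ∧
      (s + 1) ^ r ≤ L.card + (2 * Q + 4) := by
  classical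
  have hQs : Q ^ s ≠ 0 := pow_ne_zero _ hQ0
  have hex : ∀ d : ℕ, ∃ l : ℕ, d ∣ Q ^ s → 2 * Q + 4 ≤ d →
      (l.Prime ∧ l ∣ D d ∧ ∀ q ∈ d.primeFactors, ¬ l ∣ D (d / q)) := by
    intro d
    by_cases h : d ∣ Q ^ s ∧ 2 * Q + 4 ≤ d
    · have hsub : d.primeFactors ⊆ Q.primeFactors := by
        rw [← Nat.primeFactors_pow Q (show s ≠ 0 by omega)]
        exact Nat.primeFactors_mono h.1 hQs
      obtain ⟨l, hl⟩ := exists_prim d Q r hr hsub hQ0
        ((Finset.card_le_card hsub).trans hQr.le) (fun q hq => hbig q (hsub hq)) h.2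
      exact ⟨l, fun _ _ => hl⟩
    · exact ⟨0, fun h1 h2 => absurd ⟨h1, h2⟩ h⟩
  choose f hf using hex
  set E := (Q ^ s).divisors.filter fun d => 2 * Q + 4 ≤ d with hE
  have hEm : ∀ d ∈ E, d ∣ Q ^ s ∧ 2 * Q + 4 ≤ d := by
    intro d hd
    rw [hE, Finset.mem_filter, Nat.mem_divisors] at hd
    exact ⟨hd.1.1, hd.2⟩
  have hinj : Set.InjOn f (E : Set ℕ) := by
    intro d hd e he h
    obtain ⟨d1, d2⟩ := hEm d hd
    obtain ⟨e1, e2⟩ := hEm e he
    obtain ⟨a1, a2, a3⟩ := hf d d1 d2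
    obtain ⟨b1, b2, b3⟩ := hf e e1 e2
    rw [← h] at b2 b3
    exact prim_unique (f d) d e a1 (by omega) (by omega) a2 a3 b2 b3
  refine ⟨E.image f, ?_, ?_, ?_, ?_⟩
  · intro l hl
    obtain ⟨d, hd, rfl⟩ := Finset.mem_image.1 hl
    exact (hf d (hEm d hd).1 (hEm d hd).2).1
  · intro l hl
    obtain ⟨d, hd, rfl⟩ := Finset.mem_image.1 hl
    obtain ⟨d1, d2⟩ := hEm d hd
    obtain ⟨a1, a2, _⟩ := hf d d1 d2
    obtain ⟨c1, c2⟩ := D_not_two_three d (by omega)
    have h2 := a1.two_le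
    by_contra hcon
    have : f d = 2 ∨ f d = 3 ∨ f d = 4 := by omega
    rcases this with h | h | h
    · rw [h] at a2; exact c1 a2
    · rw [h] at a2; exact c2 a2
    · rw [h] at a1; exact absurd a1 (by norm_num)
  · intro l hl
    obtain ⟨d, hd, rfl⟩ := Finset.mem_image.1 hl
    obtain ⟨d1, d2⟩ := hEm d hd
    exact (hf d d1 d2).2.1.trans (D_dvd d1)
  · rw [Finset.card_image_of_injOn hinj]
    have h1 : (s + 1) ^ r ≤ (Q ^ s).divisors.card := by
      rw [Nat.card_divisors hQs, Nat.primeFactors_pow Q (show s ≠ 0 by omega), ← hQr,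
        ← Finset.prod_const]
      apply Finset.prod_le_prod'
      intro q hq
      rw [Nat.factorization_pow]
      have hp := Nat.prime_of_mem_primeFactors hq
      have : 1 ≤ Q.factorization q :=
        (hp.dvd_iff_one_le_factorization hQ0).1 (Nat.dvd_of_mem_primeFactors hq)
      simp only [Finsupp.smul_apply, smul_eq_mul]
      nlinarith
    have h2 : (Q ^ s).divisors.card = E.card +
        ((Q ^ s).divisors.filter fun d => ¬ 2 * Q + 4 ≤ d).card := by
      rw [hE]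
      exact (Finset.card_filter_add_card_filter_not _).symm
    have h3 : ((Q ^ s).divisors.filter fun d => ¬ 2 * Q + 4 ≤ d).card ≤ 2 * Q + 4 := by
      calc _ ≤ (Finset.range (2 * Q + 4)).card := by
            apply Finset.card_le_card
            intro d hd
            rw [Finset.mem_filter] at hd
            rw [Finset.mem_range]; omega
        _ = _ := Finset.card_range _
    omega

/-- there are `r` primes which are at least `2 r` -/
theorem exists_Q (r : ℕ) : ∃ Q : ℕ, Q ≠ 0 ∧ Q.primeFactors.card = r ∧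
    ∀ q ∈ Q.primeFactors, 2 * r ≤ q := by
  have hinf : {q : ℕ | q.Prime ∧ 2 * r ≤ q}.Infinite := by
    apply Set.infinite_of_not_bddAbove
    rintro ⟨B, hB⟩
    obtain ⟨p, hp1, hp2⟩ := Nat.exists_infinite_primes (max (B + 1) (2 * r))
    have : p ≤ B := hB ⟨hp2, (le_max_right _ _).trans hp1⟩
    have : B + 1 ≤ p := (le_max_left _ _).trans hp1
    omega
  obtain ⟨F, hF, hFr⟩ := hinf.exists_subset_card_eq r
  refine ⟨∏ q ∈ F, q, ?_, ?_, ?_⟩
  · exact Finset.prod_ne_zero_iff.2 fun q hq => (hF hq).1.ne_zero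
  · rw [Nat.primeFactors_prod fun q hq => (hF hq).1]
    exact hFr
  · intro q hq
    rw [Nat.primeFactors_prod fun q hq => (hF hq).1] at hq
    exact (hF hq).2

end Pool.Agent.H621.Avg
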