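import Mathlib
import Pool.Agent.H621.Avg.Cycles
import Pool.Agent.H621.Avg.Prim

set_option autoImplicit false

/-!
# The average number of short cycles of the `3x+k` maps
-/

namespace Pool.Agent.H621.Avg

open Pool.Agent.H621.Osc (T IsCycle)

theorem log_four_lt : Real.log 4 < 1.4 := by
  have h : Real.log 4 = 2 * Real.log 2 := by
    rw [show (4 : ℝ) = 2 ^ 2 by norm_num, Real.log_pow]; norm_num
  rw [h]
  have := Real.log_two_lt_d9
  linarith

/-- the smallness condition -/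
theorem small_cond (M n : ℕ) (hM : 1 ≤ M) (hMn : M ^ 3 ≤ 2 * n) (hn : 10 ^ 19 ≤ n) :
    8 * Real.exp (M * Real.log 4) * n * (1 - 1 / (32768 * (M * Real.log 4))) ^ n ≤ 1 := by
  have hl4 : 0 < Real.log 4 := Real.log_pos (by norm_num)
  have hl4' := log_four_lt
  have hMR : (1 : ℝ) ≤ M := by exact_mod_cast hM
  have hnR : (10 : ℝ) ^ 19 ≤ n := by exact_mod_cast hn
  have hn0 : (0 : ℝ) < n := by linarith [show (0 : ℝ) < 10 ^ 19 by norm_num]
  set y : ℝ := (n : ℝ) ^ (1 / 3 : ℝ) with hy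
  have hy0 : 0 < y := Real.rpow_pos_of_pos hn0 _
  have hy3 : y ^ 3 = n := by
    rw [hy, ← Real.rpow_natCast, ← Real.rpow_mul hn0.le]
    norm_num
  have hybig : (2 * 10 ^ 6 : ℝ) ≤ y := by
    by_contra hcon
    push Not at hcon
    have : y ^ 3 < (2 * 10 ^ 6 : ℝ) ^ 3 := pow_lt_pow_left₀ hcon hy0.le (by norm_num)
    rw [hy3] at this
    have h2 : (2 * 10 ^ 6 : ℝ) ^ 3 ≤ 10 ^ 19 := by norm_num
    linarith
  have hMy : (M : ℝ) ≤ 2 * y := by
    by_contra hcon
    push Not at hcon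
    have h1 : (2 * y) ^ 3 < (M : ℝ) ^ 3 := pow_lt_pow_left₀ hcon (by positivity) (by norm_num)
    have h2 : (M : ℝ) ^ 3 ≤ 2 * n := by exact_mod_cast hMn
    rw [mul_pow, hy3] at h1
    linarith
  have hlogn : Real.log n ≤ 3 * y := by
    rw [← hy3, Real.log_pow]
    have := Real.log_le_sub_one_of_pos hy0
    push_cast
    linarith
  set x : ℝ := 1 / (32768 * (M * Real.log 4)) with hx
  have hx0 : 0 < x := by positivity
  have hx1 : x ≤ 1 := by
    rw [hx, div_le_one (by positivity)]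
    have : (1 : ℝ) ≤ Real.log 4 := by
      have h4 : Real.log 4 = 2 * Real.log 2 := by
        rw [show (4 : ℝ) = 2 ^ 2 by norm_num, Real.log_pow]; norm_num
      have := Real.log_two_gt_d9
      linarith
    nlinarith
  have h1 : (1 - x) ^ n ≤ Real.exp (-(x * n)) := by
    have h2 : 1 - x ≤ Real.exp (-x) := by
      have := Real.add_one_le_exp (-x)
      linarith
    calc (1 - x) ^ n ≤ (Real.exp (-x)) ^ n := pow_le_pow_left₀ (by linarith) h2 n
      _ = Real.exp (-(x * n)) := by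
        rw [← Real.exp_nat_mul]; congr 1; ring
  have h8 : (8 : ℝ) ≤ Real.exp 3 := by
    have h9 := Real.add_one_le_exp (1 : ℝ)
    have h10 : Real.exp 3 = Real.exp 1 ^ 3 := by
      rw [← Real.exp_nat_mul]; norm_num
    rw [h10]
    calc (8 : ℝ) = 2 ^ 3 := by norm_num
      _ ≤ Real.exp 1 ^ 3 := pow_le_pow_left₀ (by norm_num) (by linarith) 3
  have hnexp : (n : ℝ) = Real.exp (Real.log n) := (Real.exp_log hn0).symm
  have hexpo : 3 + M * Real.log 4 + Real.log n - x * n ≤ 0 := by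
    have h3 : 3 + M * Real.log 4 + Real.log n ≤ 3 + 3 * y + 3 * y := by nlinarith
    have h4 : (n : ℝ) / (100000 * y) ≤ x * n := by
      rw [hx, div_mul_eq_mul_div, one_mul]
      apply div_le_div_of_nonneg_left hn0.le (by positivity)
      have : (M : ℝ) * Real.log 4 ≤ 2 * y * 1.4 := by
        apply mul_le_mul hMy hl4'.le hl4.le (by positivity)
      nlinarith
    have h5 : (n : ℝ) / (100000 * y) = y ^ 2 / 100000 := by
      rw [← hy3]; field_simp
    rw [h5] at h4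
    nlinarith
  calc 8 * Real.exp (M * Real.log 4) * n * (1 - x) ^ n
      ≤ Real.exp 3 * Real.exp (M * Real.log 4) * Real.exp (Real.log n) *
        Real.exp (-(x * n)) := by
        have e1 : 8 * Real.exp (M * Real.log 4) * n ≤
            Real.exp 3 * Real.exp (M * Real.log 4) * Real.exp (Real.log n) := by
          rw [← hnexp]
          apply mul_le_mul_of_nonneg_right _ hn0.le
          exact mul_le_mul_of_nonneg_right h8 (Real.exp_pos _).le
        apply mul_le_mul e1 h1 (by apply pow_nonneg; linarith) (by positivity)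
    _ = Real.exp (3 + M * Real.log 4 + Real.log n - x * n) := by
        rw [← Real.exp_add, ← Real.exp_add, ← Real.exp_add]; congr 1
    _ ≤ 1 := by
        rw [← Real.exp_zero]; exact Real.exp_le_exp.2 hexpo

theorem fin1 (x A : ℝ) (n P Lc : ℕ) (hPR : (0 : ℝ) < P) (hx : x = Real.log P) (hnP : n ≤ P)
    (hkey : x ^ A + 2 * x + 5 ≤ (Lc : ℝ) / 2) :
    Real.exp (x ^ A) * (96 * (n : ℝ) ^ 2) ≤ (9 / 5) ^ Lc := by
  have h95 : Real.exp ((Lc : ℝ) / 2) ≤ (9 / 5) ^ Lc := by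
    have h1 : Real.exp (1 / 2) ≤ 9 / 5 := by
      have h2 : Real.exp (1 / 2) ^ 2 = Real.exp 1 := by
        rw [← Real.exp_nat_mul]; norm_num
      have h3 := Real.exp_one_lt_d9
      have h4 := Real.exp_pos (1 / 2)
      nlinarith
    calc Real.exp ((Lc : ℝ) / 2) = Real.exp (1 / 2) ^ Lc := by
          rw [← Real.exp_nat_mul]; congr 1; ring
      _ ≤ (9 / 5) ^ Lc := pow_le_pow_left₀ (Real.exp_pos _).le h1 _
  have h96 : (96 : ℝ) ≤ Real.exp 5 := by
    have h10 : Real.exp 5 = Real.exp 1 ^ 5 := by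
      rw [← Real.exp_nat_mul]; norm_num
    have h3 := Real.exp_one_gt_d9
    rw [h10]
    calc (96 : ℝ) ≤ 2.7 ^ 5 := by norm_num
      _ ≤ Real.exp 1 ^ 5 := pow_le_pow_left₀ (by norm_num) (by linarith) 5
  have hnPR : (n : ℝ) ≤ P := by exact_mod_cast hnP
  have hn2P : (n : ℝ) ^ 2 ≤ Real.exp (2 * x) := by
    have : Real.exp (2 * x) = (P : ℝ) ^ 2 := by
      rw [hx, two_mul, Real.exp_add, Real.exp_log hPR]; ring
    rw [this]
    exact pow_le_pow_left₀ (Nat.cast_nonneg _) hnPR 2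
  calc Real.exp (x ^ A) * (96 * (n : ℝ) ^ 2)
      ≤ Real.exp (x ^ A) * (Real.exp 5 * Real.exp (2 * x)) := by
        apply mul_le_mul_of_nonneg_left _ (Real.exp_pos _).le
        exact mul_le_mul h96 hn2P (by positivity) (Real.exp_pos _).le
    _ = Real.exp (x ^ A + 2 * x + 5) := by
        rw [← Real.exp_add, ← Real.exp_add]; congr 1; ring
    _ ≤ Real.exp ((Lc : ℝ) / 2) := Real.exp_le_exp.2 hkey
    _ ≤ _ := h95

theorem main (A : ℝ) : ∃ P₀ : ℕ, ∀ P K : ℕ, P₀ ≤ P → 16 * 2 ^ P ≤ K →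
    (K : ℝ) * Real.exp (Real.log P ^ A) ≤ ∑ k ∈ ks K, ((shortCycles (k : ℤ) P).ncard : ℝ) := by
  set r : ℕ := ⌈|A|⌉₊ + 2 with hr
  obtain ⟨Q, hQ0, hQr, hbig⟩ := exists_Q r
  have hr2 : 2 ≤ r := by omega
  have hQ2 : 2 ≤ Q := by
    have h1 : Q.primeFactors.Nonempty := by
      rw [← Finset.card_pos, hQr]; omega
    obtain ⟨q, hq⟩ := h1
    exact (Nat.prime_of_mem_primeFactors hq).two_le.trans
      (Nat.le_of_dvd (Nat.pos_of_ne_zero hQ0) (Nat.dvd_of_mem_primeFactors hq))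
  have hQR : (2 : ℝ) ≤ Q := by exact_mod_cast hQ2
  have hlQ : 0 < Real.log Q := Real.log_pos (by linarith)
  set c1 : ℝ := 6 * Real.log Q with hc1
  have hc10 : 0 < c1 := by positivity
  set c0 : ℝ := 2 * Q + 4 with hc0
  have hc00 : 0 ≤ c0 := by positivity
  set x0 : ℝ := max 1 (2 * c1 ^ r * (8 + c0)) with hx0
  refine ⟨max (max (⌈Real.exp x0⌉₊) (10 ^ 20)) (4 * Q ^ 3 + 4), ?_⟩
  intro P K hP hK
  have hP1 : ⌈Real.exp x0⌉₊ ≤ P := (le_max_left _ _).trans ((le_max_left _ _).trans hP)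
  have hP2 : 10 ^ 20 ≤ P := (le_max_right _ _).trans ((le_max_left _ _).trans hP)
  have hP3 : 4 * Q ^ 3 + 4 ≤ P := (le_max_right _ _).trans hP
  set N := P / 2 with hN
  have hN1 : Q ^ 3 ≤ N := by omega
  have hN2 : 10 ^ 19 * 5 ≤ N := by omega
  set s := Nat.log Q N / 3 with hs
  have hlog3 : 3 ≤ Nat.log Q N := by
    apply Nat.le_log_of_pow_le (by omega) hN1
  have hs1 : 1 ≤ s := by omega
  set M := Q ^ s with hM
  have hMpos : 1 ≤ M := Nat.one_le_pow _ _ (by omega)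
  have hM2 : 2 ≤ M := by
    calc 2 ≤ Q := hQ2
      _ = Q ^ 1 := (pow_one Q).symm
      _ ≤ Q ^ s := Nat.pow_le_pow_right (by omega) hs1
  have hM3 : M ^ 3 ≤ N := by
    rw [hM, ← pow_mul]
    calc Q ^ (s * 3) ≤ Q ^ Nat.log Q N := Nat.pow_le_pow_right (by omega) (by omega)
      _ ≤ N := Nat.pow_log_le_self Q (by omega)
  set n := M * (N / M) with hn
  have hnN : n ≤ N := Nat.mul_div_le N M
  have hnlow : N < n + M := by
    have := Nat.lt_mul_div_succ N (show 0 < M by omega)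
    rw [hn]
    rw [Nat.mul_succ] at this
    exact this
  have h4M : 4 * M ≤ M ^ 3 := by
    have : M ^ 3 = M * M * M := by ring
    rw [this]
    have h4 : 4 ≤ M * M := Nat.mul_le_mul hM2 hM2
    exact Nat.mul_le_mul_right _ h4
  have hn2 : N ≤ 2 * n := by omega
  have hn19 : 10 ^ 19 ≤ n := by omega
  have hn1 : 1 ≤ n := by omega
  obtain ⟨L, hLp, hL5, hLd, hLcard⟩ := many_primes r Q s (by omega) hQ0 hQr hbig hs1
  have hMdn : M ∣ n := ⟨N / M, rfl⟩
  have hLd' : ∀ l ∈ L, l ∣ 4 ^ n - 3 ^ n := fun l hl => (hLd l hl).trans (D_dvd hMdn)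
  have hprod : ((∏ l ∈ L, l : ℕ) : ℝ) ≤ Real.exp (M * Real.log 4) := by
    have h1 : (∏ l ∈ L, l) ∣ D M := Finset.prod_primes_dvd _
      (fun l hl => (hLp l hl).prime) (fun l hl => hLd l hl)
    have h2 : (∏ l ∈ L, l) ≤ 4 ^ M := (Nat.le_of_dvd (D_pos M hMpos) h1).trans (D_le M)
    have h3 : Real.exp (M * Real.log 4) = 4 ^ M := by
      rw [Real.exp_nat_mul, Real.exp_log (by norm_num)]
    rw [h3]
    exact_mod_cast h2
  have hsmall := small_cond M n hMpos (hM3.trans hn2) hn19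
  have hK' : 12 * 4 ^ n ≤ K := by
    have h1 : 4 ^ n ≤ 2 ^ P := by
      rw [show (4 : ℕ) = 2 ^ 2 by norm_num, ← pow_mul]
      exact Nat.pow_le_pow_right (by norm_num) (by omega)
    omega
  have hav := average hn1 K P hK' (by omega) L hLp hL5 hLd' (M * Real.log 4) hprod hsmall
  refine le_trans ?_ hav
  have hK0 : (0 : ℝ) ≤ K := Nat.cast_nonneg _
  have hnR : (0 : ℝ) < n := by exact_mod_cast (show 0 < n by omega)
  rw [mul_div_assoc]
  apply mul_le_mul_of_nonneg_left _ hK0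
  rw [le_div_iff₀ (by positivity)]
  -- real inequalities
  have hPR : (0 : ℝ) < P := by exact_mod_cast (show 0 < P by omega)
  set x := Real.log P with hx
  have hxx0 : x0 ≤ x := by
    rw [hx, Real.le_log_iff_exp_le hPR]
    exact (Nat.le_ceil _).trans (by exact_mod_cast hP1)
  have hx1 : 1 ≤ x := (le_max_left _ _).trans hxx0
  have hx2 : 2 * c1 ^ r * (8 + c0) ≤ x := (le_max_right _ _).trans hxx0
  -- `s + 1` is large
  have hs2 : x / c1 ≤ (s : ℝ) + 1 := by
    have h1 : N < Q ^ (3 * (s + 1)) := by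
      have h0 : (Nat.log Q N).succ ≤ 3 * (s + 1) := by
        have := Nat.lt_mul_div_succ (Nat.log Q N) (show 0 < 3 by norm_num)
        rw [← hs] at this
        exact this
      have h1' : 1 < Q := hQ2
      exact (Nat.lt_pow_succ_log_self h1' N).trans_le (Nat.pow_le_pow_right (by omega) h0)
    have h2 : P ≤ N ^ 2 := by
      have h3 : P ≤ 2 * N + 1 := by omega
      have h4 : 3 ≤ N := by omega
      nlinarith
    have h4 : (P : ℝ) ≤ ((Q : ℝ) ^ (3 * (s + 1))) ^ 2 := by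
      have h5 : (N : ℝ) ≤ (Q : ℝ) ^ (3 * (s + 1)) := by exact_mod_cast h1.le
      have h6 : (P : ℝ) ≤ (N : ℝ) ^ 2 := by exact_mod_cast h2
      exact h6.trans (pow_le_pow_left₀ (Nat.cast_nonneg _) h5 2)
    have h7 : x ≤ 2 * ((3 * (s + 1) : ℕ) * Real.log Q) := by
      rw [hx]
      refine (Real.log_le_log hPR h4).trans (le_of_eq ?_)
      rw [Real.log_pow, Real.log_pow]
      push_cast
      rfl
    rw [div_le_iff₀ hc10, hc1]
    push_cast at h7
    linarith
  have hLc : (x / c1) ^ r - c0 ≤ L.card := by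
    have h1 : (x / c1) ^ r ≤ ((s : ℝ) + 1) ^ r := pow_le_pow_left₀ (by positivity) hs2 r
    have h2 : ((s : ℝ) + 1) ^ r ≤ (L.card : ℝ) + (2 * Q + 4) := by exact_mod_cast hLcard
    rw [hc0]; linarith
  have hxr : x ^ A ≤ x ^ (r - 1) := by
    rw [← Real.rpow_natCast]
    apply Real.rpow_le_rpow_of_exponent_le hx1
    have h1 : A ≤ |A| := le_abs_self A
    have h2 : |A| ≤ (⌈|A|⌉₊ : ℝ) := Nat.le_ceil _
    have h3 : ((r - 1 : ℕ) : ℝ) = (⌈|A|⌉₊ : ℝ) + 1 := by
      rw [hr]; push_cast [show ⌈|A|⌉₊ + 2 - 1 = ⌈|A|⌉₊ + 1 by omega]; ring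
    rw [h3]; linarith
  have hxr1 : x ≤ x ^ (r - 1) := by
    calc x = x ^ 1 := (pow_one x).symm
      _ ≤ x ^ (r - 1) := pow_le_pow_right₀ hx1 (by omega)
  have hxr0 : 1 ≤ x ^ (r - 1) := one_le_pow₀ hx1
  have hxrr : x ^ r = x * x ^ (r - 1) := by
    have hr1 : r = (r - 1) + 1 := by omega
    conv_lhs => rw [hr1]
    rw [pow_succ']
  have hkey : x ^ A + 2 * x + 5 ≤ (L.card : ℝ) / 2 := by
    have h1 : (x ^ A + 2 * x + 5) * 2 + c0 ≤ (x / c1) ^ r := by
      rw [div_pow, le_div_iff₀ (by positivity), hxrr]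
      have h2 : (x ^ A + 2 * x + 5) * 2 + c0 ≤ 2 * (8 + c0) * x ^ (r - 1) := by nlinarith
      calc ((x ^ A + 2 * x + 5) * 2 + c0) * c1 ^ r
          ≤ (2 * (8 + c0) * x ^ (r - 1)) * c1 ^ r :=
            mul_le_mul_of_nonneg_right h2 (by positivity)
        _ = (2 * c1 ^ r * (8 + c0)) * x ^ (r - 1) := by ring
        _ ≤ x * x ^ (r - 1) := mul_le_mul_of_nonneg_right hx2 (by positivity)
    linarith
  exact fin1 x A n P L.card hPR hx (by omega) hkey

theorem shortCycles_mono (k : ℤ) (hk : k % 2 = 1) (P P' : ℕ) (h : P ≤ P') :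
    (shortCycles k P).ncard ≤ (shortCycles k P').ncard :=
  Set.ncard_le_ncard (fun _ hZ => ⟨hZ.1, hZ.2.trans h⟩) (shortCycles_finite k hk P')

theorem main_log (A : ℝ) : ∃ K₀ : ℕ, ∀ K : ℕ, K₀ ≤ K →
    (K : ℝ) * Real.exp (Real.log (Real.log K) ^ A) ≤
      ∑ k ∈ ks K, ((shortCycles (k : ℤ) (Nat.log 2 K)).ncard : ℝ) := by
  obtain ⟨P₀, hP₀⟩ := main |A|
  refine ⟨2 ^ (P₀ + 4) + ⌈Real.exp 20⌉₊, fun K hK => ?_⟩
  have hK1 : 2 ^ (P₀ + 4) ≤ K := by omega
  have hK2 : ⌈Real.exp 20⌉₊ ≤ K := by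
    have : 0 < 2 ^ (P₀ + 4) := by positivity
    omega
  have hKpos : 0 < K := lt_of_lt_of_le (by positivity) hK1
  have hKR : (0 : ℝ) < K := by exact_mod_cast hKpos
  have hlog : P₀ + 4 ≤ Nat.log 2 K := Nat.le_log_of_pow_le (by norm_num) hK1
  set P := Nat.log 2 K - 4 with hP
  have h16 : 16 * 2 ^ P ≤ K := by
    have h1 : 16 * 2 ^ P = 2 ^ Nat.log 2 K := by
      have h2 : Nat.log 2 K = P + 4 := by omega
      rw [h2, pow_add]; ring
    rw [h1]
    exact Nat.pow_log_le_self 2 hKpos.ne'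
  have hmain := hP₀ P K (by omega) h16
  have h20 : 20 ≤ Real.log K := by
    rw [Real.le_log_iff_exp_le hKR]
    exact (Nat.le_ceil _).trans (by exact_mod_cast hK2)
  have hPlog : Real.log K ≤ P := by
    have h1 : K < 2 ^ (Nat.log 2 K + 1) := Nat.lt_pow_succ_log_self (by norm_num) K
    have h2 : (K : ℝ) < 2 ^ (Nat.log 2 K + 1) := by exact_mod_cast h1
    have h3 : Real.log K ≤ (Nat.log 2 K + 1 : ℕ) * Real.log 2 := by
      rw [← Real.log_pow]
      exact Real.log_le_log hKR h2.le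
    have h4 : ((Nat.log 2 K + 1 : ℕ) : ℝ) = P + 5 := by
      have : Nat.log 2 K + 1 = P + 5 := by omega
      rw [this]; push_cast; ring
    rw [h4] at h3
    have h5 := Real.log_two_lt_d9
    have h6 : (0 : ℝ) ≤ P := Nat.cast_nonneg _
    nlinarith
  have hll : 1 ≤ Real.log (Real.log K) := by
    rw [Real.le_log_iff_exp_le (by linarith)]
    have := Real.exp_one_lt_d9
    linarith
  have hmono : Real.log (Real.log K) ≤ Real.log P := Real.log_le_log (by linarith) hPlog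
  have h7 : Real.log (Real.log K) ^ A ≤ Real.log P ^ |A| :=
    (Real.rpow_le_rpow_of_exponent_le hll (le_abs_self A)).trans
      (Real.rpow_le_rpow (by linarith) hmono (abs_nonneg A))
  calc (K : ℝ) * Real.exp (Real.log (Real.log K) ^ A)
      ≤ (K : ℝ) * Real.exp (Real.log P ^ |A|) :=
        mul_le_mul_of_nonneg_left (Real.exp_le_exp.2 h7) hKR.le
    _ ≤ ∑ k ∈ ks K, ((shortCycles (k : ℤ) P).ncard : ℝ) := hmain
    _ ≤ _ := by
        apply Finset.sum_le_sum
        intro k hk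
        have hk2 : (k : ℤ) % 2 = 1 := by
          unfold ks at hk
          rw [Finset.mem_filter] at hk
          omega
        exact_mod_cast shortCycles_mono (k : ℤ) hk2 P _ (Nat.sub_le _ _)

end Pool.Agent.H621.Avg
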