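import Mathlib
import Pool.Agent.H621.Avg.Final

set_option autoImplicit false

/-!
# Primitive cycles: many on average, in arbitrarily large dyadic ranges
-/

namespace Pool.Agent.H621.Avg

open Pool.Agent.H621.Osc (T T_odd T_even IsCycle)
open Pool.Agent.H872.Near (c W mem_W card_W rotate_mem k_odd k_pos c_inj c_pos c_nonneg orb mem_orb
  orb_iter per_iter exists_le iter_c)

/-- the cycles with at most `P` elements, all prime to `k` -/
def primCycles (k : ℤ) (P : ℕ) : Set (Finset ℤ) :=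
  {Z | IsCycle k Z ∧ Z.card ≤ P ∧ ∀ x ∈ Z, IsCoprime x k}

theorem primCycles_finite (k : ℤ) (hk : k % 2 = 1) (P : ℕ) : (primCycles k P).Finite :=
  (shortCycles_finite k hk P).subset fun _ h => ⟨h.1, h.2.1⟩

theorem primCycles_mono (k : ℤ) (hk : k % 2 = 1) (P P' : ℕ) (h : P ≤ P') :
    (primCycles k P).ncard ≤ (primCycles k P').ncard :=
  Set.ncard_le_ncard (fun _ hZ => ⟨hZ.1, hZ.2.1.trans h, hZ.2.2⟩) (primCycles_finite k hk P')

theorem coprime_T {k x : ℤ} (hk : k % 2 = 1) (hk3 : IsCoprime (3 : ℤ) k) (hx : IsCoprime x k) :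
    IsCoprime (T k x) k := by
  rcases Int.emod_two_eq_zero_or_one x with h | h
  · have e := T_even (k := k) h
    rw [← e] at hx
    exact hx.of_mul_left_right
  · have e := T_odd (k := k) hk h
    have h1 := (hk3.mul_left hx).add_mul_left_left 1
    rw [mul_one, ← e] at h1
    exact h1.of_mul_left_right

section
variable {n : ℕ}

theorem Dn_pos (hn : 1 ≤ n) : 0 < 4 ^ n - 3 ^ n := by
  have : 3 ^ n < 4 ^ n := Nat.pow_lt_pow_left (by norm_num) (by omega)
  omega

theorem cast_D (n : ℕ) : ((4 ^ n - 3 ^ n : ℕ) : ℤ) = 4 ^ n - 3 ^ n := by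
  have : 3 ^ n ≤ 4 ^ n := Nat.pow_le_pow_left (by norm_num) n
  rw [Nat.cast_sub this]; push_cast; ring

/-- the denominator of the periodic point of a word -/
def dw (n : ℕ) (w : List Bool) : ℕ := (4 ^ n - 3 ^ n) / Nat.gcd (c w).natAbs (4 ^ n - 3 ^ n)

/-- its numerator -/
def xw (n : ℕ) (w : List Bool) : ℤ := c w / (Nat.gcd (c w).natAbs (4 ^ n - 3 ^ n) : ℕ)

theorem dw_mul (n : ℕ) (w : List Bool) :
    dw n w * Nat.gcd (c w).natAbs (4 ^ n - 3 ^ n) = 4 ^ n - 3 ^ n :=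
  Nat.div_mul_cancel (Nat.gcd_dvd_right _ _)

theorem dw_pos (hn : 1 ≤ n) (w : List Bool) : 0 < dw n w :=
  Nat.div_pos (Nat.le_of_dvd (Dn_pos hn) (Nat.gcd_dvd_right _ _))
    (Nat.gcd_pos_of_pos_right _ (Dn_pos hn))

theorem dw_dvd (n : ℕ) (w : List Bool) : dw n w ∣ 4 ^ n - 3 ^ n := ⟨_, (dw_mul n w).symm⟩

theorem dw_le (n : ℕ) (w : List Bool) : dw n w ≤ 4 ^ n := (Nat.div_le_self _ _).trans (Nat.sub_le _ _)

theorem dw_mod (hn : 1 ≤ n) (w : List Bool) : dw n w % 6 = 1 ∨ dw n w % 6 = 5 := by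
  obtain ⟨h2, h3⟩ := mod6 n hn
  have hd := dw_dvd n w
  have a2 : ¬ 2 ∣ dw n w := fun h => by
    have := h.trans hd
    omega
  have a3 : ¬ 3 ∣ dw n w := fun h => by
    have := h.trans hd
    omega
  omega

theorem xw_mul (n : ℕ) (w : List Bool) :
    xw n w * (Nat.gcd (c w).natAbs (4 ^ n - 3 ^ n) : ℕ) = c w :=
  Int.ediv_mul_cancel (Int.natCast_dvd.2 (Nat.gcd_dvd_left _ _))

theorem xw_eq (n : ℕ) (w : List Bool) : ((4 : ℤ) ^ n - 3 ^ n) * xw n w = dw n w * c w := by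
  have h1 := xw_mul n w
  have h3 : (dw n w : ℤ) * (Nat.gcd (c w).natAbs (4 ^ n - 3 ^ n) : ℕ) = 4 ^ n - 3 ^ n := by
    rw [← cast_D n, ← Nat.cast_mul, dw_mul]
  calc ((4 : ℤ) ^ n - 3 ^ n) * xw n w
      = (dw n w : ℤ) * (xw n w * (Nat.gcd (c w).natAbs (4 ^ n - 3 ^ n) : ℕ)) := by
        rw [← h3]; ring
    _ = dw n w * c w := by rw [h1]

theorem xw_coprime (hn : 1 ≤ n) (w : List Bool) : IsCoprime (xw n w) (dw n w : ℤ) := by
  have hg := Nat.gcd_pos_of_pos_right (c w).natAbs (Dn_pos hn)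
  have h1 : xw n w = (((c w).natAbs / Nat.gcd (c w).natAbs (4 ^ n - 3 ^ n) : ℕ) : ℤ) := by
    unfold xw
    rw [Int.natCast_div, Int.natAbs_of_nonneg (c_nonneg w)]
  rw [h1]
  exact Nat.isCoprime_iff_coprime.2 (Nat.coprime_div_gcd_div_gcd hg)

theorem xw_per (hn : 1 ≤ n) (w : List Bool) (hw : w ∈ W (2 * n) n) :
    (T (dw n w : ℤ))^[2 * n] (xw n w) = xw n w := by
  have hodd : ((dw n w : ℕ) : ℤ) % 2 = 1 := by
    have := dw_mod hn w
    omega
  have h1 := iter_scale hn (dw n w : ℤ) hodd w hw (xw n w) (xw_eq n w) (2 * n)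
  have h2 : w.rotate (2 * n) = w := by
    have := ((mem_W _ _ _).1 hw).1
    conv_lhs => rw [← this]
    rw [List.rotate_length]
  rw [h2, ← xw_eq n w] at h1
  exact mul_left_cancel₀ (k_pos hn).ne' h1

theorem xw_inj (hn : 1 ≤ n) (w v : List Bool) (hw : w ∈ W (2 * n) n) (hv : v ∈ W (2 * n) n)
    (hd : dw n w = dw n v) (h : xw n w = xw n v) : w = v := by
  have h1 := xw_eq n w
  have h2 := xw_eq n v
  rw [h, h2, hd] at h1
  have h0 : (dw n v : ℤ) ≠ 0 := by exact_mod_cast (dw_pos hn v).ne'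
  exact c_inj hn hw hv (mul_left_cancel₀ h0 h1).symm

/-- few words have a small denominator -/
theorem count_small (hn : 1 ≤ n) (d : ℕ) :
    ((W (2 * n) n).filter fun w => dw n w = d).card ≤ 2 * n * d := by
  classical
  have hex : ∀ w : List Bool, w ∈ (W (2 * n) n).filter (fun w => dw n w = d) →
      ∃ p : ℕ × ℤ, p ∈ (Finset.range (2 * n)) ×ˢ (Finset.Icc (1 : ℤ) d) ∧
        (T (d : ℤ))^[2 * n - p.1] p.2 = xw n w := by
    intro w hw
    obtain ⟨hw1, hw2⟩ := Finset.mem_filter.1 hw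
    obtain ⟨i, hi, hle⟩ := exists_le hn w hw1
    rw [iter_c hn w hw1] at hle
    have hodd : ((d : ℕ) : ℤ) % 2 = 1 := by
      have := dw_mod hn w
      omega
    have hdpos : (0 : ℤ) < d := by
      have := dw_pos hn w
      omega
    have hx := xw_eq n w
    rw [hw2] at hx
    have h1 := iter_scale hn (d : ℤ) hodd w hw1 (xw n w) hx i
    have hcp : 0 < c (w.rotate i) := by
      apply c_pos
      have := ((mem_W _ _ _).1 (rotate_mem _ _ i _ hw1)).2
      omega
    have hD := k_pos (n := n) hn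
    refine ⟨(i, (T (d : ℤ))^[i] (xw n w)), ?_, ?_⟩
    · rw [Finset.mem_product, Finset.mem_range, Finset.mem_Icc]
      refine ⟨hi, ?_, ?_⟩
      · have h2 : 0 < (4 ^ n - 3 ^ n) * (T (d : ℤ))^[i] (xw n w) := by
          rw [h1]; positivity
        have := pos_of_mul_pos_right h2 hD.le
        exact this
      · have h2 : (4 ^ n - 3 ^ n) * (T (d : ℤ))^[i] (xw n w) ≤ (4 ^ n - 3 ^ n) * d := by
          rw [h1, mul_comm]
          exact mul_le_mul_of_nonneg_right hle hdpos.le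
        exact le_of_mul_le_mul_left h2 hD
    · have h3 := xw_per hn w hw1
      rw [hw2] at h3
      show (T (d : ℤ))^[2 * n - i] ((T (d : ℤ))^[i] (xw n w)) = xw n w
      rw [← Function.iterate_add_apply, Nat.sub_add_cancel hi.le, h3]
  choose! p hp1 hp2 using hex
  have hc := Finset.card_le_card_of_injOn (s := (W (2 * n) n).filter fun w => dw n w = d)
    (t := (Finset.range (2 * n)) ×ˢ (Finset.Icc (1 : ℤ) d)) p (fun w hw => hp1 w hw) (by
      intro w hw v hv h
      have a1 := hp2 w hw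
      have a2 := hp2 v hv
      rw [h] at a1
      rw [a1] at a2
      obtain ⟨hw1, hw2⟩ := Finset.mem_filter.1 hw
      obtain ⟨hv1, hv2⟩ := Finset.mem_filter.1 hv
      exact xw_inj hn w v hw1 hv1 (hw2.trans hv2.symm) a2)
  rw [Finset.card_product, Finset.card_range, Int.card_Icc] at hc
  have e : ((d : ℤ) + 1 - 1).toNat = d := by simp
  rwa [e] at hc

/-- every word with the denominator `d` belongs to a primitive cycle of `T d` -/
theorem count_prim (hn : 1 ≤ n) (d P : ℕ) (hP : 2 * n ≤ P) :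
    ((W (2 * n) n).filter fun w => dw n w = d).card ≤ 2 * n * (primCycles (d : ℤ) P).ncard := by
  classical
  rcases ((W (2 * n) n).filter fun w => dw n w = d).eq_empty_or_nonempty with hemp | ⟨w1, hw1⟩
  · rw [hemp]; simp
  have hmod : d % 6 = 1 ∨ d % 6 = 5 := by
    have h1 := (Finset.mem_filter.1 hw1).2
    have h2 := dw_mod hn w1
    rwa [h1] at h2
  have hk : (d : ℤ) % 2 = 1 := by omega
  have hk3 : IsCoprime (3 : ℤ) (d : ℤ) := by
    have : Nat.Coprime 3 d := by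
      rw [Nat.Prime.coprime_iff_not_dvd Nat.prime_three]
      omega
    exact Nat.isCoprime_iff_coprime.2 this
  set G := (W (2 * n) n).filter fun w => dw n w = d with hG
  have hW : ∀ w ∈ G, w ∈ W (2 * n) n := fun w hw => (Finset.mem_filter.1 hw).1
  have hd : ∀ w ∈ G, dw n w = d := fun w hw => (Finset.mem_filter.1 hw).2
  have hinj : Set.InjOn (xw n) (G : Set (List Bool)) := by
    intro w hw v hv h
    exact xw_inj hn w v (hW w hw) (hW v hv) ((hd w hw).trans (hd v hv).symm) h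
  have hper : ∀ w ∈ G, (T (d : ℤ))^[2 * n] (xw n w) = xw n w := by
    intro w hw
    have := xw_per hn w (hW w hw)
    rwa [hd w hw] at this
  have hcop : ∀ w ∈ G, ∀ i : ℕ, IsCoprime ((T (d : ℤ))^[i] (xw n w)) (d : ℤ) := by
    intro w hw i
    induction i with
    | zero =>
      have := xw_coprime hn w
      rw [hd w hw] at this
      simpa using this
    | succ i ih =>
      rw [Function.iterate_succ_apply']
      exact coprime_T hk hk3 ih
  have hfin := primCycles_finite (d : ℤ) hk P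
  have hmem : ∀ w ∈ G, orb (d : ℤ) (2 * n) (xw n w) ∈ hfin.toFinset := by
    intro w hw
    rw [Set.Finite.mem_toFinset]
    refine ⟨⟨xw n w, 2 * n, by omega, hper w hw, rfl⟩, ?_, ?_⟩
    · refine le_trans ?_ hP
      refine Finset.card_image_le.trans ?_
      simp
    · intro x hx
      obtain ⟨i, rfl⟩ := (mem_orb (by omega) (hper w hw) x).1 hx
      exact hcop w hw i
  calc G.card ≤ 2 * n * (G.image fun w => orb (d : ℤ) (2 * n) (xw n w)).card := by
        apply Finset.card_le_mul_card_image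
        intro Z hZ
        obtain ⟨w0, hw0, rfl⟩ := Finset.mem_image.1 hZ
        have hsub : (G.filter fun w => orb (d : ℤ) (2 * n) (xw n w) =
            orb (d : ℤ) (2 * n) (xw n w0)).image (xw n) ⊆ orb (d : ℤ) (2 * n) (xw n w0) := by
          intro y hy
          obtain ⟨w, hw, rfl⟩ := Finset.mem_image.1 hy
          obtain ⟨hw1, hw2⟩ := Finset.mem_filter.1 hw
          rw [← hw2, mem_orb (by omega) (hper w hw1)]
          exact ⟨0, rfl⟩
        have hc := Finset.card_le_card hsub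
        rw [Finset.card_image_of_injOn] at hc
        · refine hc.trans ?_
          refine Finset.card_image_le.trans ?_
          simp
        · intro a ha b hb hab
          exact hinj (Finset.mem_filter.1 (Finset.mem_coe.1 ha)).1
            (Finset.mem_filter.1 (Finset.mem_coe.1 hb)).1 hab
    _ ≤ 2 * n * (primCycles (d : ℤ) P).ncard := by
        apply Nat.mul_le_mul_left
        rw [Set.ncard_eq_toFinset_card _ hfin]
        apply Finset.card_le_card
        intro Z hZ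
        obtain ⟨w, hw, rfl⟩ := Finset.mem_image.1 hZ
        exact hmem w hw

theorem dyadic (y0 m : ℕ) : ∀ f : ℕ, y0 < f → f ≤ 2 ^ m * y0 →
    ∃ j < m, 2 ^ j * y0 < f ∧ f ≤ 2 * (2 ^ j * y0) := by
  induction m with
  | zero => intro f h1 h2; simp at h2; omega
  | succ m ih =>
    intro f h1 h2
    rcases le_or_gt f (2 ^ m * y0) with h | h
    · obtain ⟨j, hj, hj2⟩ := ih f h1 h
      exact ⟨j, by omega, hj2⟩
    · refine ⟨m, by omega, h, ?_⟩
      rw [pow_succ] at h2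
      linarith

theorem pigeon (hn : 1 ≤ n) (y0 : ℕ) (hy0 : 1 ≤ y0) (B : ℝ)
    (hall : ∀ j < 2 * n, (((W (2 * n) n).filter fun w => 2 ^ j * y0 < dw n w ∧
      dw n w ≤ 2 * (2 ^ j * y0)).card : ℝ) ≤ B * ((2 ^ j * y0 : ℕ) : ℝ)) :
    ∑ w ∈ W (2 * n) n, (1 : ℝ) / dw n w ≤ 2 * n * y0 + 2 * n * B := by
  classical
  have h1 : ∀ w ∈ W (2 * n) n, (1 : ℝ) / dw n w ≤ (if dw n w ≤ y0 then (1 : ℝ) / dw n w else 0) +
      ∑ j ∈ Finset.range (2 * n), (if 2 ^ j * y0 < dw n w ∧ dw n w ≤ 2 * (2 ^ j * y0) then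
        (1 : ℝ) / ((2 ^ j * y0 : ℕ) : ℝ) else 0) := by
    intro w _
    by_cases h : dw n w ≤ y0
    · rw [if_pos h]
      have : 0 ≤ ∑ j ∈ Finset.range (2 * n), (if 2 ^ j * y0 < dw n w ∧ dw n w ≤ 2 * (2 ^ j * y0) then
        (1 : ℝ) / ((2 ^ j * y0 : ℕ) : ℝ) else 0) := by
        apply Finset.sum_nonneg
        intro j _
        split_ifs <;> positivity
      linarith
    · rw [if_neg h, zero_add]
      have h4 : dw n w ≤ 2 ^ (2 * n) * y0 := by
        have h5 := dw_le n w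
        have h6 : (4 : ℕ) ^ n = 2 ^ (2 * n) := by rw [pow_mul]; norm_num
        rw [h6] at h5
        exact h5.trans (Nat.le_mul_of_pos_right _ hy0)
      obtain ⟨j, hj, hj1, hj2⟩ := dyadic y0 (2 * n) (dw n w) (by omega) h4
      have h7 : (1 : ℝ) / dw n w ≤ (if 2 ^ j * y0 < dw n w ∧ dw n w ≤ 2 * (2 ^ j * y0) then
        (1 : ℝ) / ((2 ^ j * y0 : ℕ) : ℝ) else 0) := by
        rw [if_pos ⟨hj1, hj2⟩]
        apply one_div_le_one_div_of_le
        · have : 0 < 2 ^ j * y0 := by positivity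
          exact_mod_cast this
        · exact_mod_cast hj1.le
      refine h7.trans (Finset.single_le_sum (f := fun j => (if 2 ^ j * y0 < dw n w ∧
        dw n w ≤ 2 * (2 ^ j * y0) then (1 : ℝ) / ((2 ^ j * y0 : ℕ) : ℝ) else 0)) ?_
        (Finset.mem_range.2 hj))
      intro i _
      split_ifs <;> positivity
  have h2 : ∑ w ∈ W (2 * n) n, (if dw n w ≤ y0 then (1 : ℝ) / dw n w else 0) ≤ 2 * n * y0 := by
    rw [← Finset.sum_filter]
    rw [← Finset.sum_fiberwise_of_maps_to (s := (W (2 * n) n).filter fun w => dw n w ≤ y0)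
      (t := Finset.Icc 1 y0) (g := dw n) (fun w hw => by
        rw [Finset.mem_Icc]
        exact ⟨dw_pos hn w, (Finset.mem_filter.1 hw).2⟩)]
    calc ∑ d ∈ Finset.Icc 1 y0, ∑ w ∈ ((W (2 * n) n).filter fun w => dw n w ≤ y0).filter
          (fun w => dw n w = d), (1 : ℝ) / dw n w
        ≤ ∑ d ∈ Finset.Icc 1 y0, (2 * n : ℝ) := by
          apply Finset.sum_le_sum
          intro d hd
          have hd1 : 1 ≤ d := (Finset.mem_Icc.1 hd).1
          have hdR : (0 : ℝ) < d := by exact_mod_cast hd1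
          have e1 : ∑ w ∈ ((W (2 * n) n).filter fun w => dw n w ≤ y0).filter
              (fun w => dw n w = d), (1 : ℝ) / dw n w =
              ((((W (2 * n) n).filter fun w => dw n w ≤ y0).filter
              (fun w => dw n w = d)).card : ℝ) * (1 / d) := by
            rw [← nsmul_eq_mul, ← Finset.sum_const]
            apply Finset.sum_congr rfl
            intro w hw
            rw [(Finset.mem_filter.1 hw).2]
          rw [e1]
          have e2 : (((W (2 * n) n).filter fun w => dw n w ≤ y0).filter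
              (fun w => dw n w = d)).card ≤ 2 * n * d := by
            refine le_trans (Finset.card_le_card ?_) (count_small hn d)
            intro w hw
            rw [Finset.mem_filter, Finset.mem_filter] at hw
            rw [Finset.mem_filter]
            exact ⟨hw.1.1, hw.2⟩
          have e3 : ((((W (2 * n) n).filter fun w => dw n w ≤ y0).filter
              (fun w => dw n w = d)).card : ℝ) ≤ 2 * n * d := by exact_mod_cast e2
          calc _ ≤ (2 * n * d : ℝ) * (1 / d) := mul_le_mul_of_nonneg_right e3 (by positivity)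
            _ = 2 * n := by field_simp
      _ = 2 * n * y0 := by
          rw [Finset.sum_const, Nat.card_Icc, nsmul_eq_mul]
          push_cast [show y0 + 1 - 1 = y0 by omega]
          ring
  have h3 : ∑ w ∈ W (2 * n) n, ∑ j ∈ Finset.range (2 * n),
      (if 2 ^ j * y0 < dw n w ∧ dw n w ≤ 2 * (2 ^ j * y0) then
        (1 : ℝ) / ((2 ^ j * y0 : ℕ) : ℝ) else 0) ≤ 2 * n * B := by
    rw [Finset.sum_comm]
    calc ∑ j ∈ Finset.range (2 * n), ∑ w ∈ W (2 * n) n,
        (if 2 ^ j * y0 < dw n w ∧ dw n w ≤ 2 * (2 ^ j * y0) then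
        (1 : ℝ) / ((2 ^ j * y0 : ℕ) : ℝ) else 0) ≤ ∑ j ∈ Finset.range (2 * n), B := by
          apply Finset.sum_le_sum
          intro j hj
          have hyj : (0 : ℝ) < ((2 ^ j * y0 : ℕ) : ℝ) := by
            have : 0 < 2 ^ j * y0 := by positivity
            exact_mod_cast this
          rw [← Finset.sum_filter, Finset.sum_const, nsmul_eq_mul, mul_one_div, div_le_iff₀ hyj]
          exact hall j (Finset.mem_range.1 hj)
      _ = 2 * n * B := by
          rw [Finset.sum_const, Finset.card_range, nsmul_eq_mul]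
          push_cast
          ring
  calc ∑ w ∈ W (2 * n) n, (1 : ℝ) / dw n w ≤ _ := Finset.sum_le_sum h1
    _ = _ := Finset.sum_add_distrib
    _ ≤ _ := add_le_add h2 h3

/-- the `k` in `(y, 2y]` prime to `6` -/
def dks (y : ℕ) : Finset ℕ := (Finset.Ioc y (2 * y)).filter fun k => k % 6 = 1 ∨ k % 6 = 5

/-- a dyadic range with many primitive cycles -/
theorem exists_range (hn : 1 ≤ n) (y0 : ℕ) (hy0 : 1 ≤ y0) (B : ℝ) (hB : 0 < B)
    (hsum : 2 * n * y0 + 2 * n * B < ∑ w ∈ W (2 * n) n, (1 : ℝ) / dw n w) :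
    ∃ y : ℕ, y0 ≤ y ∧ y < 4 ^ n ∧ ∀ P : ℕ, 2 * n ≤ P →
      B * y ≤ 2 * n * ∑ k ∈ dks y, ((primCycles (k : ℤ) P).ncard : ℝ) := by
  classical
  by_contra hcon
  push Not at hcon
  refine absurd (pigeon hn y0 hy0 B fun j _ => ?_) (not_le.2 hsum)
  by_contra hlt
  rw [not_le] at hlt
  set y := 2 ^ j * y0 with hy
  have hypos : 0 < y := by positivity
  have hyR : (0 : ℝ) < y := by exact_mod_cast hypos
  set F := (W (2 * n) n).filter fun w => y < dw n w ∧ dw n w ≤ 2 * y with hF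
  have hne : F.Nonempty := by
    rw [← Finset.card_pos]
    have : (0 : ℝ) < (F.card : ℝ) := lt_trans (by positivity) hlt
    exact_mod_cast this
  have hylt : y < 4 ^ n := by
    obtain ⟨w, hw⟩ := hne
    exact (Finset.mem_filter.1 hw).2.1.trans_le (dw_le n w)
  obtain ⟨P, hP, hP2⟩ := hcon y (Nat.le_mul_of_pos_left y0 (by positivity)) hylt
  have hmaps : ∀ w ∈ F, dw n w ∈ dks y := by
    intro w hw
    unfold dks
    rw [Finset.mem_filter, Finset.mem_Ioc]
    exact ⟨(Finset.mem_filter.1 hw).2, dw_mod hn w⟩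
  have hcard := Finset.card_eq_sum_card_fiberwise hmaps
  have h1 : (F.card : ℝ) ≤ 2 * n * ∑ k ∈ dks y, ((primCycles (k : ℤ) P).ncard : ℝ) := by
    rw [hcard, Finset.mul_sum]
    push_cast
    apply Finset.sum_le_sum
    intro k _
    have h2 : (F.filter fun w => dw n w = k).card ≤ 2 * n * (primCycles (k : ℤ) P).ncard := by
      refine le_trans (Finset.card_le_card ?_) (count_prim hn k P hP)
      intro w hw
      rw [Finset.mem_filter] at hw
      rw [Finset.mem_filter]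
      exact ⟨(Finset.mem_filter.1 hw.1).1, hw.2⟩
    exact_mod_cast h2
  linarith

theorem sum_inv (hn : 1 ≤ n) (L : Finset ℕ) (hLp : ∀ l ∈ L, l.Prime) (hL5 : ∀ l ∈ L, 5 ≤ l)
    (hLd : ∀ l ∈ L, l ∣ 4 ^ n - 3 ^ n) (Λ : ℝ) (hΛ : ((∏ l ∈ L, l : ℕ) : ℝ) ≤ Real.exp Λ)
    (hsmall : 8 * Real.exp Λ * n * (1 - 1 / (32768 * Λ)) ^ n ≤ 1) :
    (9 / 5 : ℝ) ^ L.card / (4 * n) ≤ ∑ w ∈ W (2 * n) n, (1 : ℝ) / dw n w := by
  have hnR : (0 : ℝ) < n := by exact_mod_cast (show 0 < n by omega)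
  have h1 := gcd_sum hn L hLp hL5 hLd Λ hΛ hsmall
  have hDpos : 0 < 4 ^ n - 3 ^ n := Dn_pos hn
  have hDR : (0 : ℝ) < ((4 ^ n - 3 ^ n : ℕ) : ℝ) := by exact_mod_cast hDpos
  have hDle : ((4 ^ n - 3 ^ n : ℕ) : ℝ) ≤ 4 ^ n := by
    exact_mod_cast Nat.sub_le (4 ^ n) (3 ^ n)
  have hcb : (4 : ℝ) ^ n ≤ 2 * n * Nat.centralBinom n := by
    exact_mod_cast Nat.four_pow_le_two_mul_self_mul_centralBinom n (by omega)
  have h2 : ∀ w : List Bool, (1 : ℝ) / dw n w =
      (Nat.gcd (c w).natAbs (4 ^ n - 3 ^ n) : ℝ) / ((4 ^ n - 3 ^ n : ℕ) : ℝ) := by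
    intro w
    have h3 := dw_mul n w
    have h4 : (0 : ℝ) < dw n w := by exact_mod_cast dw_pos hn w
    have h5 : ((4 ^ n - 3 ^ n : ℕ) : ℝ) = (dw n w : ℝ) * (Nat.gcd (c w).natAbs (4 ^ n - 3 ^ n) : ℝ) := by
      rw [← Nat.cast_mul, h3]
    rw [div_eq_div_iff h4.ne' hDR.ne', one_mul, h5]
    ring
  rw [Finset.sum_congr rfl fun w _ => h2 w, ← Finset.sum_div]
  rw [div_le_div_iff₀ (by positivity) hDR]
  calc (9 / 5 : ℝ) ^ L.card * ((4 ^ n - 3 ^ n : ℕ) : ℝ)
      ≤ (9 / 5 : ℝ) ^ L.card * (2 * n * Nat.centralBinom n) :=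
        mul_le_mul_of_nonneg_left (hDle.trans hcb) (by positivity)
    _ = ((Nat.centralBinom n : ℝ) / 2 * (9 / 5) ^ L.card) * (4 * n) := by ring
    _ ≤ _ := mul_le_mul_of_nonneg_right h1 (by positivity)

end

theorem key_ineq (x A c1 c0 : ℝ) (r : ℕ) (hr2 : 2 ≤ r) (hAr : A + 1 ≤ r) (hc1 : 0 < c1) (hc0 : 0 ≤ c0)
    (hx1 : 1 ≤ x) (hx2 : 2 * c1 ^ r * (8 + c0) ≤ x) : (x ^ A + 2 * x + 5) * 2 + c0 ≤ (x / c1) ^ r := by
  have hxr : x ^ A ≤ x ^ (r - 1) := by
    rw [← Real.rpow_natCast]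
    apply Real.rpow_le_rpow_of_exponent_le hx1
    have h3 : ((r - 1 : ℕ) : ℝ) = (r : ℝ) - 1 := by
      rw [Nat.cast_sub (by omega)]; norm_num
    rw [h3]; linarith
  have hxr1 : x ≤ x ^ (r - 1) := by
    calc x = x ^ 1 := (pow_one x).symm
      _ ≤ x ^ (r - 1) := pow_le_pow_right₀ hx1 (by omega)
  have hxr0 : 1 ≤ x ^ (r - 1) := one_le_pow₀ hx1
  have hxrr : x ^ r = x * x ^ (r - 1) := by
    have hr1 : r = (r - 1) + 1 := by omega
    conv_lhs => rw [hr1]
    rw [pow_succ']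
  rw [div_pow, le_div_iff₀ (by positivity), hxrr]
  have h2 : (x ^ A + 2 * x + 5) * 2 + c0 ≤ 2 * (8 + c0) * x ^ (r - 1) := by nlinarith
  calc ((x ^ A + 2 * x + 5) * 2 + c0) * c1 ^ r
      ≤ (2 * (8 + c0) * x ^ (r - 1)) * c1 ^ r :=
        mul_le_mul_of_nonneg_right h2 (by positivity)
    _ = (2 * c1 ^ r * (8 + c0)) * x ^ (r - 1) := by ring
    _ ≤ x * x ^ (r - 1) := mul_le_mul_of_nonneg_right hx2 (by positivity)

/-- For every exponent `A1 ≥ 1` and every bound `b` there is an `n ≥ b` with `log n ≥ b` for which the sum of the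
inverse denominators is larger than `12 n² X`, where `X ≥ 2 exp ((log n) ^ A1)`. -/
theorem exists_n (A1 : ℝ) (hA1 : 1 ≤ A1) (b : ℕ) : ∃ (n : ℕ) (X : ℝ), b ≤ n ∧ (b : ℝ) ≤ Real.log n ∧ 1 ≤ n ∧
    2 * Real.exp (Real.log n ^ A1) ≤ X ∧ 12 * (n : ℝ) ^ 2 * X ≤ ∑ w ∈ W (2 * n) n, (1 : ℝ) / dw n w := by
  set r : ℕ := ⌈A1⌉₊ + 2 with hr
  obtain ⟨Q, hQ0, hQr, hbig⟩ := exists_Q r
  have hr2 : 2 ≤ r := by omega
  have hQ2 : 2 ≤ Q := by
    have h1 : Q.primeFactors.Nonempty := by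
      rw [← Finset.card_pos, hQr]; omega
    obtain ⟨q, hq⟩ := h1
    exact (Nat.prime_of_mem_primeFactors hq).two_le.trans
      (Nat.le_of_dvd (Nat.pos_of_ne_zero hQ0) (Nat.dvd_of_mem_primeFactors hq))
  have hQR : (2 : ℝ) ≤ Q := by exact_mod_cast hQ2
  have hlQ : 0 < Real.log Q := Real.log_pos (by linarith)
  have hlQ2 : (1 : ℝ) / 2 ≤ Real.log Q := by
    have h1 := Real.log_two_gt_d9
    have h2 := Real.log_le_log (by norm_num) hQR
    linarith
  set c1 : ℝ := 3 * Real.log Q with hc1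
  have hc10 : 0 < c1 := by positivity
  set c0 : ℝ := 2 * Q + 4 with hc0
  have hc00 : 0 ≤ c0 := by positivity
  set x0 : ℝ := 2 * c1 ^ r * (8 + c0) with hx0
  set s : ℕ := b + 64 + ⌈x0⌉₊ with hs
  have hs1 : 1 ≤ s := by omega
  set M := Q ^ s with hM
  have hMpos : 1 ≤ M := Nat.one_le_pow _ _ (by omega)
  set n := M ^ 3 with hn
  have hn1 : 1 ≤ n := Nat.one_le_pow _ _ hMpos
  have hn' : n = Q ^ (s * 3) := by rw [hn, hM, ← pow_mul]
  have hsn : 2 ^ (s * 3) ≤ n := by
    rw [hn']; exact Nat.pow_le_pow_left hQ2 _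
  have hn19 : 10 ^ 19 ≤ n := by
    refine le_trans ?_ hsn
    calc 10 ^ 19 ≤ 2 ^ (64 * 3) := by norm_num
      _ ≤ 2 ^ (s * 3) := Nat.pow_le_pow_right (by norm_num) (by omega)
  have hbn : b ≤ n := by
    have h1 : s * 3 < 2 ^ (s * 3) := Nat.lt_two_pow_self
    omega
  have hnR : (0 : ℝ) < n := by exact_mod_cast (show 0 < n by omega)
  set x := Real.log n with hx
  have hxs : x = s * c1 := by
    rw [hx, hn', hc1]
    push_cast
    rw [Real.log_pow]
    push_cast
    ring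
  have hc1' : 1 ≤ c1 := by rw [hc1]; linarith
  have hsx : (s : ℝ) ≤ x := by
    rw [hxs]
    exact le_mul_of_one_le_right (Nat.cast_nonneg _) hc1'
  have hsR : (b : ℝ) + 64 + x0 ≤ s := by
    rw [hs]
    push_cast
    have := Nat.le_ceil x0
    linarith
  have hx00 : 0 ≤ x0 := by positivity
  have hb0 : (0 : ℝ) ≤ b := Nat.cast_nonneg _
  have hx1 : 1 ≤ x := by linarith
  obtain ⟨L, hLp, hL5, hLd, hLcard⟩ := many_primes r Q s (by omega) hQ0 hQr hbig hs1
  have hMdn : M ∣ n := ⟨M ^ 2, by rw [hn]; ring⟩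
  have hLd' : ∀ l ∈ L, l ∣ 4 ^ n - 3 ^ n := fun l hl => (hLd l hl).trans (D_dvd hMdn)
  have hprod : ((∏ l ∈ L, l : ℕ) : ℝ) ≤ Real.exp (M * Real.log 4) := by
    have h1 : (∏ l ∈ L, l) ∣ D M := Finset.prod_primes_dvd _
      (fun l hl => (hLp l hl).prime) (fun l hl => hLd l hl)
    have h2 : (∏ l ∈ L, l) ≤ 4 ^ M := (Nat.le_of_dvd (D_pos M hMpos) h1).trans (D_le M)
    have h3 : Real.exp (M * Real.log 4) = 4 ^ M := by
      rw [Real.exp_nat_mul, Real.exp_log (by norm_num)]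
    rw [h3]
    exact_mod_cast h2
  have hsmall := small_cond M n hMpos (by omega) hn19
  have hsum := sum_inv hn1 L hLp hL5 hLd' (M * Real.log 4) hprod hsmall
  have hLc : (x / c1) ^ r - c0 ≤ L.card := by
    have h1 : (x / c1) ^ r ≤ ((s : ℝ) + 1) ^ r := by
      apply pow_le_pow_left₀ (by positivity)
      rw [hxs, mul_div_assoc, div_self hc10.ne', mul_one]
      linarith
    have h2 : ((s : ℝ) + 1) ^ r ≤ (L.card : ℝ) + (2 * Q + 4) := by exact_mod_cast hLcard
    rw [hc0]; linarith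
  have hAr : (A1 + 1) + 1 ≤ r := by
    have h2 : A1 ≤ (⌈A1⌉₊ : ℝ) := Nat.le_ceil _
    have h3 : (r : ℝ) = (⌈A1⌉₊ : ℝ) + 2 := by rw [hr]; push_cast; ring
    rw [h3]; linarith
  have hkey0 := key_ineq x (A1 + 1) c1 c0 r hr2 hAr hc10 hc00 hx1 (by linarith)
  have hkey : x ^ (A1 + 1) + 2 * x + 5 ≤ (L.card : ℝ) / 2 := by linarith
  have hfin := fin1 x (A1 + 1) n n L.card hnR hx le_rfl hkey
  refine ⟨n, (9 / 5 : ℝ) ^ L.card / (48 * (n : ℝ) ^ 3), hbn, by linarith, hn1, ?_, ?_⟩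
  · rw [le_div_iff₀ (by positivity)]
    refine le_trans ?_ hfin
    have h1 : (n : ℝ) * Real.exp (x ^ A1) ≤ Real.exp (x ^ (A1 + 1)) := by
      have e1 : (n : ℝ) = Real.exp x := by rw [hx, Real.exp_log hnR]
      rw [e1, ← Real.exp_add]
      apply Real.exp_le_exp.2
      have e2 : x ^ (A1 + 1) = x ^ A1 * x := by
        rw [Real.rpow_add (by linarith), Real.rpow_one]
      have e3 : x ≤ x ^ A1 := by
        calc x = x ^ (1 : ℝ) := (Real.rpow_one x).symm
          _ ≤ x ^ A1 := Real.rpow_le_rpow_of_exponent_le hx1 hA1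
      rw [e2]
      nlinarith
    calc 2 * Real.exp (x ^ A1) * (48 * (n : ℝ) ^ 3)
        = ((n : ℝ) * Real.exp (x ^ A1)) * (96 * (n : ℝ) ^ 2) := by ring
      _ ≤ Real.exp (x ^ (A1 + 1)) * (96 * (n : ℝ) ^ 2) :=
        mul_le_mul_of_nonneg_right h1 (by positivity)
  · refine le_trans (le_of_eq ?_) hsum
    field_simp
    ring

/-- **Many primitive cycles on average in arbitrarily large dyadic ranges.** -/
theorem prim_main (A ε : ℝ) (hε : 0 < ε) : ∃ᶠ y : ℕ in Filter.atTop,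
    (y : ℝ) * Real.exp (Real.log (Real.log y) ^ A) ≤
      ∑ k ∈ dks y, ((primCycles (k : ℤ) ⌊Real.exp (Real.log y ^ ε)⌋₊).ncard : ℝ) := by
  rw [Filter.frequently_atTop]
  intro a
  set A1 : ℝ := |A| + 2 / ε + 1 with hA1
  have hA0 : 0 ≤ |A| := abs_nonneg A
  have hε2 : 0 < 2 / ε := by positivity
  have hA11 : 1 ≤ A1 := by linarith
  obtain ⟨n, X, hbn, hbx, hn1, hX1, hX2⟩ := exists_n A1 hA11 (a + 10 + ⌈(2 : ℝ) ^ |A|⌉₊)
  set x := Real.log n with hx
  have hnR : (0 : ℝ) < n := by exact_mod_cast (show 0 < n by omega)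
  have hbx' : (a : ℝ) + 10 + (2 : ℝ) ^ |A| ≤ x := by
    refine le_trans ?_ hbx
    push_cast
    have := Nat.le_ceil ((2 : ℝ) ^ |A|)
    linarith
  have ha0 : (0 : ℝ) ≤ a := Nat.cast_nonneg _
  have h2A : 0 < (2 : ℝ) ^ |A| := by positivity
  have hx10 : 10 ≤ x := by linarith
  have hxA : (2 : ℝ) ^ |A| ≤ x := by linarith
  have hex : n = Real.exp x := by rw [hx, Real.exp_log hnR]
  have hxA1 : x ≤ x ^ A1 := by
    calc x = x ^ (1 : ℝ) := (Real.rpow_one x).symm
      _ ≤ x ^ A1 := Real.rpow_le_rpow_of_exponent_le (by linarith) hA11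
  have hEn : (n : ℝ) ≤ Real.exp (x ^ A1) :=
    calc (n : ℝ) = Real.exp x := hex
      _ ≤ Real.exp (x ^ A1) := Real.exp_le_exp.2 hxA1
  have hXn : 2 * (n : ℝ) ≤ X := by linarith
  have hX0 : 0 < X := by linarith
  set y0 : ℕ := ⌊X⌋₊ with hy0
  have hn10 : (1 : ℝ) ≤ n := by exact_mod_cast hn1
  have hy0a : Real.exp (x ^ A1) ≤ y0 := by
    have h1 := Nat.lt_floor_add_one X
    rw [← hy0] at h1
    have h2 : 1 ≤ Real.exp (x ^ A1) := hn10.trans hEn
    linarith
  have hy0X : (y0 : ℝ) ≤ X := Nat.floor_le hX0.le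
  have hy01 : 1 ≤ y0 := by
    have h1 : (1 : ℝ) ≤ y0 := (hn10.trans hEn).trans hy0a
    exact_mod_cast h1
  set B : ℝ := 2 * n * Real.exp (x ^ A1) with hB
  have hB0 : 0 < B := by positivity
  have hsum : 2 * (n : ℝ) * y0 + 2 * n * B < ∑ w ∈ W (2 * n) n, (1 : ℝ) / dw n w := by
    refine lt_of_lt_of_le ?_ hX2
    have e1 : 2 * (n : ℝ) * y0 ≤ 2 * n * X := mul_le_mul_of_nonneg_left hy0X (by positivity)
    have e2 : 2 * (n : ℝ) * B ≤ 2 * (n : ℝ) ^ 2 * X := by
      rw [hB]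
      have : 2 * (n : ℝ) ^ 2 * (2 * Real.exp (x ^ A1)) ≤ 2 * (n : ℝ) ^ 2 * X :=
        mul_le_mul_of_nonneg_left hX1 (by positivity)
      linarith
    have e3 : 2 * (n : ℝ) * X ≤ 2 * (n : ℝ) ^ 2 * X := by
      apply mul_le_mul_of_nonneg_right _ hX0.le
      nlinarith
    have e4 : 0 < (n : ℝ) ^ 2 * X := by positivity
    linarith
  obtain ⟨y, hy1, hy2, hy3⟩ := exists_range hn1 y0 hy01 B hB0 hsum
  have hyR : Real.exp (x ^ A1) ≤ y := hy0a.trans (by exact_mod_cast hy1)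
  have hypos : (0 : ℝ) < y := lt_of_lt_of_le (Real.exp_pos _) hyR
  have hly : x ^ A1 ≤ Real.log y := by
    rw [Real.le_log_iff_exp_le hypos]; exact hyR
  have hly2 : Real.log y ≤ 1.4 * n := by
    have h1 : (y : ℝ) ≤ 4 ^ n := by exact_mod_cast hy2.le
    have h2 := Real.log_le_log hypos h1
    rw [Real.log_pow] at h2
    have h3 := log_four_lt
    nlinarith
  refine ⟨y, ?_, ?_⟩
  · have h1 : (a : ℝ) ≤ y := by
      have : (a : ℝ) ≤ n := by
        have h0 : a ≤ n := by omega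
        exact_mod_cast h0
      exact this.trans (hEn.trans hyR)
    exact_mod_cast h1
  · have hlx : x ≤ Real.log y := hxA1.trans hly
    have hll0 : 1 ≤ Real.log (Real.log y) := by
      rw [Real.le_log_iff_exp_le (by linarith)]
      have := Real.exp_one_lt_d9
      linarith
    have hll : Real.log (Real.log y) ≤ 2 * x := by
      have h1 := Real.log_le_log (by linarith) hly2
      rw [Real.log_mul (by norm_num) hnR.ne', ← hx] at h1
      have h2 : Real.log 1.4 ≤ 1 := by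
        rw [Real.log_le_iff_le_exp (by norm_num)]
        have := Real.exp_one_gt_d9
        linarith
      linarith
    have hpow : Real.log (Real.log y) ^ A ≤ x ^ A1 := by
      calc Real.log (Real.log y) ^ A ≤ Real.log (Real.log y) ^ |A| :=
            Real.rpow_le_rpow_of_exponent_le hll0 (le_abs_self A)
        _ ≤ (2 * x) ^ |A| := Real.rpow_le_rpow (by linarith) hll hA0
        _ = 2 ^ |A| * x ^ |A| := Real.mul_rpow (by norm_num) (by linarith)
        _ ≤ x * x ^ |A| := mul_le_mul_of_nonneg_right hxA (by positivity)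
        _ = x ^ (|A| + 1) := by rw [Real.rpow_add (by linarith), Real.rpow_one]; ring
        _ ≤ x ^ A1 := Real.rpow_le_rpow_of_exponent_le (by linarith) (by rw [hA1]; linarith)
    have hP : 2 * n ≤ ⌊Real.exp (Real.log y ^ ε)⌋₊ := by
      apply Nat.le_floor
      push_cast
      have h1 : x ^ (2 : ℝ) ≤ Real.log y ^ ε := by
        calc x ^ (2 : ℝ) ≤ x ^ (A1 * ε) := by
              apply Real.rpow_le_rpow_of_exponent_le (by linarith)
              rw [hA1]
              have e1 : 2 / ε * ε = 2 := by field_simp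
              nlinarith
          _ = (x ^ A1) ^ ε := Real.rpow_mul (by linarith) _ _
          _ ≤ Real.log y ^ ε := Real.rpow_le_rpow (by positivity) hly hε.le
      have h2 : Real.log 2 + x ≤ x ^ (2 : ℝ) := by
        have := Real.log_two_lt_d9
        rw [Real.rpow_two]
        nlinarith
      calc (2 : ℝ) * n = Real.exp (Real.log 2 + x) := by
            rw [Real.exp_add, Real.exp_log (by norm_num), ← hex]
        _ ≤ Real.exp (Real.log y ^ ε) := Real.exp_le_exp.2 (h2.trans h1)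
    have h3 := hy3 _ hP
    have h4 : (y : ℝ) * Real.exp (x ^ A1) ≤
        ∑ k ∈ dks y, ((primCycles (k : ℤ) ⌊Real.exp (Real.log y ^ ε)⌋₊).ncard : ℝ) := by
      have h5 : (2 * (n : ℝ)) * ((y : ℝ) * Real.exp (x ^ A1)) ≤ (2 * (n : ℝ)) *
          ∑ k ∈ dks y, ((primCycles (k : ℤ) ⌊Real.exp (Real.log y ^ ε)⌋₊).ncard : ℝ) := by
        refine le_trans (le_of_eq ?_) h3
        rw [hB]; ring
      exact le_of_mul_le_mul_left h5 (by positivity)
    exact (mul_le_mul_of_nonneg_left (Real.exp_le_exp.2 hpow) hypos.le).trans h4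

end Pool.Agent.H621.Avg
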