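import Mathlib
import Pool.Agent.H621.Avg.Primitive

set_option autoImplicit false

/-!
# Many `k` for which the `3x+k` map has many primitive cycles
-/

namespace Pool.Agent.H621.Avg

open Pool.Agent.H621.Osc (T T_odd T_even IsCycle)
open Pool.Agent.H872.Near (c W mem_W card_W rotate_mem k_odd k_pos c_inj c_pos c_nonneg orb mem_orb
  orb_iter per_iter exists_le iter_c)

section divisors

/-! The divisor bound (proof of the library, `Pool.Graph.R_seed8.H510R2.Div`). -/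

theorem prime_pow_aux (ε : ℝ) (hε : 0 < ε) : ∃ C : ℝ, 1 ≤ C ∧ ∀ p : ℕ, 2 ≤ p → ∀ v : ℕ,
    (v : ℝ) + 1 ≤ C * ((p : ℝ) ^ v) ^ ε := by
  set c := ε * Real.log 2 with hc
  have hl2 : 0 < Real.log 2 := Real.log_pos (by norm_num)
  have hc0 : 0 < c := by positivity
  refine ⟨max 1 (1 / c), le_max_left _ _, ?_⟩
  intro p hp v
  have hp' : (2:ℝ) ≤ p := by exact_mod_cast hp
  have h1 : ((2:ℝ) ^ v) ^ ε ≤ ((p:ℝ) ^ v) ^ ε := by
    apply Real.rpow_le_rpow (by positivity) _ hε.le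
    exact pow_le_pow_left₀ (by norm_num) hp' v
  have h2 : 1 + v * c ≤ ((2:ℝ) ^ v) ^ ε := by
    have : ((2:ℝ) ^ v) ^ ε = Real.exp (v * c) := by
      rw [← Real.rpow_natCast, ← Real.rpow_mul (by norm_num), Real.rpow_def_of_pos (by norm_num)]
      congr 1; rw [hc]; ring
    rw [this]
    have := Real.add_one_le_exp (v * c)
    linarith
  have hC : (1:ℝ) ≤ max 1 (1 / c) := le_max_left _ _
  have hC2 : 1 / c ≤ max 1 (1 / c) := le_max_right _ _
  calc (v : ℝ) + 1 = 1 + v * c * (1 / c) := by field_simp; ring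
    _ ≤ max 1 (1/c) * 1 + v * c * max 1 (1 / c) := by
        have : (0:ℝ) ≤ v * c := by positivity
        have := mul_le_mul_of_nonneg_left hC2 this
        linarith
    _ = max 1 (1/c) * (1 + v * c) := by ring
    _ ≤ max 1 (1/c) * ((p:ℝ) ^ v) ^ ε := by
        apply mul_le_mul_of_nonneg_left (h2.trans h1) (by positivity)

/-- divisor bound -/
theorem divisor_bound (ε : ℝ) (hε : 0 < ε) :
    ∃ C : ℝ, 0 < C ∧ ∀ n : ℕ, 1 ≤ n → (n.divisors.card : ℝ) ≤ C * (n : ℝ) ^ ε := by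
  classical
  obtain ⟨C, hC1, hC⟩ := prime_pow_aux ε hε
  obtain ⟨P, hP⟩ := exists_nat_ge ((2:ℝ) ^ (1/ε))
  refine ⟨C ^ P, by positivity, ?_⟩
  intro n hn
  have hn0 : n ≠ 0 := by omega
  rw [Nat.card_divisors hn0]
  push_cast
  have hnprod : (n:ℝ) ^ ε = ∏ p ∈ n.primeFactors, ((p:ℝ) ^ (n.factorization p)) ^ ε := by
    rw [Real.finsetProd_rpow _ _ (fun p _ => by positivity)]
    congr 1
    conv_lhs => rw [← Nat.prod_factorization_pow_eq_self hn0]
    rw [Finsupp.prod]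
    push_cast
    rfl
  have hterm : ∀ p ∈ n.primeFactors, ((n.factorization p : ℝ) + 1) ≤
      (if p < P then C else 1) * ((p:ℝ) ^ (n.factorization p)) ^ ε := by
    intro p hp
    have hpp := Nat.prime_of_mem_primeFactors hp
    split_ifs with h
    · exact hC p hpp.two_le _
    · push Not at h
      have h1 : (2:ℝ) ^ (1/ε) ≤ p := hP.trans (by exact_mod_cast h)
      have h2 : (2:ℝ) ≤ (p:ℝ) ^ ε := by
        have := Real.rpow_le_rpow (by positivity) h1 hε.le
        rwa [← Real.rpow_mul (by norm_num), one_div_mul_cancel hε.ne', Real.rpow_one] at this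
      have h3 : ((p:ℝ) ^ (n.factorization p)) ^ ε = ((p:ℝ) ^ ε) ^ (n.factorization p) := by
        rw [← Real.rpow_natCast, ← Real.rpow_natCast, ← Real.rpow_mul (by positivity),
          ← Real.rpow_mul (by positivity), mul_comm]
      rw [one_mul, h3]
      have h4 : ((n.factorization p : ℝ) + 1) ≤ 2 ^ (n.factorization p) := by
        exact_mod_cast Nat.lt_two_pow_self
      exact h4.trans (pow_le_pow_left₀ (by norm_num) h2 _)
  calc ∏ p ∈ n.primeFactors, ((n.factorization p : ℝ) + 1)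
      ≤ ∏ p ∈ n.primeFactors, ((if p < P then C else 1) * ((p:ℝ) ^ (n.factorization p)) ^ ε) :=
        Finset.prod_le_prod (fun p _ => by positivity) hterm
    _ = (∏ p ∈ n.primeFactors, (if p < P then C else 1)) * (n:ℝ) ^ ε := by
        rw [Finset.prod_mul_distrib, hnprod]
    _ ≤ C ^ P * (n:ℝ) ^ ε := by
        apply mul_le_mul_of_nonneg_right _ (by positivity)
        rw [← Finset.prod_filter, Finset.prod_const]
        apply pow_le_pow_right₀ hC1
        calc _ ≤ (Finset.range P).card := Finset.card_le_card (by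
              intro p hp; rw [Finset.mem_filter] at hp; exact Finset.mem_range.mpr hp.2)
          _ = P := Finset.card_range P


end divisors

section
variable {n : ℕ}

/-- the product of the primes of `L` which divide the numerator of the periodic point of the word -/
noncomputable def gw (L : Finset ℕ) (w : List Bool) : ℕ := by
  classical
  exact ∏ l ∈ L.filter (fun l : ℕ => (l : ℤ) ∣ c w), l

theorem gw_dvd (L : Finset ℕ) (hLp : ∀ l ∈ L, l.Prime) (hLd : ∀ l ∈ L, l ∣ 4 ^ n - 3 ^ n) (w : List Bool) :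
    gw L w ∣ Nat.gcd (c w).natAbs (4 ^ n - 3 ^ n) := by
  classical
  unfold gw
  apply Finset.prod_primes_dvd
  · intro l hl; exact (hLp l (Finset.mem_filter.1 hl).1).prime
  · intro l hl
    apply Nat.dvd_gcd
    · exact Int.natCast_dvd.1 (Finset.mem_filter.1 hl).2
    · exact hLd l (Finset.mem_filter.1 hl).1

theorem gw_mul_le (hn : 1 ≤ n) (L : Finset ℕ) (hLp : ∀ l ∈ L, l.Prime)
    (hLd : ∀ l ∈ L, l ∣ 4 ^ n - 3 ^ n) (w : List Bool) : gw L w * dw n w ≤ 4 ^ n := by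
  have hD := Dn_pos hn
  have h1 : gw L w ≤ Nat.gcd (c w).natAbs (4 ^ n - 3 ^ n) :=
    Nat.le_of_dvd (Nat.gcd_pos_of_pos_right _ hD) (gw_dvd L hLp hLd w)
  calc gw L w * dw n w ≤ Nat.gcd (c w).natAbs (4 ^ n - 3 ^ n) * dw n w := Nat.mul_le_mul_right _ h1
    _ = 4 ^ n - 3 ^ n := by rw [mul_comm]; exact dw_mul n w
    _ ≤ 4 ^ n := Nat.sub_le _ _

theorem gw_le (L : Finset ℕ) (hLp : ∀ l ∈ L, l.Prime) (w : List Bool) : gw L w ≤ ∏ l ∈ L, l := by
  classical
  unfold gw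
  exact Nat.le_of_dvd (Finset.prod_pos fun l hl => (hLp l hl).pos)
    (Finset.prod_dvd_prod_of_subset _ _ _ (Finset.filter_subset _ _))

/-- the products of the primes of `L` which divide the numerators are large on average -/
theorem gw_sum (hn : 1 ≤ n) (L : Finset ℕ) (hLp : ∀ l ∈ L, l.Prime) (hL5 : ∀ l ∈ L, 5 ≤ l)
    (hLd : ∀ l ∈ L, l ∣ 4 ^ n - 3 ^ n) (Λ : ℝ) (hΛ : ((∏ l ∈ L, l : ℕ) : ℝ) ≤ Real.exp Λ)
    (hsmall : 8 * Real.exp Λ * n * (1 - 1 / (32768 * Λ)) ^ n ≤ 1) :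
    (Nat.centralBinom n : ℝ) / 2 * (9 / 5) ^ L.card ≤
      ∑ w ∈ W (2 * n) n, (gw L w : ℝ) := by
  classical
  have hlt : 3 ^ n < 4 ^ n := Nat.pow_lt_pow_left (by norm_num) (by omega)
  have hDpos : 0 < 4 ^ n - 3 ^ n := by omega
  -- the gcd of one word
  have h1 : ∀ w ∈ W (2 * n) n, ∑ S ∈ L.powerset,
      (if ((∏ l ∈ S, l : ℕ) : ℤ) ∣ c w then (∏ l ∈ S, ((l : ℝ) - 1)) else 0) ≤
      (gw L w : ℝ) := by
    intro w _
    set B := L.filter fun l : ℕ => (l : ℤ) ∣ c w with hB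
    have hBL : B ⊆ L := Finset.filter_subset _ _
    have e3 : (gw L w : ℝ) = ((∏ l ∈ B, l : ℕ) : ℝ) := by
      rw [hB]
      unfold gw
      congr!
    rw [e3]
    have e4 : ((∏ l ∈ B, l : ℕ) : ℝ) = ∑ S ∈ B.powerset, ∏ l ∈ S, ((l : ℝ) - 1) := by
      rw [← Finset.prod_one_add]
      push_cast
      apply Finset.prod_congr rfl
      intro l _
      ring
    rw [e4, ← Finset.sum_filter]
    apply Finset.sum_le_sum_of_subset_of_nonneg
    · intro S hS
      obtain ⟨hS1, hS2⟩ := Finset.mem_filter.1 hS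
      rw [Finset.mem_powerset] at hS1 ⊢
      intro l hl
      rw [hB, Finset.mem_filter]
      refine ⟨hS1 hl, ?_⟩
      refine dvd_trans ?_ hS2
      exact_mod_cast Finset.dvd_prod_of_mem (fun l : ℕ => l) hl
    · intro S hS _
      rw [Finset.mem_powerset] at hS
      apply Finset.prod_nonneg
      intro l hl
      have : (5 : ℝ) ≤ l := by exact_mod_cast hL5 l (hBL (hS hl))
      linarith
  have h2 : ∀ S ∈ L.powerset, (∏ l ∈ S, (((l : ℝ) - 1) / l)) * ((Nat.centralBinom n : ℝ) / 2) ≤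
      (∏ l ∈ S, ((l : ℝ) - 1)) *
      (((W (2 * n) n).filter fun w => ((∏ l ∈ S, l : ℕ) : ℤ) ∣ c w).card : ℝ) := by
    intro S hS
    rw [Finset.mem_powerset] at hS
    set g : ℕ := ∏ l ∈ S, l with hg
    have hgpos : 0 < g := Finset.prod_pos fun l hl => (hLp l (hS hl)).pos
    have hgR : (0 : ℝ) < g := by exact_mod_cast hgpos
    have hcount : (Nat.centralBinom n : ℝ) ≤
        2 * g * (((W (2 * n) n).filter fun w => (g : ℤ) ∣ c w).card : ℝ) := by
      rcases S.eq_empty_or_nonempty with hSe | hSe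
      · have hg1 : g = 1 := by rw [hg, hSe]; simp
        rw [hg1]
        simp only [Nat.cast_one, one_dvd, Finset.filter_true]
        rw [card_W, Nat.centralBinom]
        have : (0 : ℝ) ≤ ((2 * n).choose n : ℝ) := Nat.cast_nonneg _
        linarith
      · obtain ⟨l0, hl0⟩ := hSe
        have hg5 : 5 ≤ g := by
          have h5 := hL5 l0 (hS hl0)
          have := Nat.le_of_dvd hgpos (Finset.dvd_prod_of_mem (fun l : ℕ => l) hl0)
          omega
        have : NeZero g := ⟨by omega⟩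
        have hc2 : Nat.Coprime g 2 := by
          rw [hg]
          apply Nat.Coprime.prod_left
          intro l hl
          have h5 := hL5 l (hS hl)
          rw [Nat.coprime_primes (hLp l (hS hl)) Nat.prime_two]
          omega
        have hc3 : Nat.Coprime g 3 := by
          rw [hg]
          apply Nat.Coprime.prod_left
          intro l hl
          have h5 := hL5 l (hS hl)
          rw [Nat.coprime_primes (hLp l (hS hl)) Nat.prime_three]
          omega
        apply equi g hg5 hc2 hc3 n hn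
        have hgle : (g : ℝ) ≤ Real.exp Λ := by
          refine le_trans ?_ hΛ
          have hdvd : g ∣ ∏ l ∈ L, l := Finset.prod_dvd_prod_of_subset _ _ _ hS
          have := Nat.le_of_dvd (Finset.prod_pos fun l hl => (hLp l hl).pos) hdvd
          exact_mod_cast this
        have hlogg : Real.log g ≤ Λ := by
          rw [Real.log_le_iff_le_exp hgR]; exact hgle
        have hlog1 : 1 ≤ Real.log g := log_five.trans
          (Real.log_le_log (by norm_num) (by exact_mod_cast hg5))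
        have hdl : 1 / (32768 * Λ) ≤ del g := by
          unfold del
          apply one_div_le_one_div_of_le (by linarith)
          linarith
        have hd1 := del_le g hg5
        have hpow : (1 - del g) ^ n ≤ (1 - 1 / (32768 * Λ)) ^ n := by
          apply pow_le_pow_left₀ (by linarith)
          linarith
        have hnn : (0 : ℝ) ≤ (1 - del g) ^ n := by apply pow_nonneg; linarith
        calc 8 * (g : ℝ) * n * (1 - del g) ^ n
            ≤ 8 * Real.exp Λ * n * (1 - 1 / (32768 * Λ)) ^ n := by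
              apply mul_le_mul _ hpow hnn (by positivity)
              apply mul_le_mul_of_nonneg_right _ (Nat.cast_nonneg _)
              linarith
          _ ≤ 1 := hsmall
    have hfac : (∏ l ∈ S, (((l : ℝ) - 1) / l)) = (∏ l ∈ S, ((l : ℝ) - 1)) / g := by
      rw [Finset.prod_div_distrib, hg]
      push_cast
      rfl
    have hnn : 0 ≤ ∏ l ∈ S, ((l : ℝ) - 1) := by
      apply Finset.prod_nonneg
      intro l hl
      have : (5 : ℝ) ≤ l := by exact_mod_cast hL5 l (hS hl)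
      linarith
    rw [hfac, div_mul_eq_mul_div, div_le_iff₀ hgR, mul_assoc]
    apply mul_le_mul_of_nonneg_left _ hnn
    linarith
  have h3 : (9 / 5 : ℝ) ^ L.card ≤ ∏ l ∈ L, (1 + ((l : ℝ) - 1) / l) := by
    rw [← Finset.prod_const]
    apply Finset.prod_le_prod
    · intro _ _; norm_num
    · intro l hl
      have h5 : (5 : ℝ) ≤ l := by exact_mod_cast hL5 l hl
      have : (4 : ℝ) / 5 ≤ ((l : ℝ) - 1) / l := by
        rw [le_div_iff₀ (by linarith)]; linarith
      linarith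
  calc (Nat.centralBinom n : ℝ) / 2 * (9 / 5) ^ L.card
      ≤ (Nat.centralBinom n : ℝ) / 2 * ∏ l ∈ L, (1 + ((l : ℝ) - 1) / l) :=
        mul_le_mul_of_nonneg_left h3 (by positivity)
    _ = ∑ S ∈ L.powerset, (∏ l ∈ S, (((l : ℝ) - 1) / l)) * ((Nat.centralBinom n : ℝ) / 2) := by
        rw [Finset.prod_one_add, Finset.mul_sum]
        apply Finset.sum_congr rfl
        intro S _
        ring
    _ ≤ ∑ S ∈ L.powerset, (∏ l ∈ S, ((l : ℝ) - 1)) *
        (((W (2 * n) n).filter fun w => ((∏ l ∈ S, l : ℕ) : ℤ) ∣ c w).card : ℝ) :=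
        Finset.sum_le_sum h2
    _ = ∑ S ∈ L.powerset, ∑ w ∈ W (2 * n) n,
        (if ((∏ l ∈ S, l : ℕ) : ℤ) ∣ c w then (∏ l ∈ S, ((l : ℝ) - 1)) else 0) := by
        apply Finset.sum_congr rfl
        intro S _
        rw [← Finset.sum_filter, Finset.sum_const, nsmul_eq_mul]
        ring
    _ = ∑ w ∈ W (2 * n) n, ∑ S ∈ L.powerset,
        (if ((∏ l ∈ S, l : ℕ) : ℤ) ∣ c w then (∏ l ∈ S, ((l : ℝ) - 1)) else 0) :=
        Finset.sum_comm
    _ ≤ _ := Finset.sum_le_sum h1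


open Classical in
/-- counting the divisors of `4^n - 3^n` which are the denominators of many words -/
theorem count_good (hn : 1 ≤ n) (L : Finset ℕ) (hLp : ∀ l ∈ L, l.Prime) (hL5 : ∀ l ∈ L, 5 ≤ l)
    (hLd : ∀ l ∈ L, l ∣ 4 ^ n - 3 ^ n) (Λ : ℝ) (hΛ : ((∏ l ∈ L, l : ℕ) : ℝ) ≤ Real.exp Λ)
    (hsmall : 8 * Real.exp Λ * n * (1 - 1 / (32768 * Λ)) ^ n ≤ 1) (P : ℕ) (hP : 2 * n ≤ P)
    (R τ : ℝ) (hR : 0 ≤ R) (hτ : ((4 ^ n - 3 ^ n).divisors.card : ℝ) ≤ τ)
    (hbad : τ * (2 * n * R * Real.exp Λ) ≤ (Nat.centralBinom n : ℝ) / 4 * (9 / 5) ^ L.card) :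
    (Nat.centralBinom n : ℝ) / 4 * (9 / 5) ^ L.card ≤
      (((4 ^ n - 3 ^ n).divisors.filter fun d : ℕ => R ≤ (d : ℝ) ∧
        R ≤ ((primCycles (d : ℤ) P).ncard : ℝ)).card : ℝ) * (2 * n * 4 ^ n) := by
  set Dv := (4 ^ n - 3 ^ n).divisors with hDv
  have hD := Dn_pos hn
  have hsum := gw_sum hn L hLp hL5 hLd Λ hΛ hsmall
  have hmaps : ∀ w ∈ W (2 * n) n, dw n w ∈ Dv := by
    intro w _
    rw [hDv, Nat.mem_divisors]
    exact ⟨dw_dvd n w, hD.ne'⟩
  have hnR : (0 : ℝ) < n := by exact_mod_cast (show 0 < n by omega)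
  have hfib : ∀ d ∈ Dv, ∑ w ∈ (W (2 * n) n).filter (fun w => dw n w = d), (gw L w : ℝ) ≤
      (if R ≤ (d : ℝ) ∧ R ≤ ((primCycles (d : ℤ) P).ncard : ℝ) then (2 * (n : ℝ) * 4 ^ n) else (0 : ℝ)) +
        2 * n * R * Real.exp Λ := by
    intro d hd
    have hd0 : 0 < d := Nat.pos_of_mem_divisors hd
    have hdR : (0 : ℝ) < d := by exact_mod_cast hd0
    have hf1 : (((W (2 * n) n).filter fun w => dw n w = d).card : ℝ) ≤ 2 * n * d := by
      exact_mod_cast count_small hn d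
    have hf2 : (((W (2 * n) n).filter fun w => dw n w = d).card : ℝ) ≤
        2 * n * ((primCycles (d : ℤ) P).ncard : ℝ) := by
      exact_mod_cast count_prim hn d P hP
    by_cases hg : R ≤ (d : ℝ) ∧ R ≤ ((primCycles (d : ℤ) P).ncard : ℝ)
    · rw [if_pos hg]
      have h1 : ∀ w ∈ (W (2 * n) n).filter (fun w => dw n w = d), (gw L w : ℝ) ≤ 4 ^ n / d := by
        intro w hw
        rw [le_div_iff₀ hdR]
        have h2 := gw_mul_le hn L hLp hLd w
        rw [(Finset.mem_filter.1 hw).2] at h2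
        exact_mod_cast h2
      have h3 := Finset.sum_le_card_nsmul _ _ _ h1
      rw [nsmul_eq_mul] at h3
      have h4 : (((W (2 * n) n).filter fun w => dw n w = d).card : ℝ) * (4 ^ n / d) ≤
          (2 * n * d) * (4 ^ n / d) := mul_le_mul_of_nonneg_right hf1 (by positivity)
      have h5 : (2 * (n : ℝ) * d) * (4 ^ n / d) = 2 * n * 4 ^ n := by field_simp
      have h6 : 0 ≤ 2 * n * R * Real.exp Λ := by positivity
      linarith
    · rw [if_neg hg, zero_add]
      have h1 : ∀ w ∈ (W (2 * n) n).filter (fun w => dw n w = d), (gw L w : ℝ) ≤ Real.exp Λ := by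
        intro w _
        refine le_trans ?_ hΛ
        exact_mod_cast gw_le L hLp w
      have h3 := Finset.sum_le_card_nsmul _ _ _ h1
      rw [nsmul_eq_mul] at h3
      refine h3.trans (mul_le_mul_of_nonneg_right ?_ (Real.exp_pos _).le)
      rw [not_and_or, not_le, not_le] at hg
      rcases hg with hg | hg
      · exact hf1.trans (mul_le_mul_of_nonneg_left hg.le (by positivity))
      · exact hf2.trans (mul_le_mul_of_nonneg_left hg.le (by positivity))
  have htot : ∑ w ∈ W (2 * n) n, (gw L w : ℝ) ≤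
      ((Dv.filter fun d : ℕ => R ≤ (d : ℝ) ∧ R ≤ ((primCycles (d : ℤ) P).ncard : ℝ)).card : ℝ) *
        (2 * n * 4 ^ n) + τ * (2 * n * R * Real.exp Λ) := by
    rw [← Finset.sum_fiberwise_of_maps_to hmaps]
    refine (Finset.sum_le_sum hfib).trans ?_
    rw [Finset.sum_add_distrib, ← Finset.sum_filter, Finset.sum_const, Finset.sum_const,
      nsmul_eq_mul, nsmul_eq_mul]
    have h6 : 0 ≤ 2 * n * R * Real.exp Λ := by positivity
    have h7 := mul_le_mul_of_nonneg_right hτ h6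
    linarith
  linarith

end

/-- the smallness of the share of the denominators of few words -/
theorem small_bad (ε : ℝ) (hε0 : 0 < ε) : ∃ n₀ : ℕ, ∀ n M y : ℕ, n₀ ≤ n → M ^ 3 ≤ 2 * n →
    1 ≤ y → y ≤ 4 ^ (n + M) → ε < 1 → ∀ Lc : ℕ,
    ∃ τ : ℝ, ((4 ^ n - 3 ^ n).divisors.card : ℝ) ≤ τ ∧
      τ * (2 * n * (y : ℝ) ^ (1 - ε) * Real.exp (M * Real.log 4)) ≤
        (Nat.centralBinom n : ℝ) / 4 * (9 / 5) ^ Lc := by
  obtain ⟨C, hC, hdiv⟩ := divisor_bound (ε / 4) (by positivity)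
  have hl4 : 0 < Real.log 4 := Real.log_pos (by norm_num)
  set r : ℝ := Real.exp (Real.log 4 * ε / 2) with hr
  have hr1 : 1 < r := by
    rw [hr]; exact Real.one_lt_exp_iff.2 (by positivity)
  have ht := tendsto_pow_const_div_const_pow_of_one_lt 2 hr1
  have h1 : ∀ᶠ n : ℕ in Filter.atTop, (n : ℝ) ^ 2 / r ^ n < 1 / (16 * C) :=
    ht.eventually_lt_const (by positivity)
  obtain ⟨n1, hn1⟩ := Filter.eventually_atTop.1 h1
  obtain ⟨n2, hn2⟩ := exists_nat_ge (1024 / ε ^ 3)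
  refine ⟨n1 + n2 + 1, fun n M y hn hM hy1 hy hε1 Lc => ⟨C * Real.exp (n * Real.log 4 * (ε / 4)), ?_, ?_⟩⟩
  · have hD := Dn_pos (n := n) (by omega)
    refine (hdiv _ hD).trans (mul_le_mul_of_nonneg_left ?_ hC.le)
    have h2 : (((4 ^ n - 3 ^ n : ℕ)) : ℝ) ≤ 4 ^ n := by
      exact_mod_cast Nat.sub_le (4 ^ n) (3 ^ n)
    calc (((4 ^ n - 3 ^ n : ℕ)) : ℝ) ^ (ε / 4) ≤ ((4 : ℝ) ^ n) ^ (ε / 4) :=
          Real.rpow_le_rpow (Nat.cast_nonneg _) h2 (by positivity)
      _ = Real.exp (n * Real.log 4 * (ε / 4)) := by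
          rw [Real.rpow_def_of_pos (by positivity), Real.log_pow]
  · have hnR : (0 : ℝ) < n := by exact_mod_cast (show 0 < n by omega)
    have hcb : (4 : ℝ) ^ n ≤ 2 * n * Nat.centralBinom n := by
      exact_mod_cast Nat.four_pow_le_two_mul_self_mul_centralBinom n (by omega)
    have h4n : (4 : ℝ) ^ n = Real.exp (n * Real.log 4) := by
      rw [Real.exp_nat_mul, Real.exp_log (by norm_num)]
    -- `8 M ≤ ε n`
    have h8M : 8 * (M : ℝ) ≤ ε * n := by
      by_contra hcon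
      push Not at hcon
      have a1 : (ε * n) ^ 3 < (8 * (M : ℝ)) ^ 3 := pow_lt_pow_left₀ hcon (by positivity) (by norm_num)
      have a2 : (M : ℝ) ^ 3 ≤ 2 * n := by exact_mod_cast hM
      have a3 : 1024 / ε ^ 3 ≤ n := by
        refine hn2.trans ?_
        exact_mod_cast (show n2 ≤ n by omega)
      rw [div_le_iff₀ (by positivity)] at a3
      have a4 : (1 : ℝ) ≤ n := by exact_mod_cast (show 1 ≤ n by omega)
      have a5 : 1024 * (n : ℝ) ≤ (n * ε ^ 3) * n := mul_le_mul_of_nonneg_right a3 hnR.le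
      have a6 : (n * ε ^ 3) * (n : ℝ) ≤ (n * ε ^ 3) * n * n := by
        have : 0 ≤ (n * ε ^ 3) * (n : ℝ) := by positivity
        nlinarith
      have a7 : (ε * n) ^ 3 = (n * ε ^ 3) * n * n := by ring
      have a8 : (8 * (M : ℝ)) ^ 3 = 512 * (M : ℝ) ^ 3 := by ring
      linarith
    have hyp : (y : ℝ) ^ (1 - ε) ≤ Real.exp (((n : ℝ) + M) * Real.log 4 * (1 - ε)) := by
      have h2 : (y : ℝ) ≤ (4 : ℝ) ^ (n + M) := by exact_mod_cast hy
      calc (y : ℝ) ^ (1 - ε) ≤ ((4 : ℝ) ^ (n + M)) ^ (1 - ε) :=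
            Real.rpow_le_rpow (Nat.cast_nonneg _) h2 (by linarith)
        _ = _ := by
            rw [Real.rpow_def_of_pos (by positivity), Real.log_pow]
            push_cast
            ring_nf
    have h16 : 16 * C * (n : ℝ) ^ 2 ≤ Real.exp (n * (Real.log 4 * ε / 2)) := by
      have h2 := hn1 n (by omega)
      have h3 : r ^ n = Real.exp (n * (Real.log 4 * ε / 2)) := by
        rw [hr, ← Real.exp_nat_mul]
      rw [h3] at h2
      rw [div_lt_div_iff₀ (Real.exp_pos _) (by positivity)] at h2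
      linarith
    have hexpo : n * Real.log 4 * (ε / 4) + ((n : ℝ) + M) * Real.log 4 * (1 - ε) + M * Real.log 4 +
        n * (Real.log 4 * ε / 2) ≤ n * Real.log 4 := by
      have h2 : n * Real.log 4 - (n * Real.log 4 * (ε / 4) + ((n : ℝ) + M) * Real.log 4 * (1 - ε) +
          M * Real.log 4 + n * (Real.log 4 * ε / 2)) =
          Real.log 4 * ((ε * n - 8 * M) / 4 + ε * M) := by ring
      have h3 : 0 ≤ Real.log 4 * ((ε * n - 8 * M) / 4 + ε * M) := by
        apply mul_nonneg hl4.le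
        have : 0 ≤ ε * (M : ℝ) := by positivity
        linarith
      linarith
    have h95 : (1 : ℝ) ≤ (9 / 5) ^ Lc := one_le_pow₀ (by norm_num)
    have hmain : C * Real.exp (n * Real.log 4 * (ε / 4)) *
        (2 * n * (y : ℝ) ^ (1 - ε) * Real.exp (M * Real.log 4)) * (8 * n) ≤ (4 : ℝ) ^ n := by
      calc C * Real.exp (n * Real.log 4 * (ε / 4)) *
            (2 * n * (y : ℝ) ^ (1 - ε) * Real.exp (M * Real.log 4)) * (8 * n)
          ≤ C * Real.exp (n * Real.log 4 * (ε / 4)) *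
            (2 * n * Real.exp (((n : ℝ) + M) * Real.log 4 * (1 - ε)) * Real.exp (M * Real.log 4)) *
              (8 * n) := by gcongr
        _ = (16 * C * (n : ℝ) ^ 2) * Real.exp (n * Real.log 4 * (ε / 4) +
            ((n : ℝ) + M) * Real.log 4 * (1 - ε) + M * Real.log 4) := by
            rw [Real.exp_add, Real.exp_add]; ring
        _ ≤ Real.exp (n * (Real.log 4 * ε / 2)) * Real.exp (n * Real.log 4 * (ε / 4) +
            ((n : ℝ) + M) * Real.log 4 * (1 - ε) + M * Real.log 4) :=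
            mul_le_mul_of_nonneg_right h16 (Real.exp_pos _).le
        _ = Real.exp (n * Real.log 4 * (ε / 4) + ((n : ℝ) + M) * Real.log 4 * (1 - ε) +
            M * Real.log 4 + n * (Real.log 4 * ε / 2)) := by
            rw [← Real.exp_add]; ring_nf
        _ ≤ Real.exp (n * Real.log 4) := Real.exp_le_exp.2 hexpo
        _ = (4 : ℝ) ^ n := h4n.symm
    have hcb0 : (0 : ℝ) ≤ Nat.centralBinom n := Nat.cast_nonneg _
    have h5 : C * Real.exp (n * Real.log 4 * (ε / 4)) *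
        (2 * n * (y : ℝ) ^ (1 - ε) * Real.exp (M * Real.log 4)) ≤ (Nat.centralBinom n : ℝ) / 4 := by
      have h6 : C * Real.exp (n * Real.log 4 * (ε / 4)) *
          (2 * n * (y : ℝ) ^ (1 - ε) * Real.exp (M * Real.log 4)) * (8 * n) ≤
          ((Nat.centralBinom n : ℝ) / 4) * (8 * n) := by
        refine (hmain.trans hcb).trans (le_of_eq ?_)
        ring
      exact le_of_mul_le_mul_right h6 (by positivity)
    refine h5.trans ?_
    have : 0 ≤ (Nat.centralBinom n : ℝ) / 4 := by positivity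
    nlinarith

/-- **Many `k` with many primitive cycles.** -/
theorem many_core (A ε : ℝ) (hε0 : 0 < ε) (hε1 : ε < 1) : ∃ P₀ : ℕ, ∀ P y : ℕ, P₀ ≤ P →
    2 ^ P ≤ y → y < 2 ^ (P + 1) → Real.exp (Real.log P ^ A) ≤
      (Set.ncard {k : ℕ | k ≤ y ∧ (k % 6 = 1 ∨ k % 6 = 5) ∧ (y : ℝ) ^ (1 - ε) ≤ k ∧
        (y : ℝ) ^ (1 - ε) ≤ ((primCycles (k : ℤ) P).ncard : ℝ)} : ℝ) := by
  classical
  obtain ⟨n₀, hn₀⟩ := small_bad ε hε0
  set r : ℕ := ⌈|A|⌉₊ + 2 with hr
  obtain ⟨Q, hQ0, hQr, hbig⟩ := exists_Q r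
  have hr2 : 2 ≤ r := by omega
  have hQ2 : 2 ≤ Q := by
    have h1 : Q.primeFactors.Nonempty := by
      rw [← Finset.card_pos, hQr]; omega
    obtain ⟨q, hq⟩ := h1
    exact (Nat.prime_of_mem_primeFactors hq).two_le.trans
      (Nat.le_of_dvd (Nat.pos_of_ne_zero hQ0) (Nat.dvd_of_mem_primeFactors hq))
  have hQR : (2 : ℝ) ≤ Q := by exact_mod_cast hQ2
  have hlQ : 0 < Real.log Q := Real.log_pos (by linarith)
  set c1 : ℝ := 6 * Real.log Q with hc1
  have hc10 : 0 < c1 := by positivity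
  set c0 : ℝ := 2 * Q + 4 with hc0
  have hc00 : 0 ≤ c0 := by positivity
  set x0 : ℝ := max 1 (2 * c1 ^ r * (8 + c0)) with hx0
  refine ⟨max (max (⌈Real.exp x0⌉₊) (10 ^ 20)) (4 * Q ^ 3 + 4 + (4 * n₀ + 4)), ?_⟩
  intro P y hP hy1 hy2
  have hP1 : ⌈Real.exp x0⌉₊ ≤ P := (le_max_left _ _).trans ((le_max_left _ _).trans hP)
  have hP2 : 10 ^ 20 ≤ P := (le_max_right _ _).trans ((le_max_left _ _).trans hP)
  have hP3 : 4 * Q ^ 3 + 4 + (4 * n₀ + 4) ≤ P := (le_max_right _ _).trans hP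
  set N := P / 2 with hN
  have hN1 : Q ^ 3 ≤ N := by omega
  have hN2 : 10 ^ 19 * 5 ≤ N := by omega
  set s := Nat.log Q N / 3 with hs
  have hlog3 : 3 ≤ Nat.log Q N := by
    apply Nat.le_log_of_pow_le (by omega) hN1
  have hs1 : 1 ≤ s := by omega
  set M := Q ^ s with hM
  have hMpos : 1 ≤ M := Nat.one_le_pow _ _ (by omega)
  have hM2 : 2 ≤ M := by
    calc 2 ≤ Q := hQ2
      _ = Q ^ 1 := (pow_one Q).symm
      _ ≤ Q ^ s := Nat.pow_le_pow_right (by omega) hs1
  have hM3 : M ^ 3 ≤ N := by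
    rw [hM, ← pow_mul]
    calc Q ^ (s * 3) ≤ Q ^ Nat.log Q N := Nat.pow_le_pow_right (by omega) (by omega)
      _ ≤ N := Nat.pow_log_le_self Q (by omega)
  set n := M * (N / M) with hn
  have hnN : n ≤ N := Nat.mul_div_le N M
  have hnlow : N < n + M := by
    have := Nat.lt_mul_div_succ N (show 0 < M by omega)
    rw [hn]
    rw [Nat.mul_succ] at this
    exact this
  have h4M : 4 * M ≤ M ^ 3 := by
    have : M ^ 3 = M * M * M := by ring
    rw [this]
    have h4 : 4 ≤ M * M := Nat.mul_le_mul hM2 hM2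
    exact Nat.mul_le_mul_right _ h4
  have hn2 : N ≤ 2 * n := by omega
  have hn19 : 10 ^ 19 ≤ n := by omega
  have hn1 : 1 ≤ n := by omega
  obtain ⟨L, hLp, hL5, hLd, hLcard⟩ := many_primes r Q s (by omega) hQ0 hQr hbig hs1
  have hMdn : M ∣ n := ⟨N / M, rfl⟩
  have hLd' : ∀ l ∈ L, l ∣ 4 ^ n - 3 ^ n := fun l hl => (hLd l hl).trans (D_dvd hMdn)
  have hprod : ((∏ l ∈ L, l : ℕ) : ℝ) ≤ Real.exp (M * Real.log 4) := by
    have h1 : (∏ l ∈ L, l) ∣ D M := Finset.prod_primes_dvd _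
      (fun l hl => (hLp l hl).prime) (fun l hl => hLd l hl)
    have h2 : (∏ l ∈ L, l) ≤ 4 ^ M := (Nat.le_of_dvd (D_pos M hMpos) h1).trans (D_le M)
    have h3 : Real.exp (M * Real.log 4) = 4 ^ M := by
      rw [Real.exp_nat_mul, Real.exp_log (by norm_num)]
    rw [h3]
    exact_mod_cast h2
  have hsmall := small_cond M n hMpos (hM3.trans hn2) hn19
  have hcond : y ≤ 4 ^ (n + M) := by
    have h1 : 2 ^ (P + 1) ≤ 4 ^ (n + M) := by
      rw [show (4 : ℕ) = 2 ^ 2 by norm_num, ← pow_mul]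
      exact Nat.pow_le_pow_right (by norm_num) (by omega)
    omega
  have hypos : 1 ≤ y := le_trans (Nat.one_le_two_pow) hy1
  obtain ⟨τ, hτ, hbad⟩ := hn₀ n M y (by omega) (hM3.trans hn2) hypos hcond hε1 L.card
  have hgood := count_good hn1 L hLp hL5 hLd' (M * Real.log 4) hprod hsmall P (by omega)
    ((y : ℝ) ^ (1 - ε)) τ (by positivity) hτ hbad
  set Gd := (4 ^ n - 3 ^ n).divisors.filter fun d : ℕ => (y : ℝ) ^ (1 - ε) ≤ (d : ℝ) ∧
        (y : ℝ) ^ (1 - ε) ≤ ((primCycles (d : ℤ) P).ncard : ℝ) with hGd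
  have hnR : (0 : ℝ) < n := by exact_mod_cast (show 0 < n by omega)
  have hsub : (Gd.card : ℝ) ≤ (Set.ncard {k : ℕ | k ≤ y ∧ (k % 6 = 1 ∨ k % 6 = 5) ∧
      (y : ℝ) ^ (1 - ε) ≤ k ∧ (y : ℝ) ^ (1 - ε) ≤ ((primCycles (k : ℤ) P).ncard : ℝ)} : ℝ) := by
    rw [← Set.ncard_coe_finset]
    refine Nat.cast_le.2 (Set.ncard_le_ncard ?_ ((Set.finite_Iic y).subset fun k hk => hk.1))
    intro d hd
    rw [Finset.mem_coe, hGd, Finset.mem_filter, Nat.mem_divisors] at hd
    obtain ⟨⟨hd1, hd2⟩, hd3, hd4⟩ := hd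
    refine ⟨?_, ?_, hd3, hd4⟩
    · have h1 : d ≤ 4 ^ n := (Nat.le_of_dvd (Dn_pos hn1) hd1).trans (Nat.sub_le _ _)
      have h2 : 4 ^ n ≤ 2 ^ P := by
        rw [show (4 : ℕ) = 2 ^ 2 by norm_num, ← pow_mul]
        exact Nat.pow_le_pow_right (by norm_num) (by omega)
      omega
    · have h3 := mod6 n hn1
      have e2 : ¬ 2 ∣ d := fun h => by
        have := h.trans hd1
        omega
      have e3 : ¬ 3 ∣ d := fun h => by
        have := h.trans hd1
        omega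
      omega
  refine le_trans ?_ hsub
  have hcb : (4 : ℝ) ^ n ≤ 2 * n * Nat.centralBinom n := by
    exact_mod_cast Nat.four_pow_le_two_mul_self_mul_centralBinom n (by omega)
  have h95 : (0 : ℝ) < (9 / 5) ^ L.card := by positivity
  have hG : (9 / 5 : ℝ) ^ L.card ≤ (Gd.card : ℝ) * (16 * (n : ℝ) ^ 2) := by
    have h1 : (4 : ℝ) ^ n * (9 / 5) ^ L.card ≤ (4 : ℝ) ^ n * ((Gd.card : ℝ) * (16 * (n : ℝ) ^ 2)) := by
      calc (4 : ℝ) ^ n * (9 / 5) ^ L.card
          ≤ (2 * n * Nat.centralBinom n) * (9 / 5) ^ L.card := mul_le_mul_of_nonneg_right hcb h95.le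
        _ = ((Nat.centralBinom n : ℝ) / 4 * (9 / 5) ^ L.card) * (8 * n) := by ring
        _ ≤ ((Gd.card : ℝ) * (2 * n * 4 ^ n)) * (8 * n) :=
          mul_le_mul_of_nonneg_right hgood (by positivity)
        _ = (4 : ℝ) ^ n * ((Gd.card : ℝ) * (16 * (n : ℝ) ^ 2)) := by ring
    exact le_of_mul_le_mul_left h1 (by positivity)
  -- real inequalities
  have hPR : (0 : ℝ) < P := by exact_mod_cast (show 0 < P by omega)
  set x := Real.log P with hx
  have hxx0 : x0 ≤ x := by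
    rw [hx, Real.le_log_iff_exp_le hPR]
    exact (Nat.le_ceil _).trans (by exact_mod_cast hP1)
  have hx1 : 1 ≤ x := (le_max_left _ _).trans hxx0
  have hx2 : 2 * c1 ^ r * (8 + c0) ≤ x := (le_max_right _ _).trans hxx0
  -- `s + 1` is large
  have hs2 : x / c1 ≤ (s : ℝ) + 1 := by
    have h1 : N < Q ^ (3 * (s + 1)) := by
      have h0 : (Nat.log Q N).succ ≤ 3 * (s + 1) := by
        have := Nat.lt_mul_div_succ (Nat.log Q N) (show 0 < 3 by norm_num)
        rw [← hs] at this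
        exact this
      have h1' : 1 < Q := hQ2
      exact (Nat.lt_pow_succ_log_self h1' N).trans_le (Nat.pow_le_pow_right (by omega) h0)
    have h2 : P ≤ N ^ 2 := by
      have h3 : P ≤ 2 * N + 1 := by omega
      have h4 : 3 ≤ N := by omega
      nlinarith
    have h4 : (P : ℝ) ≤ ((Q : ℝ) ^ (3 * (s + 1))) ^ 2 := by
      have h5 : (N : ℝ) ≤ (Q : ℝ) ^ (3 * (s + 1)) := by exact_mod_cast h1.le
      have h6 : (P : ℝ) ≤ (N : ℝ) ^ 2 := by exact_mod_cast h2
      exact h6.trans (pow_le_pow_left₀ (Nat.cast_nonneg _) h5 2)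
    have h7 : x ≤ 2 * ((3 * (s + 1) : ℕ) * Real.log Q) := by
      rw [hx]
      refine (Real.log_le_log hPR h4).trans (le_of_eq ?_)
      rw [Real.log_pow, Real.log_pow]
      push_cast
      rfl
    rw [div_le_iff₀ hc10, hc1]
    push_cast at h7
    linarith
  have hLc : (x / c1) ^ r - c0 ≤ L.card := by
    have h1 : (x / c1) ^ r ≤ ((s : ℝ) + 1) ^ r := pow_le_pow_left₀ (by positivity) hs2 r
    have h2 : ((s : ℝ) + 1) ^ r ≤ (L.card : ℝ) + (2 * Q + 4) := by exact_mod_cast hLcard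
    rw [hc0]; linarith
  have hxr : x ^ A ≤ x ^ (r - 1) := by
    rw [← Real.rpow_natCast]
    apply Real.rpow_le_rpow_of_exponent_le hx1
    have h1 : A ≤ |A| := le_abs_self A
    have h2 : |A| ≤ (⌈|A|⌉₊ : ℝ) := Nat.le_ceil _
    have h3 : ((r - 1 : ℕ) : ℝ) = (⌈|A|⌉₊ : ℝ) + 1 := by
      rw [hr]; push_cast [show ⌈|A|⌉₊ + 2 - 1 = ⌈|A|⌉₊ + 1 by omega]; ring
    rw [h3]; linarith
  have hxr1 : x ≤ x ^ (r - 1) := by
    calc x = x ^ 1 := (pow_one x).symm
      _ ≤ x ^ (r - 1) := pow_le_pow_right₀ hx1 (by omega)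
  have hxr0 : 1 ≤ x ^ (r - 1) := one_le_pow₀ hx1
  have hxrr : x ^ r = x * x ^ (r - 1) := by
    have hr1 : r = (r - 1) + 1 := by omega
    conv_lhs => rw [hr1]
    rw [pow_succ']
  have hkey : x ^ A + 2 * x + 5 ≤ (L.card : ℝ) / 2 := by
    have h1 : (x ^ A + 2 * x + 5) * 2 + c0 ≤ (x / c1) ^ r := by
      rw [div_pow, le_div_iff₀ (by positivity), hxrr]
      have h2 : (x ^ A + 2 * x + 5) * 2 + c0 ≤ 2 * (8 + c0) * x ^ (r - 1) := by nlinarith
      calc ((x ^ A + 2 * x + 5) * 2 + c0) * c1 ^ r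
          ≤ (2 * (8 + c0) * x ^ (r - 1)) * c1 ^ r :=
            mul_le_mul_of_nonneg_right h2 (by positivity)
        _ = (2 * c1 ^ r * (8 + c0)) * x ^ (r - 1) := by ring
        _ ≤ x * x ^ (r - 1) := mul_le_mul_of_nonneg_right hx2 (by positivity)
    linarith
  have hfin := fin1 x A n P L.card hPR hx (by omega) hkey
  have h16 : (0 : ℝ) < 16 * (n : ℝ) ^ 2 := by positivity
  have h17 : Real.exp (x ^ A) * (16 * (n : ℝ) ^ 2) ≤ (Gd.card : ℝ) * (16 * (n : ℝ) ^ 2) := by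
    have h18 : 0 ≤ Real.exp (x ^ A) * (16 * (n : ℝ) ^ 2) := by positivity
    calc Real.exp (x ^ A) * (16 * (n : ℝ) ^ 2) ≤ Real.exp (x ^ A) * (96 * (n : ℝ) ^ 2) := by
          apply mul_le_mul_of_nonneg_left _ (Real.exp_pos _).le
          nlinarith [sq_nonneg (n : ℝ)]
      _ ≤ (9 / 5) ^ L.card := hfin
      _ ≤ _ := hG
  exact le_of_mul_le_mul_right h17 h16

/-- **Many `k ≤ y` with many primitive cycles.** -/
theorem many_log (A ε : ℝ) (hε0 : 0 < ε) (hε1 : ε < 1) : ∃ y₀ : ℕ, ∀ y : ℕ, y₀ ≤ y →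
    Real.exp (Real.log (Real.log y) ^ A) ≤
      (Set.ncard {k : ℕ | k ≤ y ∧ (k % 6 = 1 ∨ k % 6 = 5) ∧ (y : ℝ) ^ (1 - ε) ≤ k ∧
        (y : ℝ) ^ (1 - ε) ≤ ((primCycles (k : ℤ) (Nat.log 2 y)).ncard : ℝ)} : ℝ) := by
  obtain ⟨P₀, hP₀⟩ := many_core |A| ε hε0 hε1
  refine ⟨2 ^ (P₀ + 4) + ⌈Real.exp 20⌉₊, fun y hy => ?_⟩
  have hy1 : 2 ^ (P₀ + 4) ≤ y := by omega
  have hy2 : ⌈Real.exp 20⌉₊ ≤ y := by
    have : 0 < 2 ^ (P₀ + 4) := by positivity
    omega
  have hypos : 0 < y := lt_of_lt_of_le (by positivity) hy1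
  have hyR : (0 : ℝ) < y := by exact_mod_cast hypos
  have hlog : P₀ + 4 ≤ Nat.log 2 y := Nat.le_log_of_pow_le (by norm_num) hy1
  set P := Nat.log 2 y with hP
  have hmain := hP₀ P y (by omega) (Nat.pow_log_le_self 2 hypos.ne')
    (Nat.lt_pow_succ_log_self (by norm_num) y)
  refine le_trans (Real.exp_le_exp.2 ?_) hmain
  have h20 : 20 ≤ Real.log y := by
    rw [Real.le_log_iff_exp_le hyR]
    exact (Nat.le_ceil _).trans (by exact_mod_cast hy2)
  have hPlog : Real.log y ≤ P := by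
    have h1 : y < 2 ^ (P + 1) := Nat.lt_pow_succ_log_self (by norm_num) y
    have h2 : (y : ℝ) < 2 ^ (P + 1) := by exact_mod_cast h1
    have h3 : Real.log y ≤ (P + 1 : ℕ) * Real.log 2 := by
      rw [← Real.log_pow]
      exact Real.log_le_log hyR h2.le
    have h5 := Real.log_two_lt_d9
    have h6 : (0 : ℝ) ≤ P := Nat.cast_nonneg _
    have h7 : (4 : ℝ) ≤ P := by exact_mod_cast (show 4 ≤ P by omega)
    push_cast at h3
    nlinarith
  have hll : 1 ≤ Real.log (Real.log y) := by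
    rw [Real.le_log_iff_exp_le (by linarith)]
    have := Real.exp_one_lt_d9
    linarith
  have hmono : Real.log (Real.log y) ≤ Real.log P := Real.log_le_log (by linarith) hPlog
  exact (Real.rpow_le_rpow_of_exponent_le hll (le_abs_self A)).trans
    (Real.rpow_le_rpow (by linarith) hmono (abs_nonneg A))

end Pool.Agent.H621.Avg
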