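import Mathlib
import Pool.Agent.H621.Avg.Many

set_option autoImplicit false

/-!
# Few `k` have a primitive cycle with at most `P` elements
-/

namespace Pool.Agent.H621.Avg

open Pool.Agent.H621.Osc (T T_odd T_even IsCycle cyc_eq cyc_nonempty)

theorem iter_mod (k : ℤ) (hk : k % 2 = 1) (x : ℤ) : ∀ p : ℕ, ∃ o ≤ p,
    k ∣ 2 ^ p * (T k)^[p] x - 3 ^ o * x := by
  intro p
  induction p with
  | zero => exact ⟨0, le_rfl, by simp⟩
  | succ p ih =>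
    obtain ⟨o, ho, c, hc⟩ := ih
    rw [Function.iterate_succ_apply']
    set z := (T k)^[p] x
    rcases Int.emod_two_eq_zero_or_one z with h | h
    · have e := T_even (k := k) h
      refine ⟨o, by omega, c, ?_⟩
      rw [pow_succ, mul_assoc, e]; exact hc
    · have e := T_odd (k := k) hk h
      refine ⟨o + 1, by omega, 3 * c + 2 ^ p, ?_⟩
      rw [pow_succ, mul_assoc, e]
      linear_combination 3 * hc

theorem dvd_of_prim {k : ℤ} (hk : k % 2 = 1) {P : ℕ} (h : (primCycles k P).Nonempty) :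
    ∃ p o : ℕ, 1 ≤ p ∧ p ≤ P ∧ o ≤ p ∧ k ∣ 2 ^ p - 3 ^ o := by
  obtain ⟨Z, hZ, hP, hc⟩ := h
  obtain ⟨z, hz⟩ := cyc_nonempty hZ
  obtain ⟨h1, h2, _⟩ := cyc_eq hZ z hz
  obtain ⟨o, ho, hd⟩ := iter_mod k hk z Z.card
  rw [h2] at hd
  refine ⟨Z.card, o, Finset.card_pos.2 ⟨z, hz⟩, hP, ho, ?_⟩
  have e : (2 : ℤ) ^ Z.card * z - 3 ^ o * z = (2 ^ Z.card - 3 ^ o) * z := by ring
  rw [e] at hd
  exact (hc z hz).symm.dvd_of_dvd_mul_right hd

theorem pow_ne {p o : ℕ} (hp : 1 ≤ p) : (2 : ℤ) ^ p - 3 ^ o ≠ 0 := by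
  intro h
  have h2 : (2 : ℤ) ∣ 2 ^ p := dvd_pow_self 2 (by omega)
  have h3 : (2 : ℤ) ∣ 3 ^ o := by
    rw [← sub_eq_zero.1 h]; exact h2
  have := Int.prime_two.dvd_of_dvd_pow h3
  omega

theorem natAbs_le (p o P : ℕ) (hp : p ≤ P) (ho : o ≤ p) : ((2 : ℤ) ^ p - 3 ^ o).natAbs ≤ 3 ^ P := by
  have h1 : (2 : ℤ) ^ p ≤ 3 ^ P := by
    calc (2 : ℤ) ^ p ≤ 3 ^ p := pow_le_pow_left₀ (by norm_num) (by norm_num) p
      _ ≤ 3 ^ P := pow_le_pow_right₀ (by norm_num) hp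
  have h2 : (3 : ℤ) ^ o ≤ 3 ^ P := pow_le_pow_right₀ (by norm_num) (ho.trans hp)
  have h3 : (0 : ℤ) < 2 ^ p := by positivity
  have h4 : (0 : ℤ) < 3 ^ o := by positivity
  have h5 : (((2 : ℤ) ^ p - 3 ^ o).natAbs : ℤ) ≤ ((3 ^ P : ℕ) : ℤ) := by
    rw [Int.natCast_natAbs, abs_le]
    push_cast
    constructor <;> linarith
  exact_mod_cast h5

/-- the `k` with a primitive cycle with at most `P` elements are few -/
theorem few_card (ε : ℝ) (hε : 0 < ε) : ∃ P₀ : ℕ, ∀ P : ℕ, P₀ ≤ P →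
    {k : ℕ | (k % 6 = 1 ∨ k % 6 = 5) ∧ (primCycles (k : ℤ) P).Nonempty}.Finite ∧
    (Set.ncard {k : ℕ | (k % 6 = 1 ∨ k % 6 = 5) ∧ (primCycles (k : ℤ) P).Nonempty} : ℝ) ≤
      Real.exp (ε * P) := by
  classical
  obtain ⟨C, hC, hdiv⟩ := divisor_bound (ε / 4) (by positivity)
  set r : ℝ := Real.exp (ε / 2) with hr
  have hr1 : 1 < r := by
    rw [hr]; exact Real.one_lt_exp_iff.2 (by positivity)
  have ht := tendsto_pow_const_div_const_pow_of_one_lt 2 hr1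
  have h1 : ∀ᶠ n : ℕ in Filter.atTop, (n : ℝ) ^ 2 / r ^ n < 1 / (4 * C) :=
    ht.eventually_lt_const (by positivity)
  obtain ⟨n1, hn1⟩ := Filter.eventually_atTop.1 h1
  refine ⟨n1 + 1, fun P hP => ?_⟩
  set U : Finset ℕ := ((Finset.range (P + 1)) ×ˢ (Finset.range (P + 1))).biUnion
    (fun q : ℕ × ℕ => if 1 ≤ q.1 ∧ q.2 ≤ q.1 then ((2 : ℤ) ^ q.1 - 3 ^ q.2).natAbs.divisors else ∅) with hU
  have hsub : {k : ℕ | (k % 6 = 1 ∨ k % 6 = 5) ∧ (primCycles (k : ℤ) P).Nonempty} ⊆ (U : Set ℕ) := by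
    rintro k ⟨hk6, hk⟩
    obtain ⟨p, o, hp1, hpP, hop, hd⟩ := dvd_of_prim (k := (k : ℤ)) (by omega) hk
    rw [Finset.mem_coe, hU, Finset.mem_biUnion]
    refine ⟨(p, o), Finset.mem_product.2 ⟨Finset.mem_range.2 (by omega), Finset.mem_range.2 (by omega)⟩, ?_⟩
    rw [if_pos ⟨hp1, hop⟩, Nat.mem_divisors]
    exact ⟨Int.natCast_dvd.1 hd, Int.natAbs_ne_zero.2 (pow_ne hp1)⟩
  refine ⟨U.finite_toSet.subset hsub, ?_⟩
  have hcard : (Set.ncard {k : ℕ | (k % 6 = 1 ∨ k % 6 = 5) ∧ (primCycles (k : ℤ) P).Nonempty} : ℝ) ≤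
      U.card := by
    rw [← Set.ncard_coe_finset]
    exact Nat.cast_le.2 (Set.ncard_le_ncard hsub U.finite_toSet)
  refine hcard.trans ?_
  have hterm : ∀ q ∈ (Finset.range (P + 1)) ×ˢ (Finset.range (P + 1)),
      ((if 1 ≤ q.1 ∧ q.2 ≤ q.1 then ((2 : ℤ) ^ q.1 - 3 ^ q.2).natAbs.divisors else ∅ : Finset ℕ).card : ℝ) ≤
        C * Real.exp (P * (ε / 2)) := by
    intro q hq
    rw [Finset.mem_product, Finset.mem_range, Finset.mem_range] at hq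
    split_ifs with hc
    · have h2 : 1 ≤ ((2 : ℤ) ^ q.1 - 3 ^ q.2).natAbs := Int.natAbs_pos.2 (pow_ne hc.1)
      refine (hdiv _ h2).trans (mul_le_mul_of_nonneg_left ?_ hC.le)
      have h3 : ((((2 : ℤ) ^ q.1 - 3 ^ q.2).natAbs : ℕ) : ℝ) ≤ (3 : ℝ) ^ P := by
        exact_mod_cast natAbs_le q.1 q.2 P (by omega) hc.2
      have hl3 : Real.log 3 ≤ 2 := by
        have := Real.log_le_sub_one_of_pos (show (0 : ℝ) < 3 by norm_num)
        linarith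
      calc ((((2 : ℤ) ^ q.1 - 3 ^ q.2).natAbs : ℕ) : ℝ) ^ (ε / 4) ≤ ((3 : ℝ) ^ P) ^ (ε / 4) :=
            Real.rpow_le_rpow (Nat.cast_nonneg _) h3 (by positivity)
        _ = Real.exp (P * Real.log 3 * (ε / 4)) := by
            rw [Real.rpow_def_of_pos (by positivity), Real.log_pow]
        _ ≤ Real.exp (P * (ε / 2)) := by
            apply Real.exp_le_exp.2
            have h4 : (P : ℝ) * Real.log 3 ≤ P * 2 := mul_le_mul_of_nonneg_left hl3 (Nat.cast_nonneg _)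
            nlinarith
    · rw [Finset.card_empty, Nat.cast_zero]
      positivity
  have hUc : (U.card : ℝ) ≤ ((P + 1 : ℕ) : ℝ) ^ 2 * (C * Real.exp (P * (ε / 2))) := by
    have h2' : U.card ≤ ∑ q ∈ (Finset.range (P + 1)) ×ˢ (Finset.range (P + 1)),
        (if 1 ≤ q.1 ∧ q.2 ≤ q.1 then ((2 : ℤ) ^ q.1 - 3 ^ q.2).natAbs.divisors else ∅ : Finset ℕ).card := by
      rw [hU]
      exact Finset.card_biUnion_le
    have h2 : (U.card : ℝ) ≤ ∑ q ∈ (Finset.range (P + 1)) ×ˢ (Finset.range (P + 1)),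
        ((if 1 ≤ q.1 ∧ q.2 ≤ q.1 then ((2 : ℤ) ^ q.1 - 3 ^ q.2).natAbs.divisors else ∅ : Finset ℕ).card : ℝ) := by
      have h3 := (Nat.cast_le (α := ℝ)).2 h2'
      rw [Nat.cast_sum] at h3
      exact h3
    refine h2.trans ((Finset.sum_le_card_nsmul _ _ _ hterm).trans (le_of_eq ?_))
    rw [nsmul_eq_mul, Finset.card_product, Finset.card_range]
    push_cast
    ring
  refine hUc.trans ?_
  have hPR : (1 : ℝ) ≤ P := by exact_mod_cast (show 1 ≤ P by omega)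
  have h4 := hn1 P (by omega)
  have h5 : r ^ P = Real.exp (P * (ε / 2)) := by
    rw [hr, ← Real.exp_nat_mul]
  rw [h5, div_lt_div_iff₀ (Real.exp_pos _) (by positivity)] at h4
  have h6 : ((P + 1 : ℕ) : ℝ) ^ 2 * C ≤ Real.exp (P * (ε / 2)) := by
    push_cast
    have h7 : ((P : ℝ) + 1) ^ 2 ≤ 4 * (P : ℝ) ^ 2 := by nlinarith
    have h8 := mul_le_mul_of_nonneg_right h7 hC.le
    linarith
  calc ((P + 1 : ℕ) : ℝ) ^ 2 * (C * Real.exp (P * (ε / 2)))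
      = (((P + 1 : ℕ) : ℝ) ^ 2 * C) * Real.exp (P * (ε / 2)) := by ring
    _ ≤ Real.exp (P * (ε / 2)) * Real.exp (P * (ε / 2)) :=
      mul_le_mul_of_nonneg_right h6 (Real.exp_pos _).le
    _ = Real.exp (ε * P) := by
      rw [← Real.exp_add]; congr 1; ring

end Pool.Agent.H621.Avg
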